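import Mathlib

/-!
# Rtw AGE: periodic sets of integers and the distance to the previous element
-/

set_option autoImplicit false

namespace Rtw

open Finset

open scoped Classical

/-- The distance from `z` back to the previous element of `P`. -/
noncomputable def age (P : ℤ → Prop) (z : ℤ) : ℕ := sInf {k : ℕ | 1 ≤ k ∧ P (z - k)}

/-- `P` has the period `D > 0` and is not empty. -/
def Per (D : ℕ) (P : ℤ → Prop) : Prop := 0 < D ∧ (∀ z, P (z + D) ↔ P z) ∧ ∃ z, P z

/-- The sum of the ages over a period. -/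
noncomputable def T (D : ℕ) (P : ℤ → Prop) : ℕ := ∑ z ∈ Ico (0 : ℤ) D, age P z

-- BEGIN age_spec
private theorem age_spec_mul (D : ℕ) (P : ℤ → Prop) (h : ∀ z, P (z + D) ↔ P z) (m : ℤ) :
    ∀ z, P (z + D * m) ↔ P z := by
  induction m using Int.induction_on with
  | zero => intro z; simp
  | succ i ih =>
    intro z
    rw [← ih z, ← h (z + D * (i : ℤ))]
    have : z + (D : ℤ) * ((i : ℤ) + 1) = z + D * (i : ℤ) + D := by ring
    rw [this]
  | pred i ih =>
    intro z
    rw [← ih z, ← h (z + D * (-(i : ℤ) - 1))]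
    have : z + (D : ℤ) * (-(i : ℤ) - 1) + D = z + D * (-(i : ℤ)) := by ring
    rw [this]

/-- `Per` gives an element in every window of length `D`, so the set is not empty; `Nat.sInf_mem`, `Nat.notMem_of_lt_sInf`,
`Nat.sInf_le`. -/
theorem age_spec (D : ℕ) (P : ℤ → Prop) (hP : Per D P) (z : ℤ) :
    1 ≤ age P z ∧ age P z ≤ D ∧ P (z - age P z) ∧ ∀ k : ℕ, 1 ≤ k → k < age P z → ¬ P (z - k) := by
  obtain ⟨hD, hper, z0, hz0⟩ := hP
  have hDZ : (0 : ℤ) < D := by exact_mod_cast hD
  obtain ⟨k, hk1, hk2, hk3⟩ : ∃ k : ℕ, 1 ≤ k ∧ k ≤ D ∧ P (z - k) := by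
    have h1 : 0 ≤ (z - z0 - 1) % D := Int.emod_nonneg _ hDZ.ne'
    have h2 : (z - z0 - 1) % D < D := Int.emod_lt_of_pos _ hDZ
    refine ⟨((z - z0 - 1) % D).toNat + 1, by omega, by omega, ?_⟩
    have h3 : z - (((z - z0 - 1) % D).toNat + 1 : ℕ) = z0 + D * ((z - z0 - 1) / D) := by
      have h4 : ((((z - z0 - 1) % D).toNat + 1 : ℕ) : ℤ) = (z - z0 - 1) % D + 1 := by
        push_cast
        rw [Int.toNat_of_nonneg h1]
      have h5 := Int.mul_ediv_add_emod (z - z0 - 1) D
      rw [h4]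
      linarith
    rw [h3, age_spec_mul D P hper]
    exact hz0
  have hne : {k : ℕ | 1 ≤ k ∧ P (z - k)}.Nonempty := ⟨k, hk1, hk3⟩
  have hmem := Nat.sInf_mem hne
  refine ⟨hmem.1, le_trans (Nat.sInf_le ⟨hk1, hk3⟩) hk2, hmem.2, fun i hi1 hi2 hi3 => ?_⟩
  exact Nat.notMem_of_lt_sInf hi2 ⟨hi1, hi3⟩
-- END age_spec

-- BEGIN age_le
/-- `Nat.sInf_le`. -/
theorem age_le (P : ℤ → Prop) (z : ℤ) (k : ℕ) (hk : 1 ≤ k) (h : P (z - k)) : age P z ≤ k :=
  Nat.sInf_le ⟨hk, h⟩
-- END age_le

-- BEGIN le_age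
/-- From `age_spec`. -/
theorem le_age (D : ℕ) (P : ℤ → Prop) (hP : Per D P) (z : ℤ) (m : ℕ)
    (h : ∀ k : ℕ, 1 ≤ k → k < m → ¬ P (z - k)) : m ≤ age P z := by
  obtain ⟨h1, _, h3, _⟩ := age_spec D P hP z
  by_contra hc
  exact h _ h1 (not_le.1 hc) h3
-- END le_age

-- BEGIN age_succ
/-- From `age_spec`, `age_le`, `le_age`. -/
theorem age_succ (D : ℕ) (P : ℤ → Prop) (hP : Per D P) (z : ℤ) :
    age P (z + 1) = if P z then 1 else age P z + 1 := by
  split_ifs with h
  · refine le_antisymm (age_le P (z + 1) 1 le_rfl ?_) (age_spec D P hP (z + 1)).1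
    have e : z + 1 - ((1 : ℕ) : ℤ) = z := by push_cast; ring
    rw [e]
    exact h
  · obtain ⟨_, _, h3, h4⟩ := age_spec D P hP z
    refine le_antisymm (age_le P (z + 1) (age P z + 1) (by omega) ?_) (le_age D P hP (z + 1) _ fun k hk hk' hp => ?_)
    · have e : z + 1 - ((age P z + 1 : ℕ) : ℤ) = z - (age P z : ℕ) := by push_cast; ring
      rw [e]
      exact h3
    · rcases Nat.eq_or_lt_of_le hk with h1 | h1
      · have e : z + 1 - (k : ℤ) = z := by rw [← h1]; push_cast; ring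
        rw [e] at hp
        exact h hp
      · have e : z + 1 - (k : ℤ) = z - ((k - 1 : ℕ) : ℤ) := by
          rw [Nat.cast_sub hk]
          push_cast
          ring
        rw [e] at hp
        exact h4 (k - 1) (by omega) (by omega) hp
-- END age_succ

-- BEGIN age_per
/-- The two sets are equal: `P (z + D - k) ↔ P (z - k)`. -/
theorem age_per (D : ℕ) (P : ℤ → Prop) (hP : Per D P) (z : ℤ) : age P (z + D) = age P z := by
  unfold age
  congr 1
  ext k
  have h := hP.2.1 (z - k)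
  rw [show z - (k : ℤ) + D = z + D - k by ring] at h
  exact and_congr_right fun _ => h
-- END age_per

-- BEGIN sum_shift
private theorem sum_shift_range (D : ℕ) (f : ℤ → ℕ) (a : ℤ) :
    ∑ z ∈ Ico a (a + D), f z = ∑ i ∈ range D, f (a + i) := by
  apply Finset.sum_nbij' (fun z => (z - a).toNat) (fun i => a + (i : ℤ))
  · intro z hz
    rw [mem_Ico] at hz
    rw [mem_range]; omega
  · intro i hi
    rw [mem_range] at hi
    rw [mem_Ico]; omega
  · intro z hz
    rw [mem_Ico] at hz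
    show a + ((z - a).toNat : ℤ) = z
    omega
  · intro i _
    show (a + (i : ℤ) - a).toNat = i
    omega
  · intro z hz
    rw [mem_Ico] at hz
    have : a + ((z - a).toNat : ℤ) = z := by omega
    rw [this]

/-- The sum of a periodic function over a period does not depend on the start (induction on `a`, both directions;
`Int.induction_on` or the difference of the sums for `a + 1` and `a` is `f (a + D) - f a = 0`). -/
theorem sum_shift (D : ℕ) (hD : 0 < D) (f : ℤ → ℕ) (hf : ∀ z, f (z + D) = f z) (a : ℤ) :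
    ∑ z ∈ Ico a (a + D), f z = ∑ z ∈ Ico (0 : ℤ) D, f z := by
  have hstep : ∀ a : ℤ, ∑ i ∈ range D, f (a + 1 + i) = ∑ i ∈ range D, f (a + i) := by
    intro a
    have h1 : ∑ i ∈ range (D + 1), f (a + i) = ∑ i ∈ range D, f (a + i) + f (a + D) :=
      Finset.sum_range_succ _ _
    have h2 : ∑ i ∈ range (D + 1), f (a + i) = ∑ i ∈ range D, f (a + (i + 1 : ℕ)) + f (a + (0 : ℕ)) :=
      Finset.sum_range_succ' _ _
    have h3 : ∑ i ∈ range D, f (a + (i + 1 : ℕ)) = ∑ i ∈ range D, f (a + 1 + i) := by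
      apply Finset.sum_congr rfl
      intro i _
      congr 1
      push_cast; ring
    have h4 : f (a + (0 : ℕ)) = f a := by simp
    rw [h3, h4] at h2
    rw [hf a] at h1
    omega
  have h0 : ∑ z ∈ Ico (0 : ℤ) D, f z = ∑ i ∈ range D, f ((0 : ℤ) + i) := by
    have := sum_shift_range D f 0
    rwa [zero_add] at this
  rw [sum_shift_range, h0]
  induction a using Int.induction_on with
  | zero => rfl
  | succ n ih => rw [hstep]; exact ih
  | pred n ih =>
    have := hstep (-(n : ℤ) - 1)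
    rw [sub_add_cancel] at this
    rw [← this]; exact ih
-- END sum_shift

-- BEGIN tele1
private theorem tele1_shift (D : ℕ) (hD : 0 < D) (f : ℤ → ℕ) (hf : ∀ z, f (z + D) = f z) :
    ∑ z ∈ Ico (0 : ℤ) D, f (z + 1) = ∑ z ∈ Ico (0 : ℤ) D, f z := by
  rw [← sum_shift D hD f hf 1]
  refine Finset.sum_nbij' (fun z => z + 1) (fun z => z - 1) ?_ ?_ ?_ ?_ ?_
  · intro z hz
    rw [Finset.mem_Ico] at hz ⊢
    omega
  · intro z hz
    rw [Finset.mem_Ico] at hz ⊢
    omega
  · intro z _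
    ring
  · intro z _
    ring
  · intro z _
    rfl

/-- Telescoping `age P (z + 1) - age P z` over a period (`= 1` for `¬ P z`, `= 1 - age P z` for `P z`). -/
theorem tele1 (D : ℕ) (P : ℤ → Prop) (hP : Per D P) :
    ∑ z ∈ (Ico (0 : ℤ) D).filter P, age P z = D := by
  have h1 : ∀ z, age P (z + 1) + (if P z then age P z else 0) = age P z + 1 := by
    intro z
    rw [age_succ D P hP]
    split_ifs
    · omega
    · omega
  have h2 := Finset.sum_congr rfl (fun z (_ : z ∈ Ico (0 : ℤ) D) => h1 z)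
  rw [Finset.sum_add_distrib, Finset.sum_add_distrib, ← Finset.sum_filter,
    tele1_shift D hP.1 (age P) (age_per D P hP)] at h2
  have h3 : ∑ _z ∈ Ico (0 : ℤ) D, (1 : ℕ) = D := by
    rw [Finset.sum_const, Int.card_Ico, sub_zero, Int.toNat_natCast, smul_eq_mul, mul_one]
  rw [h3] at h2
  exact Nat.add_left_cancel h2
-- END tele1

-- BEGIN tele2
/-- Telescoping `age P (z + 1) ^ 2 - age P z ^ 2` (`= 2 age + 1` for `¬ P z`, `= 1 - age ^ 2` for `P z`), and `tele1`. -/
theorem tele2 (D : ℕ) (P : ℤ → Prop) (hP : Per D P) :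
    2 * T D P = ∑ z ∈ (Ico (0 : ℤ) D).filter P, age P z ^ 2 + D := by
  have h1 : ∀ z, age P (z + 1) ^ 2 + ((if P z then age P z ^ 2 else 0) +
      2 * (if P z then age P z else 0)) = age P z ^ 2 + (2 * age P z + 1) := by
    intro z
    rw [age_succ D P hP]
    split_ifs
    · ring
    · ring
  have h2 := Finset.sum_congr rfl (fun z (_ : z ∈ Ico (0 : ℤ) D) => h1 z)
  have hs : ∑ z ∈ Ico (0 : ℤ) D, age P (z + 1) ^ 2 = ∑ z ∈ Ico (0 : ℤ) D, age P z ^ 2 :=
    tele1_shift D hP.1 (fun z => age P z ^ 2) (fun z => by rw [age_per D P hP])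
  rw [Finset.sum_add_distrib, Finset.sum_add_distrib, Finset.sum_add_distrib,
    Finset.sum_add_distrib, ← Finset.mul_sum, ← Finset.mul_sum, ← Finset.sum_filter,
    ← Finset.sum_filter, tele1 D P hP, hs] at h2
  have h3 : ∑ _z ∈ Ico (0 : ℤ) D, (1 : ℕ) = D := by
    rw [Finset.sum_const, Int.card_Ico, sub_zero, Int.toNat_natCast, smul_eq_mul, mul_one]
  have h4 : T D P = ∑ z ∈ Ico (0 : ℤ) D, age P z := rfl
  rw [h3, ← h4] at h2
  have h5 : ∑ z ∈ (Ico (0 : ℤ) D).filter P, age P z ^ 2 + 2 * D = 2 * T D P + D :=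
    Nat.add_left_cancel h2
  omega
-- END tele2

-- BEGIN T_mono
/-- More elements: smaller ages. -/
theorem T_mono (D : ℕ) (P Q : ℤ → Prop) (hP : Per D P) (h : ∀ z, P z → Q z) : T D Q ≤ T D P := by
  unfold T
  refine Finset.sum_le_sum fun z _ => ?_
  obtain ⟨h1, _, h3, _⟩ := age_spec D P hP z
  exact age_le Q z (age P z) h1 (h _ h3)
-- END T_mono

-- BEGIN T_add
/-- Add the class of `B`, where `P` has no element in `[B - q, B + q]`. The new ages are `≤` the old ones, and at `z = B + r`,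
`1 ≤ r ≤ q + 1`, the old age is `≥ r + q + 1` and the new one `≤ r`. Use `sum_shift` to sum over `[B + 1, B + 1 + D)`; `q + 1 ≤ D`
because `P` has an element in every window of length `D`. -/
theorem T_add (D : ℕ) (P Q : ℤ → Prop) (hP : Per D P) (B : ℤ) (q : ℕ)
    (hQ : ∀ z, Q z ↔ P z ∨ (D : ℤ) ∣ z - B) (hB : ∀ z, B - q ≤ z → z ≤ B + q → ¬ P z) :
    T D Q + (q + 1) ^ 2 ≤ T D P := by
  have hD : 0 < D := hP.1
  have hPQ : Per D Q := by
    refine ⟨hD, fun z => ?_, ?_⟩
    · rw [hQ, hQ, hP.2.1]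
      have e : z + (D : ℤ) - B = (z - B) + D := by ring
      rw [e, dvd_add_self_right]
    · obtain ⟨z, hz⟩ := hP.2.2
      exact ⟨z, (hQ z).mpr (Or.inl hz)⟩
  have hqD : q + 1 ≤ D := by
    have h1 := (age_spec D P hP (B + q + 1)).2.1
    have h2 : 2 * q + 2 ≤ age P (B + q + 1) := by
      apply le_age D P hP
      intro k hk1 hk2
      apply hB
      · push_cast; omega
      · omega
    omega
  unfold T
  rw [← sum_shift D hD (age P) (age_per D P hP) (B + 1),
    ← sum_shift D hD (age Q) (age_per D Q hPQ) (B + 1)]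
  have hpt : ∀ z ∈ Ico (B + 1) (B + 1 + D),
      age Q z + (if z ≤ B + q + 1 then q + 1 else 0) ≤ age P z := by
    intro z hz
    rw [Finset.mem_Ico] at hz
    split_ifs with hzq
    · have h1 : age Q z ≤ (z - B).toNat := by
        apply age_le Q z _ (by omega)
        rw [hQ]
        right
        have : z - ((z - B).toNat : ℤ) - B = 0 := by
          rw [Int.toNat_of_nonneg (by omega)]
          ring
        rw [this]
        exact dvd_zero _
      have h2 : (z - B).toNat + q + 1 ≤ age P z := by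
        apply le_age D P hP
        intro k hk1 hk2
        apply hB
        · omega
        · omega
      omega
    · obtain ⟨h1, _, h3, _⟩ := age_spec D P hP z
      have := age_le Q z (age P z) h1 ((hQ _).mpr (Or.inl h3))
      omega
  have hsum := Finset.sum_le_sum hpt
  rw [Finset.sum_add_distrib] at hsum
  have hcnt : ∑ z ∈ Ico (B + 1) (B + 1 + D), (if z ≤ B + q + 1 then q + 1 else 0) = (q + 1) ^ 2 := by
    rw [← Finset.sum_filter, Finset.sum_const]
    have e : (Ico (B + 1) (B + 1 + D)).filter (fun z => z ≤ B + q + 1) = Ico (B + 1) (B + q + 2) := by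
      ext z
      rw [Finset.mem_filter, Finset.mem_Ico, Finset.mem_Ico]
      constructor
      · rintro ⟨⟨h1, h2⟩, h3⟩
        exact ⟨h1, by omega⟩
      · rintro ⟨h1, h2⟩
        exact ⟨⟨h1, by omega⟩, by omega⟩
    rw [e, Int.card_Ico]
    have e2 : (B + q + 2 - (B + 1)).toNat = q + 1 := by omega
    rw [e2, smul_eq_mul]
    ring
  rw [hcnt] at hsum
  exact hsum
-- END T_add

-- BEGIN T_rem
/-- Remove the class of `A`, where `A - a` and `A + b` are in `P`. For `z ∈ [A + 1, A + 1 + D)`: if `z > A + b`, the age is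
attained at an element in `[A + b, z)`, which stays, so the new age is `≤` the old one; if `z ≤ A + b` and the old age is `< z - A`,
the same; otherwise the old age is `≥ z - A` and the new one is `≤ z - A + a`. The last case occurs for at most `b` values of `z`. -/
theorem T_rem (D : ℕ) (P Q : ℤ → Prop) (hP : Per D P) (A : ℤ) (a b : ℕ) (ha : 1 ≤ a) (hb : 1 ≤ b)
    (haD : a < D) (hbD : b < D) (h1 : P (A - a)) (h2 : P (A + b))
    (hQ : ∀ z, Q z ↔ P z ∧ ¬ (D : ℤ) ∣ z - A) :
    T D Q ≤ T D P + a * b := by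
  have hD : 0 < D := hP.1
  have hQa : Q (A - a) := by
    rw [hQ]
    refine ⟨h1, fun hdvd => ?_⟩
    have e : A - (a : ℤ) - A = -(a : ℤ) := by ring
    rw [e, dvd_neg] at hdvd
    have := Int.le_of_dvd (by omega) hdvd
    omega
  have hPQ : Per D Q := by
    refine ⟨hD, fun z => ?_, ⟨_, hQa⟩⟩
    rw [hQ, hQ, hP.2.1]
    have e : z + (D : ℤ) - A = (z - A) + D := by ring
    rw [e, dvd_add_self_right]
  unfold T
  rw [← sum_shift D hD (age P) (age_per D P hP) (A + 1),
    ← sum_shift D hD (age Q) (age_per D Q hPQ) (A + 1)]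
  have hpt : ∀ z ∈ Ico (A + 1) (A + 1 + D),
      age Q z ≤ age P z + (if z ≤ A + b then a else 0) := by
    intro z hz
    rw [Finset.mem_Ico] at hz
    obtain ⟨g1, g2, g3, g4⟩ := age_spec D P hP z
    by_cases hdvd : (D : ℤ) ∣ z - (age P z : ℤ) - A
    · have hzero : z - (age P z : ℤ) - A = 0 := by
        apply Int.eq_zero_of_abs_lt_dvd hdvd
        rw [abs_lt]
        constructor
        · omega
        · omega
      have hzb : z ≤ A + b := by
        by_contra hcon
        apply g4 (z - A - b).toNat (by omega) (by omega)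
        have e : z - ((z - A - b).toNat : ℤ) = A + b := by
          rw [Int.toNat_of_nonneg (by omega)]
          ring
        rw [e]
        exact h2
      rw [if_pos hzb]
      apply age_le Q z _ (by omega)
      have e : z - ((age P z + a : ℕ) : ℤ) = A - a := by
        push_cast
        omega
      rw [e]
      exact hQa
    · have := age_le Q z (age P z) g1 ((hQ _).mpr ⟨g3, hdvd⟩)
      omega
  have hsum := Finset.sum_le_sum hpt
  rw [Finset.sum_add_distrib] at hsum
  have hcnt : ∑ z ∈ Ico (A + 1) (A + 1 + D), (if z ≤ A + b then a else 0) = a * b := by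
    rw [← Finset.sum_filter, Finset.sum_const]
    have e : (Ico (A + 1) (A + 1 + D)).filter (fun z => z ≤ A + b) = Ico (A + 1) (A + b + 1) := by
      ext z
      rw [Finset.mem_filter, Finset.mem_Ico, Finset.mem_Ico]
      constructor
      · rintro ⟨⟨h1, h2⟩, h3⟩
        exact ⟨h1, by omega⟩
      · rintro ⟨h1, h2⟩
        exact ⟨⟨h1, by omega⟩, by omega⟩
    rw [e, Int.card_Ico]
    have e2 : (A + b + 1 - (A + 1)).toNat = b := by omega
    rw [e2, smul_eq_mul]
    ring
  rw [hcnt] at hsum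
  exact hsum
-- END T_rem

-- BEGIN three
/-- Pigeonhole. Suppose the window `[z, z + N)` has at least `N / R` elements of `P`, `N > 4 R`. Divide it in at most `N / (4 R) + 1`
blocks of length at most `4 R`. If all had at most 2 elements, then `N ≤ R #P ≤ 2 R (N / (4 R) + 1) ≤ N / 2 + 2 R < N`. So a block has
three elements. -/
theorem three (P : ℤ → Prop) (R N : ℕ) (z : ℤ) (hN : 4 * R < N)
    (h : N ≤ R * ((Ico z (z + N)).filter P).card) :
    ∃ (A : ℤ) (a b : ℕ), P A ∧ P (A - a) ∧ P (A + b) ∧ 1 ≤ a ∧ 1 ≤ b ∧ a + b < 4 * R ∧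
      z ≤ A - a ∧ A + b < z + N := by
  set S := (Ico z (z + N)).filter P with hS
  have hR : 1 ≤ R := by
    by_contra hcon
    have hR0 : R = 0 := by omega
    rw [hR0, zero_mul] at h
    omega
  have hmaps : ∀ x ∈ S, (((x - z) / ((4 * R : ℕ) : ℤ)).toNat) ∈ range (N / (4 * R) + 1) := by
    intro x hx
    rw [hS, Finset.mem_filter, Finset.mem_Ico] at hx
    rw [Finset.mem_range]
    have h0 : 0 ≤ x - z := by omega
    have h1 : (x - z) / ((4 * R : ℕ) : ℤ) ≤ ((N / (4 * R) : ℕ) : ℤ) := by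
      rw [Int.natCast_div]
      apply Int.ediv_le_ediv (by push_cast; omega)
      omega
    have h2 := Int.toNat_le.mpr h1
    exact Nat.lt_succ_of_le h2
  have hcard : (range (N / (4 * R) + 1)).card * 2 < S.card := by
    rw [Finset.card_range]
    by_contra hcon
    rw [not_lt] at hcon
    have h1 : R * S.card ≤ R * ((N / (4 * R) + 1) * 2) := Nat.mul_le_mul_left R hcon
    have h2 : 4 * R * (N / (4 * R)) ≤ N := Nat.mul_div_le N (4 * R)
    have h3 : 2 * (R * ((N / (4 * R) + 1) * 2)) = 4 * R * (N / (4 * R)) + 4 * R := by ring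
    omega
  obtain ⟨y, _, hy⟩ := Finset.exists_lt_card_fiber_of_mul_lt_card_of_maps_to hmaps hcard
  set F := S.filter (fun x => ((x - z) / ((4 * R : ℕ) : ℤ)).toNat = y) with hF
  have hFne : F.Nonempty := by
    rw [← Finset.card_pos]
    omega
  have hex : ∃ m ∈ F, m ≠ F.min' hFne ∧ m ≠ F.max' hFne := by
    by_contra hcon
    push Not at hcon
    have hsub : F ⊆ {F.min' hFne, F.max' hFne} := by
      intro m hm
      rw [Finset.mem_insert, Finset.mem_singleton]
      by_cases h1 : m = F.min' hFne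
      · exact Or.inl h1
      · exact Or.inr (hcon m hm h1)
    have := Finset.card_le_card hsub
    have h2 := Finset.card_le_two (a := F.min' hFne) (b := F.max' hFne)
    omega
  obtain ⟨m, hm, hm1, hm2⟩ := hex
  have hlo := F.min'_mem hFne
  have hhi := F.max'_mem hFne
  set lo := F.min' hFne with hlod
  set hi := F.max' hFne with hhid
  have hlt1 : lo < m := lt_of_le_of_ne (F.min'_le m hm) (Ne.symm hm1)
  have hlt2 : m < hi := lt_of_le_of_ne (F.le_max' m hm) hm2
  rw [hF, Finset.mem_filter, hS, Finset.mem_filter, Finset.mem_Ico] at hlo hhi hm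
  have hblk : hi - lo < 4 * R := by
    have h0 : (0 : ℤ) < ((4 * R : ℕ) : ℤ) := by push_cast; omega
    have q1 : (hi - z) / ((4 * R : ℕ) : ℤ) = (lo - z) / ((4 * R : ℕ) : ℤ) := by
      have n1 : 0 ≤ (hi - z) / ((4 * R : ℕ) : ℤ) := Int.ediv_nonneg (by omega) (by omega)
      have n2 : 0 ≤ (lo - z) / ((4 * R : ℕ) : ℤ) := Int.ediv_nonneg (by omega) (by omega)
      have m1 := hhi.2
      have m2 := hlo.2
      omega
    have r1 := Int.emod_add_mul_ediv (hi - z) ((4 * R : ℕ) : ℤ)
    have r2 := Int.emod_add_mul_ediv (lo - z) ((4 * R : ℕ) : ℤ)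
    have s1 := Int.emod_lt_of_pos (hi - z) h0
    have s2 := Int.emod_nonneg (lo - z) h0.ne'
    rw [q1] at r1
    push_cast at *
    linarith
  refine ⟨m, (m - lo).toNat, (hi - m).toNat, hm.1.2, ?_, ?_, by omega, by omega, by omega, by omega,
    by omega⟩
  · have e : m - ((m - lo).toNat : ℤ) = lo := by
      rw [Int.toNat_of_nonneg (by omega)]
      ring
    rw [e]
    exact hlo.1.2
  · have e : m + ((hi - m).toNat : ℤ) = hi := by
      rw [Int.toNat_of_nonneg (by omega)]
      ring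
    rw [e]
    exact hhi.1.2
-- END three

-- BEGIN exch2
/-- The exchange for the letter `i`: first add the class of `B` (`T_add`), then remove the class of `A` (`T_rem`, for
`P ∪ B`); `a b ≤ 4 R ^ 2` because `a + b < 4 R`. -/
theorem exch2 (D R : ℕ) (P Q : ℤ → Prop) (hP : Per D P) (hD : 4 * R ≤ D) (A B : ℤ) (a b q : ℕ)
    (ha : 1 ≤ a) (hb : 1 ≤ b) (hab : a + b < 4 * R) (h1 : P (A - a)) (h2 : P (A + b))
    (hB : ∀ z, B - q ≤ z → z ≤ B + q → ¬ P z)
    (hQ : ∀ z, Q z ↔ (P z ∨ (D : ℤ) ∣ z - B) ∧ ¬ (D : ℤ) ∣ z - A) :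
    T D Q + (q + 1) ^ 2 ≤ T D P + 4 * R ^ 2 := by
  have hP' : Per D (fun z => P z ∨ (D : ℤ) ∣ z - B) := by
    refine ⟨hP.1, fun z => ?_, ?_⟩
    · have e : z + (D : ℤ) - B = (z - B) + D := by ring
      show (P (z + D) ∨ (D : ℤ) ∣ z + D - B) ↔ (P z ∨ (D : ℤ) ∣ z - B)
      rw [hP.2.1, e, dvd_add_self_right]
    · obtain ⟨z, hz⟩ := hP.2.2
      exact ⟨z, Or.inl hz⟩
  have g1 := T_add D P (fun z => P z ∨ (D : ℤ) ∣ z - B) hP B q (fun z => Iff.rfl) hB
  have g2 := T_rem D (fun z => P z ∨ (D : ℤ) ∣ z - B) Q hP' A a b ha hb (by omega) (by omega)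
    (Or.inl h1) (Or.inl h2) hQ
  have g3 : a * b ≤ 4 * R ^ 2 := by
    have e1 : 4 * (a * b) ≤ (a + b) * (a + b) := by nlinarith [sq_nonneg ((a : ℤ) - b)]
    have e2 : (a + b) * (a + b) ≤ (4 * R) * (4 * R) := Nat.mul_le_mul hab.le hab.le
    nlinarith
  omega
-- END exch2

-- BEGIN exch3
/-- The exchange for the letter `j`: remove the class of `B` (`T_rem`), then add the class of `A` (`T_mono`). -/
theorem exch3 (D R : ℕ) (P Q : ℤ → Prop) (hP : Per D P) (hD : 4 * R ≤ D) (A B : ℤ) (a b : ℕ)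
    (ha : 1 ≤ a) (hb : 1 ≤ b) (hab : a + b < 4 * R) (h1 : P (B - a)) (h2 : P (B + b))
    (hQ : ∀ z, Q z ↔ (P z ∧ ¬ (D : ℤ) ∣ z - B) ∨ (D : ℤ) ∣ z - A) :
    T D Q ≤ T D P + 4 * R ^ 2 := by
  have hP' : Per D (fun z => P z ∧ ¬ (D : ℤ) ∣ z - B) := by
    refine ⟨hP.1, fun z => ?_, ⟨B - a, h1, fun hdvd => ?_⟩⟩
    · have e : z + (D : ℤ) - B = (z - B) + D := by ring
      show (P (z + D) ∧ ¬ (D : ℤ) ∣ z + D - B) ↔ (P z ∧ ¬ (D : ℤ) ∣ z - B)
      rw [hP.2.1, e, dvd_add_self_right]
    · have e : B - (a : ℤ) - B = -(a : ℤ) := by ring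
      rw [e, dvd_neg] at hdvd
      have := Int.le_of_dvd (by omega) hdvd
      omega
  have g1 := T_rem D P (fun z => P z ∧ ¬ (D : ℤ) ∣ z - B) hP B a b ha hb (by omega) (by omega)
    h1 h2 (fun z => Iff.rfl)
  have g2 := T_mono D (fun z => P z ∧ ¬ (D : ℤ) ∣ z - B) Q hP' (fun z hz => (hQ z).mpr (Or.inl hz))
  have g3 : a * b ≤ 4 * R ^ 2 := by
    have e1 : 4 * (a * b) ≤ (a + b) * (a + b) := by nlinarith [sq_nonneg ((a : ℤ) - b)]
    have e2 : (a + b) * (a + b) ≤ (4 * R) * (4 * R) := Nat.mul_le_mul hab.le hab.le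
    nlinarith
  omega
-- END exch3

end Rtw
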