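import Mathlib

/-!
# Rtw AUT: words in a finite automaton as products of few powers
-/

set_option autoImplicit false

namespace Rtw

open Finset

open scoped Classical

variable {σ β : Type}

/-- The word `u_1 ^ e_1 u_2 ^ e_2 ...` for the list of the pairs `(u_j, e_j)`. -/
def expand (B : List (List β × ℕ)) : List β := (B.map (fun b => (List.replicate b.2 b.1).flatten)).flatten

/-- The sum of the numbers `f state letter` over the steps of the word. -/
def cst (δ : σ → β → σ) (f : σ → β → ℕ) : σ → List β → ℕ
  | _, [] => 0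
  | q, a :: w => f q a + cst δ f (δ q a) w

/-- The word `b` with powers `u ^ (e j u)`, `u ∈ U`, inserted after the first `j` letters, for all `j`. -/
noncomputable def ins (U : Finset (List β)) : List β → (ℕ → List β → ℕ) → List (List β × ℕ)
  | [], e => U.toList.map (fun u => (u, e 0 u))
  | a :: b, e => U.toList.map (fun u => (u, e 0 u)) ++ ([a], 1) :: ins U b (fun j => e (j + 1))

/-- The powers are inserted at states where `u` is a cycle. -/
def Closed (δ : σ → β → σ) (q : σ) (U : Finset (List β)) (b : List β) (e : ℕ → List β → ℕ) : Prop :=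
  ∀ j ≤ b.length, ∀ u ∈ U, e j u ≠ 0 → u.foldl δ ((b.take j).foldl δ q) = (b.take j).foldl δ q

/-- The words of length at most `N`. -/
noncomputable def wds (β : Type) [Fintype β] (N : ℕ) : Finset (List β) :=
  (range (N + 1)).biUnion (fun m => (univ : Finset (Fin m → β)).image List.ofFn)

-- BEGIN expand_append
/-- `List.map_append`, `List.flatten_append`; `[a] ^ 1 = [a]`. -/
theorem expand_append (B C : List (List β × ℕ)) :
    expand (B ++ C) = expand B ++ expand C ∧ ∀ u : List β, expand [(u, 1)] = u := by
  refine ⟨?_, fun u => ?_⟩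
  · simp only [expand, List.map_append, List.flatten_append]
  · simp [expand]
-- END expand_append

-- BEGIN cst_append
/-- Induction on `x`. -/
theorem cst_append (δ : σ → β → σ) (f : σ → β → ℕ) (q : σ) (x y : List β) :
    cst δ f q (x ++ y) = cst δ f q x + cst δ f (x.foldl δ q) y := by
  induction x generalizing q with
  | nil =>
    show cst δ f q y = 0 + cst δ f q y
    rw [zero_add]
  | cons a x ih =>
    show f q a + cst δ f (δ q a) (x ++ y) =
      f q a + cst δ f (δ q a) x + cst δ f (x.foldl δ (δ q a)) y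
    rw [ih, add_assoc]
-- END cst_append

-- BEGIN cst_pow
/-- Induction on `e`. -/
theorem cst_pow (δ : σ → β → σ) (f : σ → β → ℕ) (q : σ) (u : List β) (e : ℕ) (h : e ≠ 0 → u.foldl δ q = q) :
    ((List.replicate e u).flatten).foldl δ q = q ∧
      cst δ f q (List.replicate e u).flatten = e * cst δ f q u := by
  induction e with
  | zero => simp [cst]
  | succ e ih =>
    have h1 := h (Nat.succ_ne_zero e)
    have h2 := ih fun _ => h1
    rw [List.replicate_succ, List.flatten_cons, List.foldl_append, h1, cst_append, h1, h2.2]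
    exact ⟨h2.1, by ring⟩
-- END cst_pow

-- BEGIN ins_len
/-- Induction on `b` (generalize `e`). -/
theorem ins_len (U : Finset (List β)) (b : List β) (e : ℕ → List β → ℕ) :
    (ins U b e).length = (b.length + 1) * U.card + b.length := by
  induction b generalizing e with
  | nil => simp [ins]
  | cons a b ih =>
    simp only [ins, List.length_append, List.length_map, Finset.length_toList, List.length_cons,
      ih]
    ring
-- END ins_len

-- BEGIN ins_mem
/-- Induction on `b` (generalize `e`). -/
theorem ins_mem (U : Finset (List β)) (b : List β) (e : ℕ → List β → ℕ) (x : List β × ℕ) (hx : x ∈ ins U b e) :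
    x.1 ∈ U ∨ x.1.length = 1 := by
  induction b generalizing e with
  | nil =>
    simp only [ins, List.mem_map, Finset.mem_toList] at hx
    obtain ⟨u, hu, rfl⟩ := hx
    exact Or.inl hu
  | cons a b ih =>
    simp only [ins, List.mem_append, List.mem_cons, List.mem_map, Finset.mem_toList] at hx
    rcases hx with hx | hx | hx
    · obtain ⟨u, hu, rfl⟩ := hx
      exact Or.inl hu
    · subst hx
      exact Or.inr rfl
    · exact ih _ hx
-- END ins_mem

-- BEGIN ins_zero
private theorem ins_zero_aux (l : List (List β)) : expand (l.map fun u => (u, 0)) = [] := by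
  simp [expand]

/-- `e = 0`: induction on `b` (generalize the zero function). -/
theorem ins_zero (U : Finset (List β)) (b : List β) : expand (ins U b (fun _ _ => 0)) = b := by
  induction b with
  | nil => exact ins_zero_aux _
  | cons a b ih =>
    show expand (U.toList.map (fun u => (u, 0)) ++ ([([a], 1)] ++ ins U b fun _ _ => 0)) = a :: b
    rw [(expand_append _ _).1, (expand_append _ _).1, ins_zero_aux, (expand_append [] []).2, ih]
    rfl
-- END ins_zero

-- BEGIN ins_run
private theorem ins_run_aux (δ : σ → β → σ) (f : σ → β → ℕ) (q : σ) (e : List β → ℕ)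
    (l : List (List β)) (h : ∀ u ∈ l, e u ≠ 0 → u.foldl δ q = q) :
    (expand (l.map fun u => (u, e u))).foldl δ q = q ∧
      cst δ f q (expand (l.map fun u => (u, e u))) = (l.map fun u => e u * cst δ f q u).sum := by
  induction l with
  | nil => simp [expand, cst]
  | cons u l ih =>
    have h1 := ih fun v hv => h v (List.mem_cons_of_mem u hv)
    have h2 := cst_pow δ f q u (e u) (h u List.mem_cons_self)
    have h3 : expand ((u :: l).map fun u => (u, e u)) =
        (List.replicate (e u) u).flatten ++ expand (l.map fun u => (u, e u)) := rfl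
    rw [h3, List.foldl_append, h2.1, cst_append, h2.1, h2.2, h1.2]
    exact ⟨h1.1, by simp⟩

/-- Induction on `b` (generalize `q`, `e`), `cst_append`, `cst_pow`, `expand_append`; for the list of the powers at one state
a separate induction over a list of words. -/
theorem ins_run (δ : σ → β → σ) (f : σ → β → ℕ) (q : σ) (U : Finset (List β)) (b : List β) (e : ℕ → List β → ℕ)
    (h : Closed δ q U b e) :
    (expand (ins U b e)).foldl δ q = b.foldl δ q ∧
      cst δ f q (expand (ins U b e)) = cst δ f q b +
        ∑ j ∈ range (b.length + 1), ∑ u ∈ U, e j u * cst δ f ((b.take j).foldl δ q) u := by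
  induction b generalizing q e with
  | nil =>
    have h1 := ins_run_aux δ f q (e 0) U.toList fun u hu hne =>
      h 0 le_rfl u (Finset.mem_toList.1 hu) hne
    rw [Finset.sum_map_toList] at h1
    refine ⟨h1.1, ?_⟩
    show cst δ f q (expand (U.toList.map fun u => (u, e 0 u))) = _
    rw [h1.2]
    simp [cst]
  | cons a b ih =>
    have h1 := ins_run_aux δ f q (e 0) U.toList fun u hu hne =>
      h 0 (Nat.zero_le _) u (Finset.mem_toList.1 hu) hne
    rw [Finset.sum_map_toList] at h1
    have h2 := ih (δ q a) (fun j => e (j + 1)) fun j hj u hu hne =>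
      h (j + 1) (Nat.succ_le_succ hj) u hu hne
    have h3 : expand (ins U (a :: b) e) = expand (U.toList.map fun u => (u, e 0 u)) ++
        (a :: expand (ins U b fun j => e (j + 1))) := by
      show expand (U.toList.map (fun u => (u, e 0 u)) ++
        ([([a], 1)] ++ ins U b fun j => e (j + 1))) = _
      rw [(expand_append _ _).1, (expand_append _ _).1, (expand_append [] []).2]
      rfl
    rw [h3, List.foldl_append, h1.1, cst_append, h1.1, h1.2]
    refine ⟨h2.1, ?_⟩
    rw [List.length_cons, Finset.sum_range_succ' _ (b.length + 1)]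
    show ∑ u ∈ U, e 0 u * cst δ f q u +
      (f q a + cst δ f (δ q a) (expand (ins U b fun j => e (j + 1)))) =
      f q a + cst δ f (δ q a) b + (∑ j ∈ range (b.length + 1), ∑ u ∈ U,
        e (j + 1) u * cst δ f ((b.take j).foldl δ (δ q a)) u + ∑ u ∈ U, e 0 u * cst δ f q u)
    rw [h2.2]
    ring
-- END ins_run

-- BEGIN wds_mem
/-- `u = List.ofFn u.get`; the cardinality is at most `∑_{m ≤ N} K ^ m ≤ (N + 1) (K + 1) ^ N`. -/
theorem wds_mem [Fintype β] (N : ℕ) : (∀ u : List β, u ∈ wds β N ↔ u.length ≤ N) ∧
    (wds β N).card ≤ (N + 1) * (Fintype.card β + 1) ^ N := by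
  constructor
  · intro u
    unfold wds
    rw [Finset.mem_biUnion]
    constructor
    · rintro ⟨m, hm, hu⟩
      rw [Finset.mem_image] at hu
      obtain ⟨v, _, rfl⟩ := hu
      rw [Finset.mem_range] at hm
      rw [List.length_ofFn]
      omega
    · intro hu
      refine ⟨u.length, Finset.mem_range.2 (by omega), Finset.mem_image.2 ⟨u.get,
        Finset.mem_univ _, List.ofFn_get u⟩⟩
  · unfold wds
    refine Finset.card_biUnion_le.trans ?_
    have h1 : ∀ m ∈ range (N + 1), ((univ : Finset (Fin m → β)).image List.ofFn).card ≤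
        (Fintype.card β + 1) ^ N := by
      intro m hm
      rw [Finset.mem_range] at hm
      refine Finset.card_image_le.trans ?_
      rw [Finset.card_univ, Fintype.card_fun, Fintype.card_fin]
      exact (Nat.pow_le_pow_left (Nat.le_succ _) m).trans
        (Nat.pow_le_pow_right (Nat.succ_pos _) (by omega))
    refine (Finset.sum_le_sum h1).trans ?_
    rw [Finset.sum_const, Finset.card_range, smul_eq_mul]
-- END wds_mem

-- BEGIN cycle
private theorem cycle_add (δ : σ → β → σ) (q : σ) (w : List β) (a b : ℕ) :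
    (w.take (a + b)).foldl δ q = ((w.drop a).take b).foldl δ ((w.take a).foldl δ q) := by
  rw [List.take_add, List.foldl_append]

private theorem cycle_first (s : ℕ → σ) (t : ℕ) :
    ∃ t' ≤ t, s t' = s t ∧ ∀ r < t', s r ≠ s t' := by
  have h : ∃ r, s r = s t := ⟨t, rfl⟩
  refine ⟨Nat.find h, Nat.find_min' h rfl, Nat.find_spec h, fun r hr hr' => ?_⟩
  exact Nat.find_min h hr (hr'.trans (Nat.find_spec h))

private theorem cycle_block [Fintype σ] (s : ℕ → σ) : ∃ m ≤ Fintype.card σ,
    ∀ t, m * (Fintype.card σ + 1) < t → t ≤ (m + 1) * (Fintype.card σ + 1) →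
      ∃ r < t, s r = s t := by
  by_contra hc
  push Not at hc
  -- every block contains a first time
  have h1 : ∀ m : Fin (Fintype.card σ + 1), ∃ t, (m : ℕ) * (Fintype.card σ + 1) < t ∧
      t ≤ ((m : ℕ) + 1) * (Fintype.card σ + 1) ∧ ∀ r < t, s r ≠ s t := by
    intro m
    obtain ⟨t, ht1, ht2, ht3⟩ := hc m (by have := m.is_lt; omega)
    exact ⟨t, ht1, ht2, ht3⟩
  choose T hT1 hT2 hT3 using h1
  have h2 : Function.Injective fun m : Fin (Fintype.card σ + 1) => s (T m) := by
    intro m m' hmm
    have hmm' : s (T m) = s (T m') := hmm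
    have h3 : T m = T m' := by
      rcases lt_trichotomy (T m) (T m') with h4 | h4 | h4
      · exact absurd hmm' (hT3 m' _ h4)
      · exact h4
      · exact absurd hmm'.symm (hT3 m _ h4)
    have h5 := hT1 m
    have h6 := hT2 m
    have h7 := hT1 m'
    have h8 := hT2 m'
    rw [h3] at h5 h6
    have h9 : (m : ℕ) < m' + 1 := by
      by_contra h10
      have h11 : ((m' : ℕ) + 1) * (Fintype.card σ + 1) ≤ m * (Fintype.card σ + 1) :=
        Nat.mul_le_mul_right _ (not_lt.1 h10)
      omega
    have h10 : (m' : ℕ) < m + 1 := by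
      by_contra h10
      have h11 : ((m : ℕ) + 1) * (Fintype.card σ + 1) ≤ m' * (Fintype.card σ + 1) :=
        Nat.mul_le_mul_right _ (not_lt.1 h10)
      omega
    exact Fin.ext (by omega)
  have h3 := Fintype.card_le_of_injective _ h2
  rw [Fintype.card_fin] at h3
  omega

/-- `N = #σ`, state at time `t`: `s t = (w.take t).foldl δ q`. The `N + 1` blocks of times `(m (N + 1), (m + 1) (N + 1)]`,
`m ≤ N`; at most `N` times `t` are the first time of their state, so one block contains none of them (the map from the first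
times to the blocks is not onto). In it two times `t₁ < t₂` have the same state (pigeonhole, `N + 1` times). `x = w.take t₁`, `y` =
the letters from `t₁` to `t₂`, `z = w.drop t₂`. Every state of `w` occurs at its first time, which is `≤ t₁` or `> t₂` (so a state of
`x ++ z`, at the time `t` or `t - (t₂ - t₁)`). -/
theorem cycle [Fintype σ] (δ : σ → β → σ) (q : σ) (w : List β) (hw : (Fintype.card σ + 1) ^ 2 ≤ w.length) :
    ∃ x y z : List β, w = x ++ y ++ z ∧ y ≠ [] ∧ y.length ≤ Fintype.card σ ∧
      (x ++ y).foldl δ q = x.foldl δ q ∧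
      ∀ t ≤ w.length, ∃ t' ≤ (x ++ z).length, ((x ++ z).take t').foldl δ q = (w.take t).foldl δ q := by
  obtain ⟨m, hm, hmt⟩ := cycle_block fun t => (w.take t).foldl δ q
  have hlen : (m + 1) * (Fintype.card σ + 1) ≤ w.length := by
    refine le_trans ?_ hw
    rw [sq]
    exact Nat.mul_le_mul_right _ (by omega)
  -- two times with the same state
  obtain ⟨i, j, hij, hs⟩ : ∃ i j : Fin (Fintype.card σ + 1), i ≠ j ∧
      (w.take (m * (Fintype.card σ + 1) + 1 + i)).foldl δ q =
      (w.take (m * (Fintype.card σ + 1) + 1 + j)).foldl δ q := by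
    by_contra hc
    push Not at hc
    have h1 : Function.Injective fun i : Fin (Fintype.card σ + 1) =>
        (w.take (m * (Fintype.card σ + 1) + 1 + i)).foldl δ q := by
      intro i j hij
      by_contra hne
      exact hc i j hne hij
    have h2 := Fintype.card_le_of_injective _ h1
    rw [Fintype.card_fin] at h2
    omega
  have hm1 : (m + 1) * (Fintype.card σ + 1) = m * (Fintype.card σ + 1) + (Fintype.card σ + 1) := by
    ring
  obtain ⟨t₁, t₂, h12, ht1, ht2, hd, hs⟩ : ∃ t₁ t₂ : ℕ, t₁ < t₂ ∧
      m * (Fintype.card σ + 1) < t₁ ∧ t₂ ≤ (m + 1) * (Fintype.card σ + 1) ∧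
      t₂ - t₁ ≤ Fintype.card σ ∧
      (w.take t₂).foldl δ q = (w.take t₁).foldl δ q := by
    have hi := i.is_lt
    have hj := j.is_lt
    have hne : (i : ℕ) ≠ j := fun h => hij (Fin.ext h)
    rcases lt_or_gt_of_ne hne with h1 | h1
    · exact ⟨_, _, Nat.add_lt_add_left h1 _, by omega, by omega, by omega, hs.symm⟩
    · exact ⟨_, _, Nat.add_lt_add_left h1 _, by omega, by omega, by omega, hs⟩
  have hx : (w.take t₁).length = t₁ := by rw [List.length_take]; omega
  have hy : ((w.drop t₁).take (t₂ - t₁)).length = t₂ - t₁ := by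
    rw [List.length_take, List.length_drop]; omega
  have hxy : w.take t₁ ++ (w.drop t₁).take (t₂ - t₁) = w.take t₂ := by
    have h1 := List.take_add (l := w) (i := t₁) (j := t₂ - t₁)
    rw [show t₁ + (t₂ - t₁) = t₂ by omega] at h1
    exact h1.symm
  refine ⟨w.take t₁, (w.drop t₁).take (t₂ - t₁), w.drop t₂, ?_, ?_, ?_, ?_, ?_⟩
  · rw [hxy, List.take_append_drop]
  · intro h1
    rw [h1, List.length_nil] at hy
    omega
  · rw [hy]; exact hd
  · rw [hxy]; exact hs
  · intro t ht
    obtain ⟨t', ht', he, hf⟩ := cycle_first (fun t => (w.take t).foldl δ q) t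
    have he' : (w.take t').foldl δ q = (w.take t).foldl δ q := he
    have h1 : ¬ (m * (Fintype.card σ + 1) < t' ∧ t' ≤ (m + 1) * (Fintype.card σ + 1)) := by
      rintro ⟨h2, h3⟩
      obtain ⟨r, hr, hr'⟩ := hmt t' h2 h3
      exact hf r hr hr'
    have hlen2 : (w.take t₁ ++ w.drop t₂).length = t₁ + (w.length - t₂) := by
      rw [List.length_append, hx, List.length_drop]
    rw [hlen2]
    rcases Nat.lt_or_ge (m * (Fintype.card σ + 1)) t' with h2 | h2
    · have h3 : (m + 1) * (Fintype.card σ + 1) < t' := by
        by_contra h4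
        exact h1 ⟨h2, not_lt.1 h4⟩
      refine ⟨t₁ + (t' - t₂), by omega, ?_⟩
      have h5 : (w.take t₁ ++ w.drop t₂).take (t₁ + (t' - t₂)) =
          w.take t₁ ++ (w.drop t₂).take (t' - t₂) := by
        rw [List.take_append, hx, List.take_of_length_le (by omega)]
        congr 2
        omega
      rw [h5, List.foldl_append, ← hs, ← cycle_add, show t₂ + (t' - t₂) = t' by omega]
      exact he'
    · refine ⟨t', by omega, ?_⟩
      have h5 : (w.take t₁ ++ w.drop t₂).take t' = w.take t' := by
        rw [List.take_append_of_le_length (by omega), List.take_take, min_eq_left (by omega)]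
      rw [h5]
      exact he'
-- END cycle

-- BEGIN base
private theorem base_zero [Fintype σ] [Fintype β] (δ : σ → β → σ) (q : σ) (w : List β)
    (hw : w.length ≤ (Fintype.card σ + 1) ^ 2) :
    ∃ (b : List β) (e : ℕ → List β → ℕ), b.length ≤ (Fintype.card σ + 1) ^ 2 ∧
      Closed δ q (wds β (Fintype.card σ)) b e ∧ b.foldl δ q = w.foldl δ q ∧
      (∀ f : σ → β → ℕ, cst δ f q w = cst δ f q b +
        ∑ j ∈ range (b.length + 1), ∑ u ∈ wds β (Fintype.card σ), e j u * cst δ f ((b.take j).foldl δ q) u) ∧
      ∀ t ≤ w.length, ∃ t' ≤ b.length, (b.take t').foldl δ q = (w.take t).foldl δ q := by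
  refine ⟨w, fun _ _ => 0, hw, fun j _ u _ hne => absurd rfl hne, rfl, fun f => by simp,
    fun t ht => ⟨t, ht, rfl⟩⟩

private theorem base_sum (n : ℕ) (U : Finset (List β)) (e : ℕ → List β → ℕ) (C : ℕ → List β → ℕ)
    {j₀ : ℕ} (hj : j₀ < n) {y : List β} (hy : y ∈ U) :
    ∑ j ∈ range n, ∑ u ∈ U, (e j u + if j = j₀ ∧ u = y then 1 else 0) * C j u =
      (∑ j ∈ range n, ∑ u ∈ U, e j u * C j u) + C j₀ y := by
  have h1 : ∀ j ∈ range n, ∑ u ∈ U, (e j u + if j = j₀ ∧ u = y then 1 else 0) * C j u =
      ∑ u ∈ U, e j u * C j u + if j = j₀ then C j₀ y else 0 := by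
    intro j _
    simp only [add_mul, Finset.sum_add_distrib]
    congr 1
    by_cases hjj : j = j₀
    · subst hjj
      rw [if_pos rfl, Finset.sum_eq_single y]
      · simp
      · intro u _ hu
        simp [hu]
      · intro h2
        exact absurd hy h2
    · rw [if_neg hjj]
      refine Finset.sum_eq_zero fun u _ => ?_
      simp [hjj]
  rw [Finset.sum_congr rfl h1, Finset.sum_add_distrib, Finset.sum_ite_eq' (range n) j₀,
    if_pos (Finset.mem_range.2 hj)]

/-- Strong induction on the length of `w`. Short `w`: `b = w`, `e = 0`. Otherwise `cycle`; the induction hypothesis for `x ++ z`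
gives `b, e`; the state of `x` is visited by `b` at some time `j₀`; increase `e j₀ y` by 1 (`Function.update`, or
`fun j u => e j u + if j = j₀ ∧ u = y then 1 else 0`). `cst` of `w` is the one of `x ++ z` plus the one of `y` (`cst_append`). -/
theorem base [Fintype σ] [Fintype β] (δ : σ → β → σ) (q : σ) (w : List β) :
    ∃ (b : List β) (e : ℕ → List β → ℕ), b.length ≤ (Fintype.card σ + 1) ^ 2 ∧
      Closed δ q (wds β (Fintype.card σ)) b e ∧ b.foldl δ q = w.foldl δ q ∧
      (∀ f : σ → β → ℕ, cst δ f q w = cst δ f q b +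
        ∑ j ∈ range (b.length + 1), ∑ u ∈ wds β (Fintype.card σ), e j u * cst δ f ((b.take j).foldl δ q) u) ∧
      ∀ t ≤ w.length, ∃ t' ≤ b.length, (b.take t').foldl δ q = (w.take t).foldl δ q := by
  induction hn : w.length using Nat.strong_induction_on generalizing w with
  | _ n ih =>
    rcases Nat.le_total w.length ((Fintype.card σ + 1) ^ 2) with hw | hw
    · have h0 := base_zero δ q w hw
      rw [hn] at h0
      exact h0
    · obtain ⟨x, y, z, hxyz, hy0, hyl, hfold, hst⟩ := cycle δ q w hw
      have hl : (x ++ z).length < n := by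
        have h1 : 0 < y.length := List.length_pos_of_ne_nil hy0
        rw [← hn, hxyz]
        simp only [List.length_append]
        omega
      obtain ⟨b, e, hb, hcl, hbf, hcs, hbt⟩ := ih _ hl (x ++ z) rfl
      obtain ⟨j₀, hj₀, hj₁⟩ := hbt x.length (by rw [List.length_append]; omega)
      rw [List.take_left] at hj₁
      rw [List.foldl_append] at hfold
      have hyw : y ∈ wds β (Fintype.card σ) := ((wds_mem (Fintype.card σ)).1 y).2 hyl
      refine ⟨b, fun j u => e j u + if j = j₀ ∧ u = y then 1 else 0, hb, ?_, ?_, ?_, ?_⟩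
      · intro j hj u hu hne
        by_cases h1 : j = j₀ ∧ u = y
        · obtain ⟨rfl, rfl⟩ := h1
          rw [hj₁]
          exact hfold
        · have hne' : e j u + (if j = j₀ ∧ u = y then 1 else 0) ≠ 0 := hne
          rw [if_neg h1, add_zero] at hne'
          exact hcl j hj u hu hne'
      · rw [hbf, hxyz, List.foldl_append, List.foldl_append, List.foldl_append, hfold]
      · intro f
        have h1 := base_sum (b.length + 1) (wds β (Fintype.card σ)) e
          (fun j u => cst δ f ((b.take j).foldl δ q) u) (Nat.lt_succ_of_le hj₀) hyw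
        have h1' : ∑ j ∈ range (b.length + 1), ∑ u ∈ wds β (Fintype.card σ),
            (e j u + if j = j₀ ∧ u = y then 1 else 0) * cst δ f ((b.take j).foldl δ q) u =
            (∑ j ∈ range (b.length + 1), ∑ u ∈ wds β (Fintype.card σ),
              e j u * cst δ f ((b.take j).foldl δ q) u) + cst δ f ((b.take j₀).foldl δ q) y := h1
        show cst δ f q w = cst δ f q b + ∑ j ∈ range (b.length + 1),
          ∑ u ∈ wds β (Fintype.card σ),
            (e j u + if j = j₀ ∧ u = y then 1 else 0) * cst δ f ((b.take j).foldl δ q) u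
        rw [h1', ← add_assoc, ← hcs f, hj₁, hxyz, cst_append, cst_append, cst_append,
          List.foldl_append, hfold]
        ring
      · intro t ht
        obtain ⟨t', ht', h2⟩ := hst t (by omega)
        obtain ⟨t'', ht'', h3⟩ := hbt t' ht'
        exact ⟨t'', ht'', h3.trans h2⟩
-- END base

-- BEGIN rearr
/-- `base`, `B = ins (wds β #σ) b e`, `ins_run`, `ins_len`, `ins_mem`, `wds_mem`; for example
`c = ((N + 1) ^ 2 + 1) * ((N + 1) * (K + 1) ^ N) + (N + 1) ^ 2 + N + 1`. -/
theorem rearr (N K : ℕ) : ∃ c : ℕ, ∀ (σ β : Type) (_ : Fintype σ) (_ : Fintype β) (δ : σ → β → σ),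
    Fintype.card σ ≤ N → Fintype.card β ≤ K → ∀ (q : σ) (w : List β), ∃ B : List (List β × ℕ),
      B.length ≤ c ∧ (∀ b ∈ B, b.1.length ≤ c) ∧ (expand B).foldl δ q = w.foldl δ q ∧
      ∀ f : σ → β → ℕ, cst δ f q (expand B) = cst δ f q w := by
  refine ⟨((N + 1) ^ 2 + 1) * ((N + 1) * (K + 1) ^ N) + (N + 1) ^ 2 + N + 1, ?_⟩
  intro σ β _ _ δ hσ hβ q w
  obtain ⟨b, e, hb, hcl, hbf, hcs, -⟩ := base δ q w
  refine ⟨ins (wds β (Fintype.card σ)) b e, ?_, ?_, ?_, ?_⟩
  · rw [ins_len]
    have h1 : b.length ≤ (N + 1) ^ 2 := hb.trans (Nat.pow_le_pow_left (by omega) 2)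
    have h2 : (wds β (Fintype.card σ)).card ≤ (N + 1) * (K + 1) ^ N := by
      refine ((wds_mem (Fintype.card σ)).2).trans (Nat.mul_le_mul (by omega) ?_)
      exact (Nat.pow_le_pow_left (by omega) _).trans (Nat.pow_le_pow_right (by omega) hσ)
    have h3 := Nat.mul_le_mul (Nat.succ_le_succ h1) h2
    have h3' : (b.length + 1) * (wds β (Fintype.card σ)).card ≤
      ((N + 1) ^ 2 + 1) * ((N + 1) * (K + 1) ^ N) := h3
    omega
  · intro x hx
    rcases ins_mem _ _ _ _ hx with h1 | h1
    · rw [(wds_mem (Fintype.card σ)).1] at h1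
      omega
    · omega
  · rw [(ins_run δ (fun _ _ => 0) q _ b e hcl).1, hbf]
  · intro f
    rw [(ins_run δ f q _ b e hcl).2, hcs f]
-- END rearr

end Rtw
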