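import Pool.Agent.Rtw.Seg
import Pool.Agent.Rtv.Def

/-!
# Rtw CRT: certificates for words `u_1 ^ e_1 ... u_m ^ e_m`
-/

set_option autoImplicit false

namespace Rtw

open Finset

open scoped Classical

open Pool.Agent.Rtv (Feasible rtv gap dN sum_dN prod_dN)

variable {α : Type} [DecidableEq α]

/-! ## sequences and words -/

-- BEGIN gap_dist
/-- `w` is the sequence read from the end. The two sets are equal: `(D - 1 - x - k) mod D = D - 1 - ((x + k) mod D)`. -/
theorem gap_dist {n D : ℕ} (w : List (Fin n)) (s : Fin D → Fin n) (hD : w.length = D)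
    (hs : ∀ x : Fin D, w[D - 1 - (x : ℕ)]? = some (s x)) (x : Fin D) :
    gap s x = dist w ((D - 1 - (x : ℕ) : ℕ) : ℤ) := by
  have hx : (x : ℕ) < D := x.2
  have hD0 : 0 < D := by omega
  have key : ∀ k : ℕ, ((((D - 1 - (x : ℕ) : ℕ) : ℤ) - (k : ℤ)) % (w.length : ℤ)).toNat =
      D - 1 - (((x : ℕ) + k) % D) := by
    intro k
    have h1 : (x : ℕ) + k = D * (((x : ℕ) + k) / D) + ((x : ℕ) + k) % D := (Nat.div_add_mod _ _).symm
    have h2 : ((x : ℕ) + k) % D < D := Nat.mod_lt _ hD0
    set m := ((x : ℕ) + k) / D with hm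
    set r := ((x : ℕ) + k) % D with hr
    have h1z : ((x : ℕ) : ℤ) + (k : ℤ) = (D : ℤ) * (m : ℤ) + (r : ℤ) := by exact_mod_cast h1
    have h3 : ((D - 1 - (x : ℕ) : ℕ) : ℤ) = (D : ℤ) - 1 - ((x : ℕ) : ℤ) := by omega
    have h4 : ((D - 1 - r : ℕ) : ℤ) = (D : ℤ) - 1 - (r : ℤ) := by omega
    have h5 : ((D - 1 - (x : ℕ) : ℕ) : ℤ) - (k : ℤ) = ((D - 1 - r : ℕ) : ℤ) + (D : ℤ) * (-(m : ℤ)) := by
      rw [h3, h4]; linarith
    rw [hD, h5, Int.add_mul_emod_self_left, Int.emod_eq_of_lt (by omega) (by omega)]
    exact Int.toNat_natCast _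
  have h0 : ltr w ((D - 1 - (x : ℕ) : ℕ) : ℤ) = some (s x) := by
    have h := key 0
    simp only [Nat.cast_zero, sub_zero, Nat.add_zero, Nat.mod_eq_of_lt hx] at h
    unfold ltr
    rw [h]
    exact hs x
  unfold gap dist
  congr 1
  ext k
  simp only [Set.mem_setOf_eq]
  refine and_congr_right fun _ => ?_
  rw [h0]
  have h1 : ltr w (((D - 1 - (x : ℕ) : ℕ) : ℤ) - (k : ℤ)) =
      some (s ⟨((x : ℕ) + k) % D, Nat.mod_lt _ hD0⟩) := by
    unfold ltr
    rw [key k]
    exact hs ⟨((x : ℕ) + k) % D, Nat.mod_lt _ hD0⟩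
  rw [h1]
  constructor
  · rintro ⟨y, hy, hsy⟩
    have : y = ⟨((x : ℕ) + k) % D, Nat.mod_lt _ hD0⟩ := Fin.ext hy
    rw [← this, hsy]
  · intro h
    exact ⟨⟨((x : ℕ) + k) % D, Nat.mod_lt _ hD0⟩, rfl, Option.some.inj h⟩
-- END gap_dist

-- BEGIN rtv_list
private theorem rtv_list_count {n D : ℕ} (w : List (Fin n)) (s : Fin D → Fin n) (hD : w.length = D)
    (hs : ∀ x : Fin D, w[D - 1 - (x : ℕ)]? = some (s x)) (i : Fin n) :
    (Finset.univ.filter fun x => s x = i).card = w.count i := by
  rw [← card_pos w i]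
  refine Finset.card_bij (fun x _ => ((D - 1 - (x : ℕ) : ℕ) : ℤ)) ?_ ?_ ?_
  · intro x hx
    have hx2 := (Finset.mem_filter.1 hx).2
    have hxD := x.2
    rw [Finset.mem_filter, Finset.mem_Ico]
    refine ⟨⟨by omega, by omega⟩, ?_⟩
    unfold pos
    rw [ltr_nat w (D - 1 - (x : ℕ)) (by omega)]
    have h := hs x
    rw [List.getElem?_eq_getElem (by omega)] at h
    rw [h, hx2]
  · intro x _ y _ hxy
    have hxD := x.2
    have hyD := y.2
    apply Fin.ext
    omega
  · intro z hz
    rw [Finset.mem_filter, Finset.mem_Ico] at hz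
    obtain ⟨⟨h0, h1⟩, h2⟩ := hz
    obtain ⟨k, rfl⟩ : ∃ k : ℕ, z = (k : ℤ) := ⟨z.toNat, by omega⟩
    have hk : k < w.length := by omega
    have hkD : k < D := by omega
    refine ⟨⟨D - 1 - k, by omega⟩, ?_, ?_⟩
    · rw [Finset.mem_filter]
      refine ⟨Finset.mem_univ _, ?_⟩
      have h := hs ⟨D - 1 - k, by omega⟩
      have e : D - 1 - (((⟨D - 1 - k, by omega⟩ : Fin D)) : ℕ) = k := by
        show D - 1 - (D - 1 - k) = k
        omega
      rw [e, List.getElem?_eq_getElem hk] at h
      unfold pos at h2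
      rw [ltr_nat w k hk] at h2
      rw [← Option.some.inj h, Option.some.inj h2]
    · show (((D - 1 - (D - 1 - k) : ℕ)) : ℤ) = (k : ℤ)
      omega

private theorem rtv_list_length {n : ℕ} (d : Fin n → ℕ) (w : List (Fin n)) (hw : ∀ i, w.count i = d i) :
    w.length = ∑ i, d i := by
  rw [← List.sum_toFinset_count_eq_length, ← Finset.sum_congr rfl (fun i _ => hw i)]
  apply Finset.sum_subset (Finset.subset_univ _)
  intro i _ hi
  rw [List.mem_toFinset] at hi
  exact List.count_eq_zero.2 hi

/-- `w.length = ∑ d i` (`List.length = ∑ count`). Feasible: `w.count i` is the number of `t` with `w[t] = i` (`card_pos` or directly).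
`rtv d s = RTV w`: reindex with `x ↦ D - 1 - x` (`Fin.rev`), `gap_dist`. -/
theorem rtv_list {n : ℕ} (d : Fin n → ℕ) (w : List (Fin n)) (hw : ∀ i, w.count i = d i)
    (s : Fin (∑ i, d i) → Fin n) (hs : ∀ x : Fin (∑ i, d i), w[(∑ i, d i) - 1 - (x : ℕ)]? = some (s x)) :
    Feasible d s ∧ rtv d s = RTV w := by
  have hD := rtv_list_length d w hw
  refine ⟨fun i => ?_, ?_⟩
  · rw [rtv_list_count w s hD hs i, hw i]
  · unfold rtv RTV
    refine Fintype.sum_equiv ((Fin.revPerm).trans (finCongr hD.symm)) _ _ (fun x => ?_)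
    have hxD := x.2
    have hval : (((Fin.revPerm).trans (finCongr hD.symm)) x : ℕ) = (∑ i, d i) - 1 - (x : ℕ) := by
      simp only [Equiv.trans_apply, Fin.revPerm_apply, finCongr_apply, Fin.val_cast, Fin.val_rev]
      omega
    have hget : w[((Fin.revPerm).trans (finCongr hD.symm)) x] = s x := by
      have h := hs x
      rw [List.getElem?_eq_getElem (by omega)] at h
      rw [← Option.some.inj h]
      show w[(((Fin.revPerm).trans (finCongr hD.symm)) x : ℕ)] = _
      congr 1
    rw [gap_dist w s hD hs x, hget, hval, hw, hD]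
-- END rtv_list

-- BEGIN to_list
private theorem to_list_count {n D : ℕ} (w : List (Fin n)) (s : Fin D → Fin n) (hD : w.length = D)
    (hs : ∀ x : Fin D, w[D - 1 - (x : ℕ)]? = some (s x)) (i : Fin n) :
    (Finset.univ.filter fun x => s x = i).card = w.count i := by
  rw [← card_pos w i]
  refine Finset.card_bij (fun x _ => ((D - 1 - (x : ℕ) : ℕ) : ℤ)) ?_ ?_ ?_
  · intro x hx
    have hx2 := (Finset.mem_filter.1 hx).2
    have hxD := x.2
    rw [Finset.mem_filter, Finset.mem_Ico]
    refine ⟨⟨by omega, by omega⟩, ?_⟩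
    unfold pos
    rw [ltr_nat w (D - 1 - (x : ℕ)) (by omega)]
    have h := hs x
    rw [List.getElem?_eq_getElem (by omega)] at h
    rw [h, hx2]
  · intro x _ y _ hxy
    have hxD := x.2
    have hyD := y.2
    apply Fin.ext
    omega
  · intro z hz
    rw [Finset.mem_filter, Finset.mem_Ico] at hz
    obtain ⟨⟨h0, h1⟩, h2⟩ := hz
    obtain ⟨k, rfl⟩ : ∃ k : ℕ, z = (k : ℤ) := ⟨z.toNat, by omega⟩
    have hk : k < w.length := by omega
    have hkD : k < D := by omega
    refine ⟨⟨D - 1 - k, by omega⟩, ?_, ?_⟩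
    · rw [Finset.mem_filter]
      refine ⟨Finset.mem_univ _, ?_⟩
      have h := hs ⟨D - 1 - k, by omega⟩
      have e : D - 1 - (((⟨D - 1 - k, by omega⟩ : Fin D)) : ℕ) = k := by
        show D - 1 - (D - 1 - k) = k
        omega
      rw [e, List.getElem?_eq_getElem hk] at h
      unfold pos at h2
      rw [ltr_nat w k hk] at h2
      rw [← Option.some.inj h, Option.some.inj h2]
    · show (((D - 1 - (D - 1 - k) : ℕ)) : ℤ) = (k : ℤ)
      omega

/-- `w = (List.ofFn s).reverse`; `rtv_list`. -/
theorem to_list {n : ℕ} (d : Fin n → ℕ) (s : Fin (∑ i, d i) → Fin n) (hs : Feasible d s) :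
    ∃ w : List (Fin n), (∀ i, w.count i = d i) ∧ RTV w = rtv d s := by
  have hD : ((List.ofFn s).reverse).length = ∑ i, d i := by
    rw [List.length_reverse, List.length_ofFn]
  have hg : ∀ x : Fin (∑ i, d i), ((List.ofFn s).reverse)[(∑ i, d i) - 1 - (x : ℕ)]? = some (s x) := by
    intro x
    have hxD := x.2
    rw [List.getElem?_eq_getElem (by omega), List.getElem_reverse, List.getElem_ofFn]
    congr 2
    apply Fin.ext
    simp only [List.length_ofFn]
    omega
  have hc : ∀ i, ((List.ofFn s).reverse).count i = d i := by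
    intro i
    rw [← to_list_count _ s hD hg i]
    exact hs i
  exact ⟨_, hc, (rtv_list d _ hc s hg).2.symm⟩
-- END to_list

-- BEGIN of_list
private theorem of_list_length {n : ℕ} (d : Fin n → ℕ) (w : List (Fin n)) (hw : ∀ i, w.count i = d i) :
    w.length = ∑ i, d i := by
  rw [← List.sum_toFinset_count_eq_length, ← Finset.sum_congr rfl (fun i _ => hw i)]
  apply Finset.sum_subset (Finset.subset_univ _)
  intro i _ hi
  rw [List.mem_toFinset] at hi
  exact List.count_eq_zero.2 hi

/-- `s x = w[D - 1 - x]`; `rtv_list`. -/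
theorem of_list {n : ℕ} (d : Fin n → ℕ) (w : List (Fin n)) (hw : ∀ i, w.count i = d i) :
    ∃ s : Fin (∑ i, d i) → Fin n, Feasible d s ∧ rtv d s = RTV w := by
  have hD := of_list_length d w hw
  have hlt : ∀ x : Fin (∑ i, d i), (∑ i, d i) - 1 - (x : ℕ) < w.length := by
    intro x
    have := x.2
    omega
  exact ⟨fun x => w[(∑ i, d i) - 1 - (x : ℕ)]'(hlt x),
    rtv_list d w hw _ (fun x => List.getElem?_eq_getElem (hlt x))⟩
-- END of_list

/-! ## ages along words -/

-- BEGIN run_mono
/-- Induction on `w` (generalize `a`, `b`). -/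
theorem run_mono (a b : α → ℕ) (w : List α) (h : ∀ i, a i ≤ b i) :
    (∀ i, (w.foldl stp a) i ≤ (w.foldl stp b) i) ∧ sqc a w ≤ sqc b w := by
  induction w generalizing a b with
  | nil => exact ⟨h, le_rfl⟩
  | cons i w ih =>
      have hs : ∀ j, stp a i j ≤ stp b i j := by
        intro j
        have := h j
        unfold stp
        split_ifs
        · exact le_rfl
        · omega
      obtain ⟨h1, h2⟩ := ih (stp a i) (stp b i) hs
      refine ⟨h1, ?_⟩
      change a i ^ 2 + sqc (stp a i) w ≤ b i ^ 2 + sqc (stp b i) w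
      exact Nat.add_le_add (Nat.pow_le_pow_left (h i) 2) h2
-- END run_mono

-- BEGIN run_le
/-- Induction on `w` (generalize `a`), or `indep`. -/
theorem run_le (a : α → ℕ) (w : List α) (i : α) : (w.foldl stp a) i ≤ a i + w.length := by
  induction w generalizing a with
  | nil => exact le_rfl
  | cons j w ih =>
    rw [List.foldl_cons, List.length_cons]
    refine le_trans (ih (stp a j)) ?_
    have h : stp a j i ≤ a i + 1 := by
      unfold stp
      split_ifs <;> omega
    omega
-- END run_le

-- BEGIN run_occ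
/-- `w = w.take (l + 1) ++ w.drop (l + 1)`; the age after `w[l]` is `1`; `run_le`. -/
theorem run_occ (a : α → ℕ) (w : List α) (l : ℕ) (hl : l < w.length) :
    (w.foldl stp a) w[l] ≤ w.length - l := by
  induction w generalizing a l with
  | nil => exact absurd hl (Nat.not_lt_zero l)
  | cons j w ih =>
    rw [List.foldl_cons, List.length_cons]
    cases l with
    | zero =>
      rw [List.getElem_cons_zero]
      have h1 := run_le (stp a j) w j
      have h2 : stp a j j = 1 := if_pos rfl
      omega
    | succ l =>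
      rw [List.getElem_cons_succ]
      have h1 := ih (stp a j) l (by simpa using hl)
      omega
-- END run_occ

-- BEGIN run_last
/-- The last occurrence of `i` (induction on `w` from the right, `List.reverseRecOn`, `List.foldl_append`). -/
theorem run_last (a : α → ℕ) (w : List α) (i : α) (hi : i ∈ w) :
    ∃ (l : ℕ) (hl : l < w.length), w[l] = i ∧ w.length ≤ (w.foldl stp a) i + l := by
  induction w using List.reverseRecOn with
  | nil => exact absurd hi List.not_mem_nil
  | append_singleton w x ih =>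
    rw [List.foldl_append, List.foldl_cons, List.foldl_nil]
    by_cases hx : x = i
    · refine ⟨w.length, by simp, by simp [hx], ?_⟩
      rw [List.length_append, List.length_singleton]
      simp only [stp]
      rw [if_pos hx.symm]
      omega
    · have hi' : i ∈ w := by
        rcases List.mem_append.1 hi with h | h
        · exact h
        · exact absurd (List.mem_singleton.1 h).symm hx
      obtain ⟨l, hl, h1, h2⟩ := ih hi'
      refine ⟨l, by rw [List.length_append]; omega, by
        rw [List.getElem_append_left hl]; exact h1, ?_⟩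
      rw [List.length_append, List.length_singleton]
      simp only [stp]
      rw [if_neg (fun h => hx h.symm)]
      omega
-- END run_last

-- BEGIN pow_run
private theorem pow_run_congr (w : List α) (a b : α → ℕ) (h : ∀ i ∈ w, a i = b i) :
    sqc a w = sqc b w := by
  induction w generalizing a b with
  | nil => rfl
  | cons x w ih =>
    simp only [sqc]
    rw [h x List.mem_cons_self, ih (stp a x) (stp b x) fun i hi => ?_]
    simp only [stp]
    rw [h i (List.mem_cons_of_mem x hi)]

private theorem pow_run_aux (a : α → ℕ) (u : List α) (e : ℕ) (c : α → ℕ)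
    (hc : ∀ i ∈ u, c i = (u.foldl stp a) i) :
    (∀ i, ((List.replicate e u).flatten.foldl stp c) i =
      if i ∈ u then (u.foldl stp a) i else c i + e * u.length) ∧
      sqc c (List.replicate e u).flatten = e * sqc (u.foldl stp a) u := by
  induction e generalizing c with
  | zero =>
    refine ⟨fun i => ?_, ?_⟩
    · by_cases hi : i ∈ u
      · rw [if_pos hi, ← hc i hi]
        rfl
      · rw [if_neg hi]
        simp
    · simp [sqc]
  | succ e ih =>
    rw [List.replicate_succ, List.flatten_cons]
    obtain ⟨h1, h2⟩ := ih (u.foldl stp c) fun i hi => ((indep u i).1 hi c a).1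
    refine ⟨fun i => ?_, ?_⟩
    · rw [List.foldl_append, h1 i]
      by_cases hi : i ∈ u
      · rw [if_pos hi, if_pos hi]
      · rw [if_neg hi, if_neg hi, (indep u i).2 hi c]
        ring
    · rw [sqc_append, h2, pow_run_congr u c (u.foldl stp a) hc]
      ring

/-- After the first `u` the ages of the letters of `u` are fixed by `u` (`indep`), and `sqc` depends on these only. Induction on `e`. -/
theorem pow_run (a : α → ℕ) (u : List α) (e : ℕ) (he : 1 ≤ e) :
    (∀ i, ((List.replicate e u).flatten.foldl stp a) i = if i ∈ u then (u.foldl stp a) i else a i + e * u.length) ∧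
      sqc a (List.replicate e u).flatten = sqc a u + (e - 1) * sqc (u.foldl stp a) u := by
  obtain ⟨e, rfl⟩ : ∃ e', e = e' + 1 := ⟨e - 1, by omega⟩
  rw [List.replicate_succ, List.flatten_cons, Nat.add_sub_cancel]
  obtain ⟨h1, h2⟩ := pow_run_aux a u e (u.foldl stp a) fun i _ => rfl
  refine ⟨fun i => ?_, ?_⟩
  · rw [List.foldl_append, h1 i]
    by_cases hi : i ∈ u
    · rw [if_pos hi, if_pos hi]
    · rw [if_neg hi, if_neg hi, (indep u i).2 hi a]
      ring
  · rw [sqc_append, h2]
-- END pow_run

/-! ## the certificate -/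

/-- The contribution of the block `k` to the sum of the squares of the distances. -/
def cstB (c : ℕ) (L E : ℕ → ℕ) (G H : ℕ → ℕ → ℕ) (k : ℕ) : ℕ :=
  if E k = 0 then 0
  else ∑ l ∈ Finset.range c, if l < L k then G k l * G k l + (E k - 1) * (H k l * H k l) else 0

/-- The block `k < R` is the power `u ^ (E k)` of the word `u = U k 0, U k 1, ..., U k (L k - 1)`, `L k ≤ c`; `S k i` is a bound for the
age of the model `i` before the block `k`, `G k l` one for the distance at the letter `l` of the first `u`, and `H k l` one for the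
distance at the letter `l` of the other `u`. -/
structure ChkB (n R c : ℕ) (d L E : ℕ → ℕ) (U S G H : ℕ → ℕ → ℕ) (a b : ℕ) : Prop where
  rng : ∀ k < R, L k ≤ c ∧ ∀ l < c, l < L k → U k l < n
  cnt : ∀ i < n, ∑ k ∈ Finset.range R, ∑ l ∈ Finset.range c, (if l < L k ∧ U k l = i then E k else 0) = d i
  stp : ∀ k < R, ∀ i < n, S k i + E k * L k ≤ S (k + 1) i ∨
    (1 ≤ E k ∧ ∃ l < c, l < L k ∧ U k l = i ∧ L k ≤ S (k + 1) i + l)
  cyc : ∀ i < n, S R i ≤ S 0 i
  fst : ∀ k < R, ∀ l < c, l < L k → 1 ≤ E k → (∃ i < n, U k l = i ∧ S k i + l ≤ G k l) ∨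
    ∃ m < l, U k m = U k l ∧ l ≤ G k l + m
  snd : ∀ k < R, ∀ l < c, l < L k → 2 ≤ E k → (∃ m < l, U k m = U k l ∧ l ≤ H k l + m) ∨
    ∃ m < c, m < L k ∧ U k m = U k l ∧ L k + l ≤ H k l + m
  cst : b * (∏ i ∈ Finset.range n, d i) * ∑ k ∈ Finset.range R, cstB c L E G H k ≤
    a * (∏ i ∈ Finset.range n, d i) + b * ((∑ i ∈ Finset.range n, d i) *
      (∑ i ∈ Finset.range n, d i)) *
      ∑ i ∈ Finset.range n, (∏ i ∈ Finset.range n, d i) / d i

/-- The word of the block `k`. -/
def wrd {n : ℕ} (hn : 0 < n) (L : ℕ → ℕ) (U : ℕ → ℕ → ℕ) (k : ℕ) : List (Fin n) :=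
  (List.range (L k)).map (fun l => ⟨U k l % n, Nat.mod_lt _ hn⟩)

/-- The first `r` blocks. -/
def blks {n : ℕ} (hn : 0 < n) (L E : ℕ → ℕ) (U : ℕ → ℕ → ℕ) (r : ℕ) : List (List (Fin n) × ℕ) :=
  (List.range r).map (fun k => (wrd hn L U k, E k))

-- BEGIN cst_iff
/-- `RTV_eq`: `RTV w = X - ∑ D ^ 2 / d i`, `D = ∑ d i = w.length`, all `d i > 0`; multiply with `b ∏ d i` (in `ℚ`, the divisions
`(∏ d i) / d i` are exact: `Nat.cast_div`). -/
theorem cst_iff {n : ℕ} (d : Fin n → ℕ) (hd : ∀ i, 0 < d i) (w : List (Fin n)) (hw : ∀ i, w.count i = d i)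
    (a b : ℕ) (hb : 0 < b) : RTV w ≤ (a : ℚ) / b ↔
      b * (∏ i ∈ Finset.range n, dN d i) * ∑ t : Fin w.length, dist w (t : ℕ) ^ 2 ≤
      a * (∏ i ∈ Finset.range n, dN d i) + b * ((∑ i ∈ Finset.range n, dN d i) *
        (∑ i ∈ Finset.range n, dN d i)) *
        ∑ i ∈ Finset.range n, (∏ i ∈ Finset.range n, dN d i) / dN d i := by
  have hfin : w.toFinset = Finset.univ := by
    ext i
    rw [List.mem_toFinset, ← List.count_pos_iff, hw i]
    exact ⟨fun _ => Finset.mem_univ _, fun _ => hd i⟩
  have hlen : w.length = ∑ i, d i := by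
    rw [← List.sum_toFinset_count_eq_length, hfin]
    exact Finset.sum_congr rfl fun i _ => hw i
  rw [RTV_eq, hfin, sum_dN, prod_dN, ← hlen, Finset.sum_range]
  have e1 : ∀ i : Fin n, dN d (i : ℕ) = d i := fun i => by rw [dN, dif_pos i.2]
  simp only [e1, hw]
  set X : ℕ := ∑ t : Fin w.length, dist w (t : ℕ) ^ 2 with hX
  set P : ℕ := ∏ i, d i with hP
  have hP0 : 0 < P := Finset.prod_pos fun i _ => hd i
  have hP1 : (0 : ℚ) < P := by exact_mod_cast hP0
  have hb1 : (0 : ℚ) < b := by exact_mod_cast hb
  have e2 : ((∑ i, P / d i : ℕ) : ℚ) = P * ∑ i, 1 / (d i : ℚ) := by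
    rw [Nat.cast_sum, Finset.mul_sum]
    refine Finset.sum_congr rfl fun i _ => ?_
    rw [Nat.cast_div (Finset.dvd_prod_of_mem d (Finset.mem_univ i))
      (by exact_mod_cast (hd i).ne')]
    ring
  have e3 : ∑ i, (w.length : ℚ) ^ 2 / (d i : ℚ) = (w.length : ℚ) ^ 2 * ∑ i, 1 / (d i : ℚ) := by
    rw [Finset.mul_sum]
    exact Finset.sum_congr rfl fun i _ => by ring
  rw [e3, ← Nat.cast_le (α := ℚ)]
  push_cast [-Nat.cast_sum]
  rw [e2]
  have e4 : (X : ℚ) - (w.length : ℚ) ^ 2 * ∑ i, 1 / (d i : ℚ) ≤ (a : ℚ) / b ↔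
      (b * P) * ((X : ℚ) - (w.length : ℚ) ^ 2 * ∑ i, 1 / (d i : ℚ)) ≤ (b * P) * ((a : ℚ) / b) :=
    (mul_le_mul_iff_right₀ (mul_pos hb1 hP1)).symm
  rw [e4]
  have e5 : ((b : ℚ) * P) * ((a : ℚ) / b) = a * P := by
    field_simp
  rw [e5]
  constructor
  · intro h
    nlinarith
  · intro h
    nlinarith
-- END cst_iff

-- BEGIN snd_state
/-- `E k = 0`: clear. `stp` first case: `run_le`; second case: `pow_run`, `run_occ` for the letter `l` of `u` (`U k l % n = U k l`). -/
theorem snd_state {n R c : ℕ} (hn : 0 < n) {d L E : ℕ → ℕ} {U S G H : ℕ → ℕ → ℕ} {a b : ℕ}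
    (h : ChkB n R c d L E U S G H a b) (k : ℕ) (hk : k < R) (s : Fin n → ℕ) (hs : ∀ i, s i ≤ S k i) (i : Fin n) :
    ((List.replicate (E k) (wrd hn L U k)).flatten.foldl Rtw.stp s) i ≤ S (k + 1) i := by
  have hlen : (wrd hn L U k).length = L k := by simp [wrd]
  rcases h.stp k hk i i.2 with h1 | ⟨h1, l, _, h3, h4, h5⟩
  · have h2 := run_le s (List.replicate (E k) (wrd hn L U k)).flatten i
    have h3 : (List.replicate (E k) (wrd hn L U k)).flatten.length = E k * L k := by
      simp [List.length_flatten, hlen]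
    rw [h3] at h2
    have := hs i
    omega
  · have hl : l < (wrd hn L U k).length := by rw [hlen]; exact h3
    have hget : (wrd hn L U k)[l] = i := by
      apply Fin.ext
      simp only [wrd, List.getElem_map, List.getElem_range]
      rw [h4]
      exact Nat.mod_eq_of_lt i.2
    have hmem : i ∈ wrd hn L U k := by
      rw [← hget]
      exact List.getElem_mem hl
    rw [(pow_run s (wrd hn L U k) (E k) h1).1 i, if_pos hmem]
    have h6 := run_occ s (wrd hn L U k) l hl
    rw [hget, hlen] at h6
    omega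
-- END snd_state

-- BEGIN snd_cost
theorem snd_cost_sum (c m : ℕ) (hm : m ≤ c) (f : ℕ → ℕ) :
    ∑ l ∈ Finset.range c, (if l < m then f l else 0) = ∑ l ∈ Finset.range m, f l := by
  rw [← Finset.sum_filter]
  congr 1
  ext l
  rw [Finset.mem_filter, Finset.mem_range, Finset.mem_range]
  omega

/-- `pow_run`, `sqc_sum` for both terms: the age before the letter `l` of the first `u` is at most `G k l` by `fst` (`run_le`,
`run_occ` for `u.take l`), and of the second `u` at most `H k l` by `snd` (`run_le` for `u.take l` and `run_occ` for `u`). -/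
theorem snd_cost {n R c : ℕ} (hn : 0 < n) {d L E : ℕ → ℕ} {U S G H : ℕ → ℕ → ℕ} {a b : ℕ}
    (h : ChkB n R c d L E U S G H a b) (k : ℕ) (hk : k < R) (s : Fin n → ℕ) (hs : ∀ i, s i ≤ S k i) :
    sqc s (List.replicate (E k) (wrd hn L U k)).flatten ≤ cstB c L E G H k := by
  unfold cstB
  by_cases hE0 : E k = 0
  · rw [if_pos hE0, hE0]
    exact le_of_eq rfl
  rw [if_neg hE0]
  have hE : 1 ≤ E k := Nat.one_le_iff_ne_zero.mpr hE0
  obtain ⟨hLc, hU⟩ := h.rng k hk
  have hlen : (wrd hn L U k).length = L k := by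
    unfold wrd
    rw [List.length_map, List.length_range]
  have hget : ∀ (l : ℕ) (hl : l < (wrd hn L U k).length), ((wrd hn L U k)[l] : ℕ) = U k l := by
    intro l hl
    have hl2 : l < L k := hlen ▸ hl
    unfold wrd
    rw [List.getElem_map, List.getElem_range]
    exact Nat.mod_eq_of_lt (hU l (by omega) hl2)
  have htake : ∀ (t m : ℕ) (ht : t < (wrd hn L U k).length) (hm : m < t)
      (a : Fin n → ℕ), U k m = U k t →
      (((wrd hn L U k).take t).foldl Rtw.stp a) (wrd hn L U k)[t] ≤ t - m := by
    intro t m ht hm a hUm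
    have h1 : m < ((wrd hn L U k).take t).length := by
      rw [List.length_take]; omega
    have h2 := run_occ a ((wrd hn L U k).take t) m h1
    have h3 : ((wrd hn L U k).take t)[m] = (wrd hn L U k)[t] := by
      rw [List.getElem_take]
      apply Fin.ext
      rw [hget m (by omega), hget t ht, hUm]
    rw [h3, List.length_take, Nat.min_eq_left (by omega)] at h2
    exact h2
  have hG : ∀ t : Fin (wrd hn L U k).length,
      ((((wrd hn L U k).take t).foldl Rtw.stp s) (wrd hn L U k)[t]) ^ 2 ≤ G k t * G k t := by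
    intro t
    have ht : (t : ℕ) < L k := hlen ▸ t.2
    have h1 : (((wrd hn L U k).take t).foldl Rtw.stp s) (wrd hn L U k)[t] ≤ G k t := by
      rcases h.fst k hk t (by omega) ht hE with ⟨i, hi, hUi, hSi⟩ | ⟨m, hm, hUm, hGm⟩
      · have h2 := run_le s ((wrd hn L U k).take t) (wrd hn L U k)[t]
        have h3 := hs (wrd hn L U k)[t]
        have h4 : (((wrd hn L U k)[t] : Fin n) : ℕ) = i := by
          rw [← hUi]; exact hget t t.2
        rw [h4] at h3
        rw [List.length_take, Nat.min_eq_left (by omega)] at h2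
        omega
      · have h2 := htake t m t.2 hm s hUm
        have h5 : (((wrd hn L U k).take t).foldl Rtw.stp s) (wrd hn L U k)[t] ≤ (t : ℕ) - m := h2
        omega
    rw [pow_two]
    exact Nat.mul_le_mul h1 h1
  have hH : 2 ≤ E k → ∀ t : Fin (wrd hn L U k).length,
      ((((wrd hn L U k).take t).foldl Rtw.stp ((wrd hn L U k).foldl Rtw.stp s)) (wrd hn L U k)[t]) ^ 2 ≤
        H k t * H k t := by
    intro hE2 t
    have ht : (t : ℕ) < L k := hlen ▸ t.2
    have h1 : (((wrd hn L U k).take t).foldl Rtw.stp ((wrd hn L U k).foldl Rtw.stp s)) (wrd hn L U k)[t] ≤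
        H k t := by
      rcases h.snd k hk t (by omega) ht hE2 with ⟨m, hm, hUm, hGm⟩ | ⟨m, hmc, hm, hUm, hGm⟩
      · have h2 := htake t m t.2 hm ((wrd hn L U k).foldl Rtw.stp s) hUm
        have h5 : (((wrd hn L U k).take t).foldl Rtw.stp ((wrd hn L U k).foldl Rtw.stp s))
          (wrd hn L U k)[t] ≤ (t : ℕ) - m := h2
        omega
      · have h2 := run_le ((wrd hn L U k).foldl Rtw.stp s) ((wrd hn L U k).take t) (wrd hn L U k)[t]
        rw [List.length_take, Nat.min_eq_left (by omega)] at h2
        have h6 : m < (wrd hn L U k).length := by omega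
        have h3 := run_occ s (wrd hn L U k) m h6
        have h4 : (wrd hn L U k)[m] = (wrd hn L U k)[t] := by
          apply Fin.ext
          rw [hget m h6]
          exact hUm.trans (hget t t.2).symm
        rw [h4] at h3
        omega
    rw [pow_two]
    exact Nat.mul_le_mul h1 h1
  rw [(pow_run s (wrd hn L U k) (E k) hE).2, sqc_sum s, sqc_sum ((wrd hn L U k).foldl Rtw.stp s),
    snd_cost_sum c (L k) hLc (fun l => G k l * G k l + (E k - 1) * (H k l * H k l)),
    Finset.sum_add_distrib, ← Finset.mul_sum, ← hlen,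
    ← Fin.sum_univ_eq_sum_range (fun l => G k l * G k l) (wrd hn L U k).length,
    ← Fin.sum_univ_eq_sum_range (fun l => H k l * H k l) (wrd hn L U k).length]
  apply Nat.add_le_add
  · exact Finset.sum_le_sum (fun t _ => hG t)
  · by_cases hE2 : 2 ≤ E k
    · exact Nat.mul_le_mul_left _ (Finset.sum_le_sum (fun t _ => hH hE2 t))
    · have : E k - 1 = 0 := by omega
      rw [this, Nat.zero_mul, Nat.zero_mul]
-- END snd_cost

-- BEGIN snd_all
/-- Induction on `r`: `blks (r + 1) = blks r ++ [..]` (`List.range_succ`), `expand_append`, `sqc_append`, `snd_state`, `snd_cost`. -/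
theorem snd_all {n R c : ℕ} (hn : 0 < n) {d L E : ℕ → ℕ} {U S G H : ℕ → ℕ → ℕ} {a b : ℕ}
    (h : ChkB n R c d L E U S G H a b) (r : ℕ) (hr : r ≤ R) (s : Fin n → ℕ) (hs : ∀ i, s i ≤ S 0 i) :
    (∀ i : Fin n, ((expand (blks hn L E U r)).foldl Rtw.stp s) i ≤ S r i) ∧
      sqc s (expand (blks hn L E U r)) ≤ ∑ k ∈ Finset.range r, cstB c L E G H k := by
  induction r with
  | zero =>
    refine ⟨fun i => ?_, ?_⟩
    · simpa [blks, expand] using hs i
    · simp [blks, expand, sqc]
  | succ r ih =>
    obtain ⟨h1, h2⟩ := ih (by omega)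
    have hb : blks hn L E U (r + 1) = blks hn L E U r ++ [(wrd hn L U r, E r)] := by
      simp [blks, List.range_succ]
    have he : expand (blks hn L E U (r + 1)) =
        expand (blks hn L E U r) ++ (List.replicate (E r) (wrd hn L U r)).flatten := by
      rw [hb]
      simp [expand]
    rw [he]
    refine ⟨fun i => ?_, ?_⟩
    · rw [List.foldl_append]
      exact snd_state hn h r (by omega) _ h1 i
    · rw [sqc_append, Finset.sum_range_succ]
      exact Nat.add_le_add h2 (snd_cost hn h r (by omega) _ h1)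
-- END snd_all

-- BEGIN snd_count
private theorem snd_count_range {n : ℕ} (f : ℕ → Fin n) (i : Fin n) (m : ℕ) :
    ((List.range m).map f).count i = ∑ l ∈ Finset.range m, (if f l = i then 1 else 0) := by
  induction m with
  | zero => rfl
  | succ m ih =>
    rw [List.range_succ, List.map_append, List.count_append, ih, Finset.sum_range_succ, List.map_singleton,
      List.count_singleton]
    congr 1
    by_cases h : f m = i
    · rw [if_pos h, h]
      simp
    · rw [if_neg h]
      simp [h]

private theorem snd_count_pow {n : ℕ} (u : List (Fin n)) (i : Fin n) (e : ℕ) :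
    ((List.replicate e u).flatten).count i = e * u.count i := by
  induction e with
  | zero => simp
  | succ e ih =>
    rw [List.replicate_succ, List.flatten_cons, List.count_append, ih]
    ring

/-- Induction on `r`; `List.count` of a power is `E k * count`, and `count i (wrd k) = ∑ l < c, if l < L k ∧ U k l = i then 1 else 0`
(`L k ≤ c`, `U k l < n`). -/
theorem snd_count {n R c : ℕ} (hn : 0 < n) {d L E : ℕ → ℕ} {U S G H : ℕ → ℕ → ℕ} {a b : ℕ}
    (h : ChkB n R c d L E U S G H a b) (r : ℕ) (hr : r ≤ R) (i : Fin n) :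
    (expand (blks hn L E U r)).count i =
      ∑ k ∈ Finset.range r, ∑ l ∈ Finset.range c, (if l < L k ∧ U k l = (i : ℕ) then E k else 0) := by
  induction r with
  | zero => rfl
  | succ r ih =>
    have hx : expand (blks hn L E U (r + 1)) =
        expand (blks hn L E U r) ++ (List.replicate (E r) (wrd hn L U r)).flatten := by
      unfold expand blks
      rw [List.range_succ]
      simp
    rw [hx, List.count_append, ih (by omega), Finset.sum_range_succ, snd_count_pow]
    congr 1
    unfold wrd
    rw [snd_count_range]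
    obtain ⟨hL, hU⟩ := h.rng r (by omega)
    rw [Finset.mul_sum]
    have hsub : Finset.range (L r) ⊆ Finset.range c := by
      intro l hl
      rw [Finset.mem_range] at hl ⊢
      omega
    rw [← Finset.sum_subset (f := fun l => if l < L r ∧ U r l = (i : ℕ) then E r else 0) hsub]
    · refine Finset.sum_congr rfl fun l hl => ?_
      rw [Finset.mem_range] at hl
      have hlU : U r l % n = U r l := Nat.mod_eq_of_lt (hU l (by omega) hl)
      have hfe : ((⟨U r l % n, Nat.mod_lt _ hn⟩ : Fin n) = i) ↔ U r l = (i : ℕ) := by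
        rw [Fin.ext_iff]
        change U r l % n = (i : ℕ) ↔ U r l = (i : ℕ)
        rw [hlU]
      by_cases hi : U r l = (i : ℕ)
      · have h1 : l < L r ∧ U r l = (i : ℕ) := ⟨hl, hi⟩
        rw [if_pos h1, if_pos (hfe.mpr hi), mul_one]
      · have h1 : ¬ (l < L r ∧ U r l = (i : ℕ)) := fun hh => hi hh.2
        have h2 : ¬ ((⟨U r l % n, Nat.mod_lt _ hn⟩ : Fin n) = i) := fun hh => hi (hfe.mp hh)
        rw [if_neg h1, if_neg h2, mul_zero]
    · intro l _ hl
      rw [Finset.mem_range] at hl
      exact if_neg (fun hh => hl hh.1)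
-- END snd_count

-- BEGIN soundB
/-- `w = expand (blks R)`, `snd_count` and `cnt`. Let `s₀ i = S 0 i` and `s = w.foldl stp s₀`; then `s ≤ S R ≤ S 0` (`snd_all`, `cyc`), all `i`
are in `w`, so `w.foldl stp s = s` (`indep`), `fix_age`, `sqc_dist` for `s`; `sqc s w ≤ ∑ cstB` (`snd_all` for `s`); `cst_iff`. -/
theorem soundB {n R c : ℕ} (hn : 0 < n) (d : Fin n → ℕ) (hd : ∀ i, 0 < d i) {L E : ℕ → ℕ} {U S G H : ℕ → ℕ → ℕ}
    {a b : ℕ} (hb : 0 < b) (h : ChkB n R c (dN d) L E U S G H a b) :
    ∃ w : List (Fin n), (∀ i, w.count i = d i) ∧ RTV w ≤ (a : ℚ) / b := by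
  have hcount : ∀ i : Fin n, (expand (blks hn L E U R)).count i = d i := by
    intro i
    rw [snd_count hn h R le_rfl i, h.cnt i i.2]
    unfold dN
    rw [dif_pos i.2]
  refine ⟨expand (blks hn L E U R), hcount, ?_⟩
  have hmem : ∀ i : Fin n, i ∈ expand (blks hn L E U R) := by
    intro i
    rw [← List.count_pos_iff, hcount i]
    exact hd i
  have h1 := (snd_all hn h R le_rfl (fun i : Fin n => S 0 i) (fun i => le_rfl)).1
  have h2 : ∀ i : Fin n, ((expand (blks hn L E U R)).foldl Rtw.stp (fun i : Fin n => S 0 i)) i ≤ S 0 i :=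
    fun i => le_trans (h1 i) (h.cyc i i.2)
  have h3 : ∀ i ∈ expand (blks hn L E U R), ((expand (blks hn L E U R)).foldl Rtw.stp
      ((expand (blks hn L E U R)).foldl Rtw.stp (fun i : Fin n => S 0 i))) i =
      ((expand (blks hn L E U R)).foldl Rtw.stp (fun i : Fin n => S 0 i)) i := by
    intro i hi
    exact ((indep (expand (blks hn L E U R)) i).1 hi _ _).1
  have h4 := fix_age _ _ h3
  have h5 := sqc_dist _ _ h4
  have h6 := (snd_all hn h R le_rfl _ h2).2
  rw [cst_iff d hd _ hcount a b hb, h5]
  exact le_trans (Nat.mul_le_mul_left _ h6) h.cst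
-- END soundB

/-! ## from the word to the certificate -/

/-- The block `k`. -/
def blk {n : ℕ} (B : List (List (Fin n) × ℕ)) (k : ℕ) : List (Fin n) × ℕ := B.getD k ([], 0)

/-- The ages before the block `k`, from the ages `s` at the start. -/
def sts {n : ℕ} (B : List (List (Fin n) × ℕ)) (s : Fin n → ℕ) (k : ℕ) : Fin n → ℕ :=
  (expand (B.take k)).foldl Rtw.stp s

def cL {n : ℕ} (B : List (List (Fin n) × ℕ)) (k : ℕ) : ℕ := (blk B k).1.length

def cE {n : ℕ} (B : List (List (Fin n) × ℕ)) (k : ℕ) : ℕ := if (blk B k).1 = [] then 0 else (blk B k).2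

def cU {n : ℕ} (B : List (List (Fin n) × ℕ)) (k l : ℕ) : ℕ :=
  if h : l < (blk B k).1.length then ((blk B k).1[l] : ℕ) else 0

def cS {n : ℕ} (B : List (List (Fin n) × ℕ)) (s : Fin n → ℕ) (k i : ℕ) : ℕ :=
  if h : i < n then sts B s k ⟨i, h⟩ else 0

def cG {n : ℕ} (B : List (List (Fin n) × ℕ)) (s : Fin n → ℕ) (k l : ℕ) : ℕ :=
  if h : l < (blk B k).1.length ∧ 1 ≤ cE B k then
    (((blk B k).1.take l).foldl Rtw.stp (sts B s k)) ((blk B k).1[l]'h.1) else 0

def cH {n : ℕ} (B : List (List (Fin n) × ℕ)) (s : Fin n → ℕ) (k l : ℕ) : ℕ :=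
  if h : l < (blk B k).1.length ∧ 2 ≤ cE B k then
    (((blk B k).1.take l).foldl Rtw.stp ((blk B k).1.foldl Rtw.stp (sts B s k))) ((blk B k).1[l]'h.1) else 0

-- BEGIN sts_succ
theorem sts_succ_exp {n : ℕ} (B : List (List (Fin n) × ℕ)) (k : ℕ) :
    expand (B.take (k + 1)) = expand (B.take k) ++ (List.replicate (cE B k) (blk B k).1).flatten := by
  have hE : (List.replicate (cE B k) (blk B k).1).flatten =
      (List.replicate (blk B k).2 (blk B k).1).flatten := by
    unfold cE
    by_cases h : (blk B k).1 = []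
    · rw [if_pos h, h]
      induction (blk B k).2 with
      | zero => rfl
      | succ m ih => rw [List.replicate_succ, List.flatten_cons, List.nil_append, ← ih]
    · rw [if_neg h]
  rw [hE]
  by_cases hk : k < B.length
  · have h1 : B.take (k + 1) = B.take k ++ [B[k]] := by
      rw [List.take_add_one, List.getElem?_eq_getElem hk]
      rfl
    have h2 : blk B k = B[k] := by
      unfold blk
      rw [List.getD_eq_getElem?_getD, List.getElem?_eq_getElem hk]
      rfl
    rw [h1, h2, (expand_append (B.take k) [B[k]]).1]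
    congr 1
    unfold expand
    simp
  · have h1 : B.take (k + 1) = B := List.take_of_length_le (by omega)
    have h2 : B.take k = B := List.take_of_length_le (by omega)
    have h3 : blk B k = ([], 0) := by
      unfold blk
      rw [List.getD_eq_getElem?_getD, List.getElem?_eq_none (by omega)]
      rfl
    rw [h1, h2, h3]
    simp

/-- `B.take (k + 1) = B.take k ++ [blk B k]` for `k < B.length`, else both are `B` and the block is `([], 0)`; a power of the
empty word is empty. -/
theorem sts_succ {n : ℕ} (B : List (List (Fin n) × ℕ)) (s : Fin n → ℕ) (k : ℕ) :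
    sts B s (k + 1) = (List.replicate (cE B k) (blk B k).1).flatten.foldl Rtw.stp (sts B s k) ∧
      ∃ r : List (Fin n), expand B = expand (B.take k) ++ (List.replicate (cE B k) (blk B k).1).flatten ++ r := by
  constructor
  · unfold sts
    rw [sts_succ_exp, List.foldl_append]
  · refine ⟨expand (B.drop (k + 1)), ?_⟩
    rw [← sts_succ_exp, ← (expand_append (B.take (k + 1)) (B.drop (k + 1))).1, List.take_append_drop]
-- END sts_succ

-- BEGIN cmp_bd
/-- The ages at all times `t ≤ D` are at most `D`: `run_age`, `age_spec` with `pos_per`. -/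
theorem cmp_bd {n : ℕ} (w : List (Fin n)) (hw : ∀ i, i ∈ w) (s : Fin n → ℕ) (hs : ∀ i, s i = age (pos w i) 0)
    (x y : List (Fin n)) (hxy : w = x ++ y) (i : Fin n) : (x.foldl stp s) i ≤ w.length := by
  have hx : w.take x.length = x := by
    rw [hxy, List.take_left]
  have h1 := run_age w s (fun j _ => hs j) x.length (by rw [hxy]; simp) i (hw i)
  rw [hx] at h1
  rw [h1]
  exact (age_spec w.length (pos w i) (pos_per w i (hw i)) (x.length : ℤ)).2.1
-- END cmp_bd

-- BEGIN cmp_size
/-- `cS, cG, cH`: `cmp_bd` (with `sts_succ`); `cE ≤ cE * length ≤ D` for a nonempty word. -/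
theorem cmp_size {n : ℕ} (B : List (List (Fin n) × ℕ)) (hw : ∀ i, i ∈ expand B) (s : Fin n → ℕ)
    (hs : ∀ i, s i = age (pos (expand B) i) 0) (k l : ℕ) :
    cE B k ≤ (expand B).length ∧ cU B k l ≤ n ∧ cS B s k l ≤ (expand B).length ∧ cG B s k l ≤ (expand B).length ∧
      cH B s k l ≤ (expand B).length := by
  obtain ⟨-, r, hr⟩ := sts_succ B s k
  refine ⟨?_, ?_, ?_, ?_, ?_⟩
  · by_cases h : (blk B k).1 = []
    · have : cE B k = 0 := by simp [cE, h]
      omega
    · have h1 : 1 ≤ (blk B k).1.length := List.length_pos_iff.2 h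
      have h2 := congrArg List.length hr
      rw [List.length_append, List.length_append, List.length_flatten, List.map_replicate,
        List.sum_replicate, smul_eq_mul] at h2
      have h3 : cE B k ≤ cE B k * (blk B k).1.length := Nat.le_mul_of_pos_right _ h1
      omega
  · unfold cU
    split_ifs with h
    · exact ((blk B k).1[l]).isLt.le
    · exact Nat.zero_le _
  · unfold cS
    split_ifs with h
    · exact cmp_bd (expand B) hw s hs (expand (B.take k))
        ((List.replicate (cE B k) (blk B k).1).flatten ++ r) (by rw [hr]; simp only [List.append_assoc]) ⟨l, h⟩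
    · exact Nat.zero_le _
  · unfold cG
    split_ifs with h
    · obtain ⟨e, he⟩ : ∃ e, cE B k = e + 1 := ⟨cE B k - 1, by omega⟩
      have h1 : expand B = (expand (B.take k) ++ (blk B k).1.take l) ++
          ((blk B k).1.drop l ++ ((List.replicate e (blk B k).1).flatten ++ r)) := by
        have h3 : (blk B k).1 ++ ((List.replicate e (blk B k).1).flatten ++ r) =
            (blk B k).1.take l ++ ((blk B k).1.drop l ++ ((List.replicate e (blk B k).1).flatten ++ r)) := by
          rw [← List.append_assoc, ← List.append_assoc, ← List.append_assoc, List.take_append_drop]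
        rw [hr, he, List.replicate_succ, List.flatten_cons]
        simp only [List.append_assoc]
        rw [h3]
      have h2 := cmp_bd (expand B) hw s hs _ _ h1 ((blk B k).1[l]'h.1)
      rw [List.foldl_append] at h2
      exact h2
    · exact Nat.zero_le _
  · unfold cH
    split_ifs with h
    · obtain ⟨e, he⟩ : ∃ e, cE B k = e + 1 + 1 := ⟨cE B k - 2, by omega⟩
      have h1 : expand B = (expand (B.take k) ++ (blk B k).1 ++ (blk B k).1.take l) ++
          ((blk B k).1.drop l ++ ((List.replicate e (blk B k).1).flatten ++ r)) := by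
        have h3 : (blk B k).1 ++ ((List.replicate e (blk B k).1).flatten ++ r) =
            (blk B k).1.take l ++ ((blk B k).1.drop l ++ ((List.replicate e (blk B k).1).flatten ++ r)) := by
          rw [← List.append_assoc, ← List.append_assoc, ← List.append_assoc, List.take_append_drop]
        rw [hr, he, List.replicate_succ, List.replicate_succ, List.flatten_cons, List.flatten_cons]
        simp only [List.append_assoc]
        rw [h3]
      have h2 := cmp_bd (expand B) hw s hs _ _ h1 ((blk B k).1[l]'h.1)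
      rw [List.foldl_append, List.foldl_append] at h2
      exact h2
    · exact Nat.zero_le _
-- END cmp_size

-- BEGIN cmp_stp
/-- `sts_succ`, `pow_run`, `run_last` (for `i` in the word) or the exact value. -/
theorem cmp_stp {n c : ℕ} (B : List (List (Fin n) × ℕ)) (hc : ∀ b ∈ B, b.1.length ≤ c) (s : Fin n → ℕ) (k i : ℕ)
    (hi : i < n) : cS B s k i + cE B k * cL B k ≤ cS B s (k + 1) i ∨
      (1 ≤ cE B k ∧ ∃ l < c, l < cL B k ∧ cU B k l = i ∧ cL B k ≤ cS B s (k + 1) i + l) := by
  have h1 := (sts_succ B s k).1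
  rcases Nat.eq_zero_or_pos (cE B k) with hE | hE
  · left
    rw [hE] at h1
    simp only [List.replicate_zero, List.flatten_nil, List.foldl_nil] at h1
    unfold cS
    rw [dif_pos hi, dif_pos hi, hE, h1]
    omega
  · have h2 := (pow_run (sts B s k) (blk B k).1 (cE B k) hE).1 ⟨i, hi⟩
    rw [← h1] at h2
    by_cases hm : (⟨i, hi⟩ : Fin n) ∈ (blk B k).1
    · right
      rw [if_pos hm] at h2
      obtain ⟨l, hl, hl1, hl2⟩ := run_last (sts B s k) (blk B k).1 ⟨i, hi⟩ hm
      refine ⟨hE, l, ?_, hl, ?_, ?_⟩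
      · refine lt_of_lt_of_le hl ?_
        unfold blk at hl ⊢
        by_cases hk : k < B.length
        · rw [List.getD_eq_getElem _ _ hk]
          exact hc _ (List.getElem_mem hk)
        · rw [List.getD_eq_default _ _ (not_lt.1 hk)] at hl
          simp at hl
      · unfold cU
        rw [dif_pos hl, hl1]
      · unfold cS cL
        rw [dif_pos hi, h2]
        exact hl2
    · left
      rw [if_neg hm] at h2
      unfold cS cL
      rw [dif_pos hi, dif_pos hi, h2]
-- END cmp_stp

-- BEGIN cmp_fst
/-- If the letter occurs in `u.take l`: `run_last` for `u.take l`, otherwise `indep`. -/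
theorem cmp_fst {n : ℕ} (B : List (List (Fin n) × ℕ)) (s : Fin n → ℕ) (k l : ℕ)
    (hl : l < cL B k) (hE : 1 ≤ cE B k) : (∃ i < n, cU B k l = i ∧ cS B s k i + l ≤ cG B s k l) ∨
      ∃ m < l, cU B k m = cU B k l ∧ l ≤ cG B s k l + m := by
  have hl' : l < (blk B k).1.length := hl
  have hlen : ((blk B k).1.take l).length = l := by
    rw [List.length_take]
    omega
  have hG : cG B s k l =
      (((blk B k).1.take l).foldl Rtw.stp (sts B s k)) ((blk B k).1[l]'hl') := by
    unfold cG
    rw [dif_pos ⟨hl', hE⟩]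
  have hU : cU B k l = ((blk B k).1[l]'hl' : ℕ) := by
    unfold cU
    rw [dif_pos hl']
  by_cases hm : (blk B k).1[l]'hl' ∈ (blk B k).1.take l
  · right
    obtain ⟨m, hm1, hm2, hm3⟩ := run_last (sts B s k) ((blk B k).1.take l) _ hm
    rw [hlen] at hm1
    refine ⟨m, hm1, ?_, ?_⟩
    · have hm4 : m < (blk B k).1.length := hm1.trans hl'
      rw [hU]
      unfold cU
      rw [dif_pos hm4, ← hm2, List.getElem_take]
    · rw [hG]
      rw [hlen] at hm3
      exact hm3
  · left
    have h3 := (indep ((blk B k).1.take l) ((blk B k).1[l]'hl')).2 hm (sts B s k)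
    refine ⟨((blk B k).1[l]'hl' : ℕ), ((blk B k).1[l]'hl').isLt, hU, ?_⟩
    rw [hG, h3, hlen]
    unfold cS
    rw [dif_pos ((blk B k).1[l]'hl').isLt]
-- END cmp_fst

-- BEGIN cmp_snd
/-- If the letter occurs in `u.take l`: `run_last` for `u.take l`, otherwise `indep` for `u.take l` and `run_last` for `u`. -/
theorem cmp_snd {n c : ℕ} (B : List (List (Fin n) × ℕ)) (hc : ∀ b ∈ B, b.1.length ≤ c) (s : Fin n → ℕ) (k l : ℕ)
    (hl : l < cL B k) (hE : 2 ≤ cE B k) : (∃ m < l, cU B k m = cU B k l ∧ l ≤ cH B s k l + m) ∨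
      ∃ m < c, m < cL B k ∧ cU B k m = cU B k l ∧ cL B k + l ≤ cH B s k l + m := by
  have hl' : l < (blk B k).1.length := hl
  have hkB : k < B.length := by
    by_contra hk
    have h0 : blk B k = ([], 0) := by
      unfold blk
      rw [List.getD_eq_default _ _ (not_lt.mp hk)]
    rw [h0] at hl'
    simp at hl'
  have hmem : blk B k ∈ B := by
    unfold blk
    rw [List.getD_eq_getElem _ _ hkB]
    exact List.getElem_mem hkB
  have hlc : (blk B k).1.length ≤ c := hc _ hmem
  have hH : cH B s k l =
      (((blk B k).1.take l).foldl Rtw.stp ((blk B k).1.foldl Rtw.stp (sts B s k))) ((blk B k).1[l]'hl') := by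
    unfold cH
    rw [dif_pos ⟨hl', hE⟩]
  have hUl : cU B k l = (((blk B k).1[l]'hl' : Fin n) : ℕ) := by
    unfold cU
    rw [dif_pos hl']
  by_cases hin : ((blk B k).1[l]'hl') ∈ (blk B k).1.take l
  · left
    obtain ⟨m, hm, hme, hmle⟩ := run_last ((blk B k).1.foldl Rtw.stp (sts B s k)) ((blk B k).1.take l) _ hin
    have hlen : ((blk B k).1.take l).length = l := by
      rw [List.length_take]
      omega
    have hml : m < l := by omega
    have hml' : m < (blk B k).1.length := by omega
    refine ⟨m, hml, ?_, ?_⟩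
    · rw [hUl]
      unfold cU
      rw [dif_pos hml', ← hme, List.getElem_take]
    · rw [hH]
      rw [hlen] at hmle
      exact hmle
  · right
    have h2 := (indep ((blk B k).1.take l) ((blk B k).1[l]'hl')).2 hin ((blk B k).1.foldl Rtw.stp (sts B s k))
    have hlen : ((blk B k).1.take l).length = l := by
      rw [List.length_take]
      omega
    obtain ⟨m, hm, hme, hmle⟩ := run_last (sts B s k) (blk B k).1 ((blk B k).1[l]'hl') (List.getElem_mem hl')
    refine ⟨m, by omega, hm, ?_, ?_⟩
    · rw [hUl]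
      unfold cU
      rw [dif_pos hm, hme]
    · rw [hH, h2, hlen]
      unfold cL
      omega
-- END cmp_snd

-- BEGIN cmp_cost
private theorem cmp_cost_exp {n : ℕ} (B : List (List (Fin n) × ℕ)) (r : ℕ) :
    expand (B.take (r + 1)) = expand (B.take r) ++ (List.replicate (cE B r) (blk B r).1).flatten := by
  by_cases hr : r < B.length
  · have h1 : B.take (r + 1) = B.take r ++ [B[r]] := (List.take_append_getElem hr).symm
    have h2 : blk B r = B[r] := by
      unfold blk
      rw [List.getD_eq_getElem?_getD, List.getElem?_eq_getElem hr]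
      rfl
    rw [h1, (expand_append _ _).1]
    congr 1
    unfold cE
    rw [h2]
    by_cases h3 : (B[r]).1 = []
    · rw [if_pos h3]
      unfold expand
      simp [h3]
    · rw [if_neg h3]
      unfold expand
      simp
  · have h1 : B.take (r + 1) = B := List.take_of_length_le (by omega)
    have h2 : B.take r = B := List.take_of_length_le (by omega)
    have h3 : blk B r = ([], 0) := by
      unfold blk
      rw [List.getD_eq_getElem?_getD, List.getElem?_eq_none (by omega)]
      rfl
    rw [h1, h2, h3]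
    simp

private theorem cmp_cost_len {n c : ℕ} (B : List (List (Fin n) × ℕ)) (hc : ∀ b ∈ B, b.1.length ≤ c)
    (r : ℕ) : (blk B r).1.length ≤ c := by
  unfold blk
  by_cases hr : r < B.length
  · rw [List.getD_eq_getElem?_getD, List.getElem?_eq_getElem hr]
    exact hc _ (List.getElem_mem hr)
  · rw [List.getD_eq_getElem?_getD, List.getElem?_eq_none (by omega)]
    simp

private theorem cmp_cost_sum {c L : ℕ} (hL : L ≤ c) (f : ℕ → ℕ) :
    ∑ l ∈ Finset.range c, (if l < L then f l else 0) = ∑ t : Fin L, f t := by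
  rw [← Finset.sum_filter, ← Finset.sum_range]
  congr 1
  ext x
  simp only [Finset.mem_filter, Finset.mem_range]
  omega

/-- Induction on `r`: `sts_succ`, `sqc_append`, `pow_run`, `sqc_sum`: `cstB` is `sqc` of the block (the sum over `l < c` with `l < length`
is the sum over `l < length`). -/
theorem cmp_cost {n c : ℕ} (B : List (List (Fin n) × ℕ)) (hc : ∀ b ∈ B, b.1.length ≤ c) (s : Fin n → ℕ) (r : ℕ) :
    ∑ k ∈ Finset.range r, cstB c (cL B) (cE B) (cG B s) (cH B s) k = sqc s (expand (B.take r)) := by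
  induction r with
  | zero =>
    simp [expand, sqc]
  | succ r ih =>
    rw [Finset.sum_range_succ, ih, cmp_cost_exp, sqc_append]
    congr 1
    have ha : (expand (B.take r)).foldl Rtw.stp s = sts B s r := rfl
    rw [ha]
    unfold cstB
    by_cases h0 : cE B r = 0
    · rw [if_pos h0, h0]
      simp [sqc]
    · rw [if_neg h0]
      have h1 : 1 ≤ cE B r := by omega
      rw [(pow_run (sts B s r) (blk B r).1 (cE B r) h1).2]
      have hcL : cL B r = (blk B r).1.length := rfl
      rw [hcL, cmp_cost_sum (cmp_cost_len B hc r) (fun l => cG B s r l * cG B s r l +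
        (cE B r - 1) * (cH B s r l * cH B s r l)), Finset.sum_add_distrib]
      congr 1
      · rw [sqc_sum]
        refine Finset.sum_congr rfl fun t _ => ?_
        have h2 : cG B s r (t : ℕ) =
            (((blk B r).1.take t).foldl Rtw.stp (sts B s r)) (blk B r).1[t] := by
          unfold cG
          rw [dif_pos ⟨t.2, h1⟩]
          rfl
        rw [h2, pow_two]
      · rw [← Finset.mul_sum]
        by_cases h2 : 2 ≤ cE B r
        · congr 1
          rw [sqc_sum]
          refine Finset.sum_congr rfl fun t _ => ?_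
          have h3 : cH B s r (t : ℕ) = (((blk B r).1.take t).foldl Rtw.stp
              ((blk B r).1.foldl Rtw.stp (sts B s r))) (blk B r).1[t] := by
            unfold cH
            rw [dif_pos ⟨t.2, h2⟩]
            rfl
          rw [h3, pow_two]
        · have h3 : cE B r - 1 = 0 := by omega
          rw [h3, zero_mul, zero_mul]
-- END cmp_cost

-- BEGIN cmp_cnt
private theorem cmp_cnt_word {n : ℕ} (u : List (Fin n)) (i : Fin n) (c E : ℕ) (hc : u.length ≤ c) :
    ∑ l ∈ Finset.range c, (if l < u.length ∧ (if h : l < u.length then (u[l] : ℕ) else 0) = (i : ℕ)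
      then E else 0) = E * u.count i := by
  induction u generalizing c with
  | nil => simp
  | cons x u ih =>
    obtain ⟨c, rfl⟩ : ∃ c', c = c' + 1 := ⟨c - 1, by simp at hc; omega⟩
    rw [Finset.sum_range_succ']
    have h1 : ∀ l ∈ Finset.range c,
        (if l + 1 < (x :: u).length ∧
          (if h : l + 1 < (x :: u).length then ((x :: u)[l + 1] : ℕ) else 0) = (i : ℕ) then E else 0) =
        (if l < u.length ∧ (if h : l < u.length then (u[l] : ℕ) else 0) = (i : ℕ) then E else 0) := by
      intro l _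
      by_cases hl : l < u.length
      · simp [hl]
      · simp [hl]
    rw [Finset.sum_congr rfl h1, ih c (by simpa using hc)]
    by_cases hx : x = i
    · subst hx
      simp
      ring
    · have hx' : ¬ ((x : ℕ) = (i : ℕ)) := fun h => hx (Fin.ext h)
      rw [List.count_cons_of_ne hx]
      simp [hx']

/-- Induction on `r`, as `snd_count`. -/
theorem cmp_cnt {n c : ℕ} (B : List (List (Fin n) × ℕ)) (hc : ∀ b ∈ B, b.1.length ≤ c) (r : ℕ) (i : Fin n) :
    ∑ k ∈ Finset.range r, ∑ l ∈ Finset.range c, (if l < cL B k ∧ cU B k l = (i : ℕ) then cE B k else 0) =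
      (expand (B.take r)).count i := by
  induction r with
  | zero => simp [expand]
  | succ r ih =>
    rw [Finset.sum_range_succ, ih]
    by_cases hr : r < B.length
    · have h1 : B.take (r + 1) = B.take r ++ [B[r]] := (List.take_append_getElem hr).symm
      have h2 : blk B r = B[r] := List.getD_eq_getElem _ _ hr
      rw [h1, (expand_append _ _).1, List.count_append]
      congr 1
      have h3 : ∀ l ∈ Finset.range c, (if l < cL B r ∧ cU B r l = (i : ℕ) then cE B r else 0) =
          (if l < (B[r]).1.length ∧ (if h : l < (B[r]).1.length then ((B[r]).1[l] : ℕ) else 0) = (i : ℕ)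
            then cE B r else 0) := by
        intro l _
        unfold cL cU
        rw [h2]
      rw [Finset.sum_congr rfl h3, cmp_cnt_word _ _ _ _ (hc _ (List.getElem_mem hr))]
      have h4 : ∀ (m : ℕ) (u : List (Fin n)), ((List.replicate m u).flatten).count i = m * u.count i := by
        intro m u
        induction m with
        | zero => simp
        | succ m ihm =>
          rw [List.replicate_succ, List.flatten_cons, List.count_append, ihm]
          ring
      have h5 : expand [B[r]] = (List.replicate (B[r]).2 (B[r]).1).flatten := by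
        simp [expand]
      rw [h5, h4]
      unfold cE
      rw [h2]
      split_ifs with h6
      · rw [h6]; simp
      · rfl
    · have h1 : B.take (r + 1) = B.take r := by
        rw [List.take_of_length_le (by omega), List.take_of_length_le (by omega)]
      have h2 : blk B r = ([], 0) := List.getD_eq_default _ _ (not_lt.1 hr)
      rw [h1]
      have h3 : ∀ l ∈ Finset.range c, (if l < cL B r ∧ cU B r l = (i : ℕ) then cE B r else 0) = 0 := by
        intro l _
        unfold cL
        rw [h2]
        simp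
      rw [Finset.sum_eq_zero h3, add_zero]
-- END cmp_cnt

-- BEGIN completeB
/-- `s i = age (pos w i) 0`, `w = expand B`. `B.take R = B`. `cyc`: `run_age` with `t = D`, `age_per`; `cst`: `cmp_cost`, `sqc_dist`,
`cst_iff`. -/
theorem completeB {n R c : ℕ} (d : Fin n → ℕ) (hd : ∀ i, 0 < d i) (B : List (List (Fin n) × ℕ))
    (hR : B.length ≤ R) (hc : ∀ b ∈ B, b.1.length ≤ c) (hw : ∀ i, (expand B).count i = d i) (a b : ℕ) (hb : 0 < b)
    (h : RTV (expand B) ≤ (a : ℚ) / b) : ∃ (L E : ℕ → ℕ) (U S G H : ℕ → ℕ → ℕ),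
      ChkB n R c (dN d) L E U S G H a b ∧ ∀ k l, (L k ≤ c ∧ E k ≤ ∑ i, d i ∧ U k l ≤ n) ∧ S k l ≤ ∑ i, d i ∧
        G k l ≤ ∑ i, d i ∧ H k l ≤ ∑ i, d i := by
  have hmem : ∀ i, i ∈ expand B := fun i => List.count_pos_iff.1 (by rw [hw]; exact hd i)
  have hlen : (expand B).length = ∑ i, d i := by
    rw [← List.sum_toFinset_count_eq_length]
    have hu : (expand B).toFinset = Finset.univ := by
      ext i
      simp [hmem i]
    rw [hu]
    exact Finset.sum_congr rfl fun i _ => hw i
  have htake : B.take R = B := List.take_of_length_le hR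
  have hL : ∀ k, cL B k ≤ c := by
    intro k
    unfold cL blk
    by_cases hk : k < B.length
    · rw [List.getD_eq_getElem _ _ hk]
      exact hc _ (List.getElem_mem hk)
    · rw [List.getD_eq_default _ _ (by omega)]
      simp
  set s : Fin n → ℕ := fun i => age (pos (expand B) i) 0 with hs
  have hsz := cmp_size B hmem s (fun _ => rfl)
  refine ⟨cL B, cE B, cU B, cS B s, cG B s, cH B s, ⟨?_, ?_, ?_, ?_, ?_, ?_, ?_⟩, fun k l => ?_⟩
  · intro k _
    refine ⟨hL k, fun l _ hl => ?_⟩
    unfold cU
    unfold cL at hl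
    rw [dif_pos hl]
    exact Fin.isLt _
  · intro i hi
    have := cmp_cnt B hc R ⟨i, hi⟩
    rw [htake, hw] at this
    rw [dN, dif_pos hi]
    exact this
  · intro k _ i hi
    exact cmp_stp B hc s k i hi
  · intro i hi
    unfold cS
    rw [dif_pos hi, dif_pos hi]
    have h0 : sts B s 0 = s := by
      unfold sts
      simp [expand]
    have h1 : sts B s R ⟨i, hi⟩ = s ⟨i, hi⟩ := by
      unfold sts
      rw [htake]
      have h2 := run_age (expand B) s (fun _ _ => rfl) (expand B).length le_rfl ⟨i, hi⟩ (hmem _)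
      rw [List.take_length] at h2
      rw [h2]
      have h3 := age_per (expand B).length (pos (expand B) ⟨i, hi⟩) (pos_per _ _ (hmem _)) 0
      rw [zero_add] at h3
      exact h3
    rw [h0, h1]
  · intro k _ l _ hl hE
    exact cmp_fst B s k l hl hE
  · intro k _ l _ hl hE
    exact cmp_snd B hc s k l hl hE
  · have h1 := (cst_iff d hd (expand B) hw a b hb).1 h
    have h2 := cmp_cost B hc s R
    rw [htake] at h2
    rw [h2, ← sqc_dist (expand B) s (fun _ _ => rfl)]
    exact h1
  · obtain ⟨e1, e2, e3, e4, e5⟩ := hsz k l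
    rw [hlen] at e1 e3 e4 e5
    exact ⟨⟨hL k, e1, e2⟩, e3, e4, e5⟩
-- END completeB

end Rtw
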