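import Pool.Agent.Rtw.Age

/-!
# Rtw LST: cyclic words, response time variability, the exchange of two letters
-/

set_option autoImplicit false

namespace Rtw

open Finset

open scoped Classical

variable {α : Type} [DecidableEq α]

/-- The letter at the place `z` of the word `w`, read cyclically. -/
def ltr (w : List α) (z : ℤ) : Option α := w[(z % w.length).toNat]?

/-- The distance from the copy at the place `t` back to the previous copy of the same letter, read cyclically. -/
noncomputable def dist (w : List α) (t : ℤ) : ℕ := sInf {k : ℕ | 1 ≤ k ∧ ltr w (t - k) = ltr w t}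

/-- The response time variability of the word `w`, read cyclically: the sum of `(t - D / d) ^ 2` over the distances `t`
of all letters, where `D` is the length of `w` and `d` is the number of the copies of the letter. -/
noncomputable def RTV (w : List α) : ℚ :=
  ∑ t : Fin w.length, ((dist w (t : ℕ) : ℚ) - w.length / w.count w[t]) ^ 2

/-- The places of the letter `i`. -/
def pos (w : List α) (i : α) (z : ℤ) : Prop := ltr w z = some i

/-- The sum of the ages. -/
noncomputable def Tot (w : List α) : ℕ := ∑ i ∈ w.toFinset, T w.length (pos w i)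

/-- The frequent letters. -/
noncomputable def Fr (R : ℕ) (w : List α) : Finset α := w.toFinset.filter (fun i => w.length ≤ R * w.count i)

/-- Every window of `12 R + 3` places with frequent letters only contains all the frequent letters. -/
def Win (R : ℕ) (w : List α) : Prop :=
  ∀ z : ℤ, (∀ y : ℤ, z ≤ y → y < z + (12 * R + 3) → ∃ j ∈ Fr R w, pos w j y) →
    ∀ i ∈ Fr R w, ∃ y : ℤ, z ≤ y ∧ y < z + (12 * R + 3) ∧ pos w i y

-- BEGIN ltr_nat
/-- `t % D = t`. -/
theorem ltr_nat (w : List α) (t : ℕ) (ht : t < w.length) : ltr w (t : ℤ) = some w[t] := by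
  have h : ((t : ℤ) % (w.length : ℤ)).toNat = t := by
    rw [← Int.natCast_mod, Int.toNat_natCast, Nat.mod_eq_of_lt ht]
  rw [ltr, h]
  exact List.getElem?_eq_getElem ht
-- END ltr_nat

-- BEGIN ltr_per
/-- `Int.add_emod_right`, `Int.emod_nonneg`, `Int.emod_lt_of_pos`. -/
theorem ltr_per (w : List α) (hw : w ≠ []) : (∀ z, ltr w (z + w.length) = ltr w z) ∧
    (∀ z y : ℤ, (w.length : ℤ) ∣ z - y → ltr w z = ltr w y) ∧ ∀ z, ∃ i ∈ w, ltr w z = some i := by
  have h2 : ∀ z y : ℤ, (w.length : ℤ) ∣ z - y → ltr w z = ltr w y := by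
    intro z y h
    have h1 : z % (w.length : ℤ) = y % w.length := (Int.modEq_iff_dvd.2 h).symm
    simp only [ltr, h1]
  refine ⟨fun z => h2 _ _ ⟨1, by ring⟩, h2, fun z => ?_⟩
  have hl : (0 : ℤ) < w.length := by
    have := List.length_pos_iff.2 hw
    exact_mod_cast this
  have h3 := Int.emod_nonneg z hl.ne'
  have h4 := Int.emod_lt_of_pos z hl
  have h5 : (z % (w.length : ℤ)).toNat < w.length := by omega
  exact ⟨w[(z % (w.length : ℤ)).toNat], List.getElem_mem h5, List.getElem?_eq_getElem h5⟩
-- END ltr_per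

-- BEGIN pos_per
/-- From `ltr_per`, `ltr_nat`, `List.mem_iff_getElem`. -/
theorem pos_per (w : List α) (i : α) (hi : i ∈ w) : Per w.length (pos w i) := by
  have hw : w ≠ [] := List.ne_nil_of_mem hi
  obtain ⟨h1, _, _⟩ := ltr_per w hw
  refine ⟨List.length_pos_of_mem hi, ?_, ?_⟩
  · intro z
    show ltr w (z + w.length) = some i ↔ ltr w z = some i
    rw [h1 z]
  · obtain ⟨n, hn, h⟩ := List.mem_iff_getElem.1 hi
    refine ⟨(n : ℤ), ?_⟩
    show ltr w (n : ℤ) = some i
    rw [ltr_nat w n hn, h]
-- END pos_per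

-- BEGIN dist_age
/-- The two sets are equal. -/
theorem dist_age (w : List α) (i : α) (t : ℤ) (h : pos w i t) : dist w t = age (pos w i) t := by
  unfold dist age
  unfold pos at h
  rw [h]
  rfl
-- END dist_age

-- BEGIN sum_pos
/-- Sum over the letters: `Finset.sum_fiberwise_of_maps_to` for `t ↦ w[t]`, and the `t : Fin w.length` with `w[t] = i`
correspond to the `z ∈ [0, D)` with `pos w i z`. -/
theorem sum_pos (w : List α) (g : α → ℤ → ℕ) :
    ∑ t : Fin w.length, g w[t] (t : ℕ) =
      ∑ i ∈ w.toFinset, ∑ z ∈ (Ico (0 : ℤ) w.length).filter (pos w i), g i z := by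
  rw [← Finset.sum_fiberwise_of_maps_to (s := univ) (t := w.toFinset) (g := fun t : Fin w.length => w[t])
    (fun t _ => List.mem_toFinset.2 (List.getElem_mem _))]
  apply Finset.sum_congr rfl
  intro i _
  refine Finset.sum_bij (fun t _ => ((t : ℕ) : ℤ)) ?_ ?_ ?_ ?_
  · intro t ht
    have ht' : w[t] = i := (Finset.mem_filter.1 ht).2
    rw [Finset.mem_filter, Finset.mem_Ico]
    refine ⟨⟨by omega, by have := t.2; omega⟩, ?_⟩
    unfold pos
    rw [ltr_nat w t t.2, ← ht']
    rfl
  · intro t _ s _ hts
    apply Fin.ext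
    exact_mod_cast hts
  · intro z hz
    rw [Finset.mem_filter, Finset.mem_Ico] at hz
    obtain ⟨⟨hz0, hz1⟩, hz2⟩ := hz
    obtain ⟨k, rfl⟩ := Int.eq_ofNat_of_zero_le hz0
    have hk : k < w.length := by omega
    unfold pos at hz2
    have h1 := ltr_nat w k hk
    have h3 : w[k] = i := by
      have h2 : some w[k] = some i := by rw [← h1]; exact hz2
      exact Option.some.inj h2
    exact ⟨⟨k, hk⟩, Finset.mem_filter.2 ⟨Finset.mem_univ _, h3⟩, rfl⟩
  · intro t ht
    have ht' : w[t] = i := (Finset.mem_filter.1 ht).2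
    rw [ht']
-- END sum_pos

-- BEGIN card_pos
private theorem card_pos_aux (w : List α) (i : α) :
    ∑ k ∈ range w.length, (if w[k]? = some i then 1 else 0) = w.count i := by
  induction w with
  | nil => simp
  | cons a w ih =>
    rw [List.length_cons, Finset.sum_range_succ', List.count_cons]
    simp only [List.getElem?_cons_succ, List.getElem?_cons_zero, Option.some.injEq, beq_iff_eq]
    rw [ih]

/-- `List.count` as a cardinality (for example induction on `w`, or `List.count_eq_card_filter_range`-like lemmas). -/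
theorem card_pos (w : List α) (i : α) : ((Ico (0 : ℤ) w.length).filter (pos w i)).card = w.count i := by
  rw [← card_pos_aux w i, Finset.card_filter]
  apply Finset.sum_nbij' (fun z : ℤ => z.toNat) (fun k : ℕ => (k : ℤ))
  · intro z hz
    rw [mem_Ico] at hz
    rw [mem_range]; omega
  · intro k hk
    rw [mem_range] at hk
    rw [mem_Ico]; omega
  · intro z hz
    rw [mem_Ico] at hz
    show ((z.toNat : ℕ) : ℤ) = z
    omega
  · intro k _
    show ((k : ℤ)).toNat = k
    omega
  · intro z hz
    rw [mem_Ico] at hz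
    have h1 : pos w i z ↔ w[z.toNat]? = some i := by
      rw [pos, ltr, Int.emod_eq_of_lt hz.1 hz.2]
    by_cases h : pos w i z
    · rw [if_pos h, if_pos (h1.1 h)]
    · rw [if_neg h, if_neg (fun h2 => h (h1.2 h2))]
-- END card_pos

-- BEGIN RTV_eq
private theorem RTV_eq_dist (w : List α) (t : Fin w.length) : dist w (t : ℕ) = age (pos w w[t]) ((t : ℕ) : ℤ) :=
  dist_age w w[t] _ (ltr_nat w t t.2)

private theorem RTV_eq_fib (w : List α) (i : α) (hi : i ∈ w.toFinset) (f : ℤ → ℕ) :
    ∑ t ∈ (Finset.univ : Finset (Fin w.length)).filter (fun t => w[t] = i), f (t : ℕ) =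
      ∑ z ∈ (Ico (0 : ℤ) w.length).filter (pos w i), f z := by
  have h := sum_pos w (fun j z => if j = i then f z else 0)
  rw [Finset.sum_filter, h]
  rw [Finset.sum_eq_single i]
  · apply Finset.sum_congr rfl
    intro z _
    rw [if_pos rfl]
  · intro j _ hj
    apply Finset.sum_eq_zero
    intro z _
    rw [if_neg hj]
  · intro h
    exact absurd hi h

/-- Expand the square. For a letter `i`, `D = w.length`, `d = w.count i`: the sum of `(x - D / d) ^ 2` over the `d` distances `x`
with the sum `D` (`tele1`, `card_pos`, `dist_age`, `sum_pos` in `ℚ`: cast) is `∑ x ^ 2 - D ^ 2 / d`. -/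
theorem RTV_eq (w : List α) : RTV w =
    ((∑ t : Fin w.length, dist w (t : ℕ) ^ 2 : ℕ) : ℚ) - ∑ i ∈ w.toFinset, (w.length : ℚ) ^ 2 / w.count i := by
  have hmaps : ∀ t ∈ (Finset.univ : Finset (Fin w.length)), w[t] ∈ w.toFinset := by
    intro t _
    rw [List.mem_toFinset]
    exact List.getElem_mem _
  unfold RTV
  push_cast
  rw [← Finset.sum_fiberwise_of_maps_to hmaps (fun t : Fin w.length => ((dist w (t : ℕ) : ℚ) - w.length / w.count w[t]) ^ 2),
    ← Finset.sum_fiberwise_of_maps_to hmaps (fun t : Fin w.length => (dist w (t : ℕ) : ℚ) ^ 2), ← Finset.sum_sub_distrib]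
  apply Finset.sum_congr rfl
  intro i hi
  have hiw : i ∈ w := List.mem_toFinset.1 hi
  have hc : (0 : ℚ) < w.count i := by exact_mod_cast List.count_pos_iff.2 hiw
  have hA : ∑ t ∈ (Finset.univ : Finset (Fin w.length)).filter (fun t => w[t] = i), dist w (t : ℕ) = w.length := by
    have h1 : ∀ t ∈ (Finset.univ : Finset (Fin w.length)).filter (fun t => w[t] = i),
        dist w (t : ℕ) = age (pos w i) ((t : ℕ) : ℤ) := by
      intro t ht
      rw [Finset.mem_filter] at ht
      rw [RTV_eq_dist, ht.2]
    rw [Finset.sum_congr rfl h1, RTV_eq_fib w i hi (fun z => age (pos w i) z)]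
    exact tele1 w.length (pos w i) (pos_per w i hiw)
  have hB : ((Finset.univ : Finset (Fin w.length)).filter (fun t => w[t] = i)).card = w.count i := by
    rw [Finset.card_eq_sum_ones, RTV_eq_fib w i hi (fun _ => 1), ← Finset.card_eq_sum_ones]
    exact card_pos w i
  have hA' : ∑ t ∈ (Finset.univ : Finset (Fin w.length)).filter (fun t => w[t] = i), (dist w (t : ℕ) : ℚ) = w.length := by
    exact_mod_cast hA
  have h2 : ∀ t ∈ (Finset.univ : Finset (Fin w.length)).filter (fun t => w[t] = i),
      ((dist w (t : ℕ) : ℚ) - w.length / w.count w[t]) ^ 2 =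
        (dist w (t : ℕ) : ℚ) ^ 2 - 2 * (w.length / w.count i) * dist w (t : ℕ) + (w.length / w.count i) ^ 2 := by
    intro t ht
    rw [Finset.mem_filter] at ht
    rw [ht.2]
    ring
  rw [Finset.sum_congr rfl h2, Finset.sum_add_distrib, Finset.sum_sub_distrib, ← Finset.mul_sum, hA', Finset.sum_const, hB,
    nsmul_eq_mul]
  field_simp
  ring
-- END RTV_eq

-- BEGIN RTV_sq
/-- From `RTV_eq`; the letters and their numbers of copies are the same. -/
theorem RTV_sq (w v : List α) (h : v.Perm w)
    (h2 : ∑ t : Fin v.length, dist v (t : ℕ) ^ 2 ≤ ∑ t : Fin w.length, dist w (t : ℕ) ^ 2) : RTV v ≤ RTV w := by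
  rw [RTV_eq, RTV_eq]
  have e1 : v.toFinset = w.toFinset := List.toFinset_eq_of_perm v w h
  have e2 : v.length = w.length := h.length_eq
  have e3 : ∑ i ∈ v.toFinset, (v.length : ℚ) ^ 2 / v.count i =
      ∑ i ∈ w.toFinset, (w.length : ℚ) ^ 2 / w.count i := by
    rw [e1, e2]
    exact Finset.sum_congr rfl fun i _ => by rw [h.count_eq]
  rw [e3]
  have h3 : ((∑ t : Fin v.length, dist v (t : ℕ) ^ 2 : ℕ) : ℚ) ≤
      ((∑ t : Fin w.length, dist w (t : ℕ) ^ 2 : ℕ) : ℚ) := by exact_mod_cast h2
  linarith
-- END RTV_sq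

-- BEGIN RTV_Tot
private theorem RTV_Tot_sq (w : List α) :
    ∑ t : Fin w.length, dist w (t : ℕ) ^ 2 + w.toFinset.card * w.length = 2 * Tot w := by
  have h1 : ∀ t : Fin w.length, dist w (t : ℕ) ^ 2 = age (pos w w[t]) ((t : ℕ) : ℤ) ^ 2 := by
    intro t
    rw [dist_age w w[t] _ (ltr_nat w t t.2)]
  rw [Finset.sum_congr rfl (fun t _ => h1 t), sum_pos w (fun i z => age (pos w i) z ^ 2)]
  unfold Tot
  rw [Finset.mul_sum, ← smul_eq_mul, ← Finset.sum_const, ← Finset.sum_add_distrib]
  apply Finset.sum_congr rfl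
  intro i hi
  exact (tele2 w.length (pos w i) (pos_per w i (List.mem_toFinset.1 hi))).symm

/-- `∑ dist ^ 2 + D #letters = 2 Tot` by `tele2` and `sum_pos`, `dist_age`; then `RTV_sq`. -/
theorem RTV_Tot (w v : List α) (h : v.Perm w) (h2 : Tot v ≤ Tot w) : RTV v ≤ RTV w := by
  apply RTV_sq w v h
  have a1 := RTV_Tot_sq w
  have e : ∑ t : Fin v.length, dist v (t : ℕ) ^ 2 + w.toFinset.card * w.length = 2 * Tot v := by
    have := RTV_Tot_sq v
    rwa [List.toFinset_eq_of_perm _ _ h, show w.toFinset.card * v.length = w.toFinset.card * w.length by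
      rw [h.length_eq]] at this
  omega
-- END RTV_Tot

-- BEGIN swp
private theorem swp_idx {D : ℕ} (hD : 0 < D) (z y : ℤ) :
    (D : ℤ) ∣ z - y ↔ (z % D).toNat = (y % D).toNat := by
  have hD' : (D : ℤ) ≠ 0 := by omega
  have h1 := Int.emod_nonneg z hD'
  have h2 := Int.emod_nonneg y hD'
  constructor
  · intro h
    rw [(Int.emod_emod_of_dvd z (dvd_refl (D : ℤ))).symm, Int.emod_eq_emod_iff_emod_sub_eq_zero.2
      (Int.emod_eq_zero_of_dvd h), Int.emod_emod_of_dvd y (dvd_refl (D : ℤ))]
  · intro h
    have h3 : z % D = y % D := by omega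
    exact Int.dvd_of_emod_eq_zero (Int.emod_eq_emod_iff_emod_sub_eq_zero.1 h3)

/-- Exchange the letters at `A mod D` and `B mod D`: `List.set_set_perm`. `z ≡ y mod D` iff the indices `(z % D).toNat`,
`(y % D).toNat` are equal. -/
theorem swp (w : List α) (i j : α) (hij : i ≠ j) (A B : ℤ) (hA : pos w i A) (hB : pos w j B) :
    ∃ v : List α, v.Perm w ∧
      (∀ z, pos v i z ↔ (pos w i z ∨ (w.length : ℤ) ∣ z - B) ∧ ¬ (w.length : ℤ) ∣ z - A) ∧
      (∀ z, pos v j z ↔ (pos w j z ∧ ¬ (w.length : ℤ) ∣ z - B) ∨ (w.length : ℤ) ∣ z - A) ∧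
      ∀ l, l ≠ i → l ≠ j → ∀ z, pos v l z ↔ pos w l z := by
  unfold pos ltr at *
  obtain ⟨ha, hai⟩ := List.getElem?_eq_some_iff.1 hA
  obtain ⟨hb, hbj⟩ := List.getElem?_eq_some_iff.1 hB
  have hD : 0 < w.length := by omega
  generalize hae : (A % (w.length : ℤ)).toNat = a at ha hai hA
  generalize hbe : (B % (w.length : ℤ)).toNat = b at hb hbj hB
  have hab : a ≠ b := by
    rintro rfl
    exact hij (hai.symm.trans hbj)
  have hperm := List.set_set_perm ha hb
  rw [hai, hbj] at hperm
  have hlen : ((w.set a j).set b i).length = w.length := by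
    rw [List.length_set, List.length_set]
  have hv : ∀ c : ℕ, ((w.set a j).set b i)[c]? =
      if c = b then some i else if c = a then some j else w[c]? := by
    intro c
    by_cases hcb : c = b
    · subst hcb
      rw [if_pos rfl, List.getElem?_set_self (by rw [List.length_set]; exact hb)]
    · rw [if_neg hcb, List.getElem?_set_ne (Ne.symm hcb)]
      by_cases hca : c = a
      · subst hca
        rw [if_pos rfl, List.getElem?_set_self ha]
      · rw [if_neg hca, List.getElem?_set_ne (Ne.symm hca)]
  refine ⟨(w.set a j).set b i, hperm, fun z => ?_, fun z => ?_, fun l hli hlj z => ?_⟩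
  · rw [hlen, hv, swp_idx hD, swp_idx hD, hae, hbe]
    generalize (z % (w.length : ℤ)).toNat = c
    by_cases hcb : c = b
    · subst hcb
      rw [if_pos rfl]
      exact ⟨fun _ => ⟨Or.inr rfl, Ne.symm hab⟩, fun _ => rfl⟩
    · rw [if_neg hcb]
      by_cases hca : c = a
      · rw [if_pos hca]
        constructor
        · intro h
          exact (hij (Option.some.inj h).symm).elim
        · intro h
          exact (h.2 hca).elim
      · rw [if_neg hca]
        constructor
        · intro h
          exact ⟨Or.inl h, hca⟩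
        · rintro ⟨h | h, _⟩
          · exact h
          · exact (hcb h).elim
  · rw [hlen, hv, swp_idx hD, swp_idx hD, hae, hbe]
    generalize (z % (w.length : ℤ)).toNat = c
    by_cases hcb : c = b
    · rw [if_pos hcb]
      constructor
      · intro h
        exact (hij (Option.some.inj h)).elim
      · rintro (h | h)
        · exact (h.2 hcb).elim
        · exact (hab (h.symm.trans hcb)).elim
    · rw [if_neg hcb]
      by_cases hca : c = a
      · rw [if_pos hca]
        exact ⟨fun _ => Or.inr hca, fun _ => rfl⟩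
      · rw [if_neg hca]
        constructor
        · intro h
          exact Or.inl ⟨h, hcb⟩
        · rintro (h | h)
          · exact h.1
          · exact (hca h).elim
  · rw [hlen, hv]
    generalize (z % (w.length : ℤ)).toNat = c
    by_cases hcb : c = b
    · rw [if_pos hcb, hcb, hB]
      constructor
      · intro h
        exact (hli (Option.some.inj h).symm).elim
      · intro h
        exact (hlj (Option.some.inj h).symm).elim
    · rw [if_neg hcb]
      by_cases hca : c = a
      · rw [if_pos hca, hca, hA]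
        constructor
        · intro h
          exact (hlj (Option.some.inj h).symm).elim
        · intro h
          exact (hli (Option.some.inj h).symm).elim
      · rw [if_neg hca]
-- END swp

-- BEGIN Fr_card
/-- `D #F ≤ ∑_{i ∈ F} R d_i ≤ R D`, and `D > 0` if `F` is not empty. -/
theorem Fr_card (R : ℕ) (w : List α) : (Fr R w).card ≤ R := by
  rcases (Fr R w).eq_empty_or_nonempty with h0 | ⟨i, hi⟩
  · rw [h0, Finset.card_empty]
    exact Nat.zero_le _
  · have hsub : Fr R w ⊆ w.toFinset := by
      unfold Fr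
      exact Finset.filter_subset _ _
    have hw : 0 < w.length := by
      have := hsub hi
      rw [List.mem_toFinset] at this
      exact List.length_pos_of_mem this
    have h1 : (Fr R w).card * w.length ≤ ∑ i ∈ Fr R w, R * w.count i := by
      rw [← smul_eq_mul, ← Finset.sum_const]
      apply Finset.sum_le_sum
      intro j hj
      unfold Fr at hj
      rw [Finset.mem_filter] at hj
      exact hj.2
    have h2 : ∑ i ∈ Fr R w, R * w.count i ≤ ∑ i ∈ w.toFinset, R * w.count i :=
      Finset.sum_le_sum_of_subset hsub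
    have h3 : ∑ i ∈ w.toFinset, R * w.count i = R * w.length := by
      rw [← Finset.mul_sum, List.sum_toFinset_count_eq_length]
    rw [h3] at h2
    exact Nat.le_of_mul_le_mul_right (h1.trans h2) hw
-- END Fr_card

-- BEGIN popular
/-- `N = ∑_{j ∈ F} #(places of j in the window)` and `#F ≤ R`; so one of the `R #(..)` is `≥ N`. -/
theorem popular (R : ℕ) (w : List α) (z : ℤ) (N : ℕ) (hN : 0 < N)
    (h : ∀ y : ℤ, z ≤ y → y < z + N → ∃ j ∈ Fr R w, pos w j y) :
    ∃ j ∈ Fr R w, N ≤ R * ((Ico z (z + N)).filter (pos w j)).card := by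
  by_contra hcon
  have hcon' : ∀ j ∈ Fr R w, R * ((Ico z (z + N)).filter (pos w j)).card < N := by
    intro j hj
    by_contra h1
    exact hcon ⟨j, hj, not_lt.1 h1⟩
  have hne : (Fr R w).Nonempty := by
    obtain ⟨j, hj, _⟩ := h z le_rfl (by omega)
    exact ⟨j, hj⟩
  have h1 : N ≤ ∑ j ∈ Fr R w, ((Ico z (z + N)).filter (pos w j)).card := by
    have h2 : (Ico z (z + N)).card ≤
        ((Fr R w).biUnion fun j => (Ico z (z + N)).filter (pos w j)).card := by
      apply Finset.card_le_card
      intro y hy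
      have hy' := mem_Ico.1 hy
      obtain ⟨j, hj, hp⟩ := h y hy'.1 hy'.2
      exact mem_biUnion.2 ⟨j, hj, mem_filter.2 ⟨hy, hp⟩⟩
    have h3 : (Ico z (z + N)).card = N := by
      rw [Int.card_Ico]
      omega
    rw [h3] at h2
    exact h2.trans Finset.card_biUnion_le
  have h4 : ∑ j ∈ Fr R w, R * ((Ico z (z + N)).filter (pos w j)).card < ∑ _j ∈ Fr R w, N :=
    Finset.sum_lt_sum_of_nonempty hne hcon'
  rw [Finset.sum_const, smul_eq_mul, ← Finset.mul_sum] at h4
  have h5 := Nat.mul_le_mul_right N (Fr_card R w)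
  have h6 := Nat.mul_le_mul_left R h1
  omega
-- END popular

-- BEGIN improve
/-- Let `z` be a window as in `Win` without `i`, `q = 4 R + 1`, `12 R + 3 = 3 q`. Then `D > 12 R + 3` (else `i` would occur in the
window). `popular` for `[z + q, z + 2 q)`, then `three` gives a copy `B` of `j`; `three` for `i` and `[0, D)` gives `A`. `swp`,
`exch2`, `exch3`: `(4 R + 2) ^ 2 > 8 R ^ 2`. The letters are the same (`h.mem_iff`), the terms for the other letters are equal
(`pos v l = pos w l` by `funext`). -/
theorem improve (R : ℕ) (w : List α) (h : ¬ Win R w) : ∃ v : List α, v.Perm w ∧ Tot v < Tot w := by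
  unfold Win at h
  push Not at h
  obtain ⟨z, hz, i, hi, hiz⟩ := h
  have hiF : i ∈ w.toFinset := (Finset.mem_filter.mp hi).1
  have hiD : w.length ≤ R * w.count i := (Finset.mem_filter.mp hi).2
  have hiw : i ∈ w := List.mem_toFinset.mp hiF
  have hw : w ≠ [] := List.ne_nil_of_mem hiw
  have hPi : Per w.length (pos w i) := pos_per w i hiw
  have hD0 : 0 < w.length := hPi.1
  -- the word is longer than the window
  have hDN : 12 * R + 3 < w.length := by
    by_contra hcon
    rw [not_lt] at hcon
    obtain ⟨y0, hy0⟩ := hPi.2.2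
    have hDz : (0 : ℤ) < (w.length : ℤ) := by exact_mod_cast hD0
    have h1 : 0 ≤ (y0 - z) % (w.length : ℤ) := Int.emod_nonneg _ (ne_of_gt hDz)
    have h2 : (y0 - z) % (w.length : ℤ) < w.length := Int.emod_lt_of_pos _ hDz
    have h3 : (w.length : ℤ) ≤ 12 * R + 3 := by exact_mod_cast hcon
    refine hiz (z + (y0 - z) % (w.length : ℤ)) (by linarith) (by linarith) ?_
    have h4 : (w.length : ℤ) ∣ (z + (y0 - z) % (w.length : ℤ)) - y0 := by
      have h5 : (z + (y0 - z) % (w.length : ℤ)) - y0 = -((w.length : ℤ) * ((y0 - z) / (w.length : ℤ))) := by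
        have h6 := Int.emod_add_mul_ediv (y0 - z) (w.length : ℤ)
        linarith
      rw [h5]
      exact (Dvd.intro _ rfl).neg_right
    have h7 := (ltr_per w hw).2.1 _ _ h4
    unfold pos
    rw [h7]
    exact hy0
  -- the popular letter
  obtain ⟨j, hj, hjN⟩ := popular R w (z + (4 * R + 1 : ℕ)) (4 * R + 1) (by omega) (by
    intro y h1 h2
    push_cast at h1 h2
    exact hz y (by linarith) (by linarith))
  have hjF : j ∈ w.toFinset := (Finset.mem_filter.mp hj).1
  have hjw : j ∈ w := List.mem_toFinset.mp hjF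
  have hPj : Per w.length (pos w j) := pos_per w j hjw
  obtain ⟨B, a, b, hB, hBa, hBb, ha, hb, hab, hB1, hB2⟩ :=
    three (pos w j) R (4 * R + 1) (z + (4 * R + 1 : ℕ)) (by omega) hjN
  push_cast at hB1 hB2
  have haZ : (1 : ℤ) ≤ a := by exact_mod_cast ha
  have hbZ : (1 : ℤ) ≤ b := by exact_mod_cast hb
  obtain ⟨A, a', b', hA, hAa, hAb, ha', hb', hab', -, -⟩ :=
    three (pos w i) R w.length 0 (by omega) (by rw [zero_add, card_pos]; exact hiD)
  have hij : i ≠ j := by
    intro he
    rw [← he] at hB
    exact hiz B (by linarith) (by linarith) hB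
  obtain ⟨v, hv, hvi, hvj, hvl⟩ := swp w i j hij A B hA hB
  refine ⟨v, hv, ?_⟩
  have e2 := exch2 w.length R (pos w i) (pos v i) hPi (by omega) A B a' b' (4 * R + 1) ha' hb' hab' hAa hAb
    (by
      intro y h1 h2
      push_cast at h1 h2
      exact hiz y (by linarith) (by linarith)) hvi
  have e3 := exch3 w.length R (pos w j) (pos v j) hPj (by omega) A B a b ha hb hab hBa hBb hvj
  have hF : v.toFinset = w.toFinset := List.toFinset_eq_of_perm _ _ hv
  have hjF' : j ∈ w.toFinset.erase i := Finset.mem_erase.mpr ⟨fun he => hij he.symm, hjF⟩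
  have hsplit : ∀ f : α → ℕ, ∑ l ∈ w.toFinset, f l = f i + (f j + ∑ l ∈ (w.toFinset.erase i).erase j, f l) := by
    intro f
    rw [Finset.add_sum_erase _ f hjF', Finset.add_sum_erase _ f hiF]
  have hrest : ∑ l ∈ (w.toFinset.erase i).erase j, T w.length (pos v l) =
      ∑ l ∈ (w.toFinset.erase i).erase j, T w.length (pos w l) := by
    refine Finset.sum_congr rfl fun l hl => ?_
    rw [Finset.mem_erase, Finset.mem_erase] at hl
    have he : pos v l = pos w l := funext fun y => propext (hvl l hl.2.1 hl.1 y)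
    rw [he]
  unfold Tot
  rw [hv.length_eq, hF, hsplit, hsplit, hrest]
  nlinarith
-- END improve

-- BEGIN descent
/-- Strong induction on `Tot w` with `improve`, `RTV_Tot` (`.le`). -/
theorem descent (R : ℕ) (w : List α) : ∃ v : List α, v.Perm w ∧ RTV v ≤ RTV w ∧ Win R v := by
  obtain ⟨n, hn⟩ : ∃ n, n = Tot w := ⟨_, rfl⟩
  induction n using Nat.strong_induction_on generalizing w with
  | _ n ih =>
    by_cases h : Win R w
    · exact ⟨w, List.Perm.refl w, le_refl _, h⟩
    · obtain ⟨v, hv, hT⟩ := improve R w h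
      obtain ⟨u, hu, hR, hW⟩ := ih (Tot v) (by omega) v rfl
      exact ⟨u, hu.trans hv, hR.trans (RTV_Tot w v hv hT.le), hW⟩
-- END descent

end Rtw
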