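import Pool.Agent.Rtw.Crt
import Pool.Agent.Rtv.Pt
import Pool.Agent.NPC.Pair

/-!
# Rtw PTB: the restriction of the decision problem is in NP
-/

set_option autoImplicit false

namespace Rtw

open Finset

open Pool.Agent.Rtv

open Pool.Agent.PRT Pool.NPC Pool.NPC.Enc Pool.NPC.Tr Polynomial

variable {α β γ : Type} [Enc α] [Enc β] [Enc γ]

/-- The Response Time Variability decision problem, restricted to the instances in which the models `i` with `R * d i < D`
have together at most `q N` copies, `N` the length of the input: the input is the code of `a, b, d_0, …, d_(n-1)` with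
`K = a / b`. -/
def sparseRTV (R : ℕ) (q : Polynomial ℕ) : Set (List Bool) :=
  {x | ∃ (B a b n : ℕ) (d : Fin n → ℕ), x = code B (a :: b :: List.ofFn d) ∧
    a < 2 ^ B ∧ b < 2 ^ B ∧ (∀ i, d i < 2 ^ B) ∧ 0 < b ∧ 0 < n ∧ (∀ i, 0 < d i) ∧
    (∑ i with R * d i < ∑ j, d j, d i) ≤ q.eval x.length ∧ ∃ s, Feasible d s ∧ rtv d s ≤ (a : ℚ) / b}

-- BEGIN PP_cstB
/-- `BT_ite`, `BT_sum` (with the constant bound `c`: `PT.const`-like lemma), `BT.mul`, `BT.sub`, `BT.comp`. -/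
theorem PP_cstB {c : ℕ} {L E : α × ℕ → ℕ} {G H : (α × ℕ) × ℕ → ℕ} (hL : BT L) (hE : BT E)
    (hG : BT G) (hH : BT H) : BT fun x : α × ℕ => cstB c (fun k => L (x.1, k)) (fun k => E (x.1, k))
      (fun k l => G ((x.1, k), l)) (fun k l => H ((x.1, k), l)) x.2 := by
  have h1 : BT fun z : (α × ℕ) × ℕ =>
      if z.2 < L z.1 then G z * G z + (E z.1 - 1) * (H z * H z) else 0 :=
    BT_ite (P := fun z : (α × ℕ) × ℕ => z.2 < L z.1)
      (PP.lt (BT.ofUnary PT.snd) (BT.comp hL PT.fst))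
      (BT.add (BT.mul hG hG) (BT.mul (BT.sub (BT.comp hE PT.fst) (BT.const 1)) (BT.mul hH hH)))
      (BT.const 0)
  have h2 : BT fun x : α × ℕ => ∑ l ∈ Finset.range c,
      (if l < L x then G (x, l) * G (x, l) + (E x - 1) * (H (x, l) * H (x, l)) else 0) :=
    BT_sum (n := fun _ : α × ℕ => c)
      (f := fun z : (α × ℕ) × ℕ => if z.2 < L z.1 then G z * G z + (E z.1 - 1) * (H z * H z) else 0)
      (PT.const c) h1
  exact BT_ite (P := fun x : α × ℕ => E x = 0) (PP.eq hE (BT.const 0)) (BT.const 0) h2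
-- END PP_cstB

-- BEGIN PP_ChkB
private theorem PP_ChkB_iff (n R c : ℕ) (d L E : ℕ → ℕ) (U S G H : ℕ → ℕ → ℕ) (a b : ℕ) :
    ChkB n R c d L E U S G H a b ↔
      (∀ k < R, L k ≤ c ∧ ∀ l < c, l < L k → U k l < n) ∧
      (∀ i < n, ∑ k ∈ Finset.range R, ∑ l ∈ Finset.range c,
        (if l < L k ∧ U k l = i then E k else 0) = d i) ∧
      (∀ k < R, ∀ i < n, S k i + E k * L k ≤ S (k + 1) i ∨
        (1 ≤ E k ∧ ∃ l < c, l < L k ∧ U k l = i ∧ L k ≤ S (k + 1) i + l)) ∧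
      (∀ i < n, S R i ≤ S 0 i) ∧
      (∀ k < R, ∀ l < c, l < L k → 1 ≤ E k → (∃ i < n, U k l = i ∧ S k i + l ≤ G k l) ∨
        ∃ m < l, U k m = U k l ∧ l ≤ G k l + m) ∧
      (∀ k < R, ∀ l < c, l < L k → 2 ≤ E k → (∃ m < l, U k m = U k l ∧ l ≤ H k l + m) ∨
        ∃ m < c, m < L k ∧ U k m = U k l ∧ L k + l ≤ H k l + m) ∧
      b * (∏ i ∈ Finset.range n, d i) * ∑ k ∈ Finset.range R, cstB c L E G H k ≤
        a * (∏ i ∈ Finset.range n, d i) + b * ((∑ i ∈ Finset.range n, d i) *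
          (∑ i ∈ Finset.range n, d i)) *
          ∑ i ∈ Finset.range n, (∏ i ∈ Finset.range n, d i) / d i :=
  ⟨fun h => ⟨h.1, h.2, h.3, h.4, h.5, h.6, h.7⟩,
    fun h => ⟨h.1, h.2.1, h.2.2.1, h.2.2.2.1, h.2.2.2.2.1, h.2.2.2.2.2.1, h.2.2.2.2.2.2⟩⟩

/-- As `PP_Chk` of `Rtv/Pt.lean`: `ChkB` is the conjunction of its seven fields; the contexts of the loops are `α × ℕ`,
`(α × ℕ) × ℕ`, `((α × ℕ) × ℕ) × ℕ`; the loops over `l < c` have a constant bound, the loops over `m < l` the bound `x.2`. -/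
theorem PP_ChkB {c : ℕ} {n R a b : α → ℕ} {d L E : α × ℕ → ℕ} {U S G H : (α × ℕ) × ℕ → ℕ}
    (hn : PT n) (hR : PT R) (ha : BT a) (hb : BT b) (hd : BT d) (hL : BT L) (hE : BT E) (hU : BT U) (hS : BT S)
    (hG : BT G) (hH : BT H) :
    PP fun x => ChkB (n x) (R x) c (fun i => d (x, i)) (fun k => L (x, k)) (fun k => E (x, k))
      (fun k l => U ((x, k), l)) (fun k l => S ((x, k), l)) (fun k l => G ((x, k), l)) (fun k l => H ((x, k), l))
      (a x) (b x) := by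
  refine PP.congr ?_ fun x => PP_ChkB_iff _ _ _ _ _ _ _ _ _ _ _ _
  have hD : BT fun x : α => ∑ i ∈ Finset.range (n x), d (x, i) := BT_sum hn hd
  have hP : BT fun x : α => ∏ i ∈ Finset.range (n x), d (x, i) := BT_prod hn hd
  -- numbers of the contexts
  have hc0 : PT fun _ : α => c := PT.const c
  have hc1 : PT fun _ : α × ℕ => c := PT.const c
  have hc2 : PT fun _ : (α × ℕ) × ℕ => c := PT.const c
  have hn1 : PT fun y : α × ℕ => n y.1 := PT.comp hn PT.fst
  have hn2 : PT fun z : (α × ℕ) × ℕ => n z.1.1 := PT.comp hn (PT.fst' PT.fst)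
  have hR1 : PT fun y : α × ℕ => R y.1 := PT.comp hR PT.fst
  have h11 : BT fun _ : α × ℕ => 1 := BT.const 1
  have h12 : BT fun _ : (α × ℕ) × ℕ => 1 := BT.const 1
  have h22 : BT fun _ : (α × ℕ) × ℕ => 2 := BT.const 2
  have hL2 : BT fun z : (α × ℕ) × ℕ => L z.1 := BT.comp hL PT.fst
  have hE2 : BT fun z : (α × ℕ) × ℕ => E z.1 := BT.comp hE PT.fst
  have hL3 : BT fun w : ((α × ℕ) × ℕ) × ℕ => L w.1.1 := BT.comp hL (PT.fst' PT.fst)
  have hE3 : BT fun w : ((α × ℕ) × ℕ) × ℕ => E w.1.1 := BT.comp hE (PT.fst' PT.fst)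
  -- the last index of a context
  have e1 : BT fun y : α × ℕ => y.2 := BT.ofUnary PT.snd
  have e2 : BT fun z : (α × ℕ) × ℕ => z.2 := BT.ofUnary PT.snd
  have e3 : BT fun w : ((α × ℕ) × ℕ) × ℕ => w.2 := BT.ofUnary PT.snd
  -- the index before the last
  have f2 : BT fun z : (α × ℕ) × ℕ => z.1.2 := BT.ofUnary (PT.snd' PT.fst)
  have f3 : BT fun w : ((α × ℕ) × ℕ) × ℕ => w.1.2 := BT.ofUnary (PT.snd' PT.fst)
  -- `(x, k), m` for the context `((x, k), l), m`
  have hm3 : PT fun w : ((α × ℕ) × ℕ) × ℕ => (w.1.1, w.2) := PT.pair (PT.fst' PT.fst) PT.snd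
  -- `(x, k + 1), i` for the context `(x, k), i`
  have hs2 : PT fun z : (α × ℕ) × ℕ => ((z.1.1, z.1.2 + 1), z.2) :=
    PT.pair (PT.pair (PT.fst' PT.fst) (PT.succ (PT.snd' PT.fst))) PT.snd
  have hs3 : PT fun w : ((α × ℕ) × ℕ) × ℕ => ((w.1.1.1, w.1.1.2 + 1), w.1.2) :=
    PT.pair (PT.pair (PT.fst' (PT.fst' PT.fst)) (PT.succ (PT.snd' (PT.fst' PT.fst)))) (PT.snd' PT.fst)
  have hU3 : BT fun w : ((α × ℕ) × ℕ) × ℕ => U (w.1.1, w.2) := BT.comp hU hm3
  have hU3' : BT fun w : ((α × ℕ) × ℕ) × ℕ => U w.1 := BT.comp hU PT.fst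
  have hG3' : BT fun w : ((α × ℕ) × ℕ) × ℕ => G w.1 := BT.comp hG PT.fst
  have hH3' : BT fun w : ((α × ℕ) × ℕ) × ℕ => H w.1 := BT.comp hH PT.fst
  have hS3 : BT fun w : ((α × ℕ) × ℕ) × ℕ => S (w.1.1, w.2) := BT.comp hS hm3
  refine PP.and ?_ (PP.and ?_ (PP.and ?_ (PP.and ?_ (PP.and ?_ (PP.and ?_ ?_)))))
  · refine PP.all (P := fun y : α × ℕ => L y ≤ c ∧ ∀ l < c, l < L y → U (y, l) < n y.1) hR ?_
    refine PP.and (PP.le hL (BT.const c)) ?_
    refine PP.all (P := fun z : (α × ℕ) × ℕ => z.2 < L z.1 → U z < n z.1.1) hc1 ?_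
    exact PP.imp (PP.lt e2 hL2) (PP.lt hU (BT.ofUnary hn2))
  · refine PP.all (P := fun y : α × ℕ => ∑ k ∈ Finset.range (R y.1), ∑ l ∈ Finset.range c,
      (if l < L (y.1, k) ∧ U ((y.1, k), l) = y.2 then E (y.1, k) else 0) = d y) hn ?_
    refine PP.eq (BT_sum (f := fun z : (α × ℕ) × ℕ => ∑ l ∈ Finset.range c,
      (if l < L (z.1.1, z.2) ∧ U ((z.1.1, z.2), l) = z.1.2 then E (z.1.1, z.2) else 0)) hR1 ?_) hd
    have hxk : PT fun w : ((α × ℕ) × ℕ) × ℕ => (w.1.1.1, w.1.2) :=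
      PT.pair (PT.fst' (PT.fst' PT.fst)) (PT.snd' PT.fst)
    refine BT_sum (f := fun w : ((α × ℕ) × ℕ) × ℕ =>
      if w.2 < L (w.1.1.1, w.1.2) ∧ U ((w.1.1.1, w.1.2), w.2) = w.1.1.2 then E (w.1.1.1, w.1.2)
        else 0) hc2 ?_
    refine BT_ite (PP.and (PP.lt e3 (BT.comp hL hxk)) (PP.eq (BT.comp hU (PT.pair hxk PT.snd))
      (BT.ofUnary (PT.snd' (PT.fst' PT.fst))))) (BT.comp hE hxk) (BT.const 0)
  · refine PP.all (P := fun y : α × ℕ => ∀ i < n y.1, S (y, i) + E y * L y ≤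
      S ((y.1, y.2 + 1), i) ∨ (1 ≤ E y ∧ ∃ l < c, l < L y ∧ U (y, l) = i ∧
        L y ≤ S ((y.1, y.2 + 1), i) + l)) hR ?_
    refine PP.all (P := fun z : (α × ℕ) × ℕ => S z + E z.1 * L z.1 ≤
      S ((z.1.1, z.1.2 + 1), z.2) ∨ (1 ≤ E z.1 ∧ ∃ l < c, l < L z.1 ∧ U (z.1, l) = z.2 ∧
        L z.1 ≤ S ((z.1.1, z.1.2 + 1), z.2) + l)) hn1 ?_
    refine PP.or (PP.le (BT.add hS (BT.mul hE2 hL2)) (BT.comp hS hs2))
      (PP.and (PP.le h12 hE2) ?_)
    refine PP.ex (P := fun w : ((α × ℕ) × ℕ) × ℕ => w.2 < L w.1.1 ∧ U (w.1.1, w.2) = w.1.2 ∧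
        L w.1.1 ≤ S ((w.1.1.1, w.1.1.2 + 1), w.1.2) + w.2) hc2 ?_
    exact PP.and (PP.lt e3 hL3) (PP.and (PP.eq hU3 f3)
      (PP.le hL3 (BT.add (BT.comp hS hs3) e3)))
  · refine PP.all (P := fun y : α × ℕ => S ((y.1, R y.1), y.2) ≤ S ((y.1, 0), y.2)) hn ?_
    exact PP.le (BT.comp hS (PT.pair (PT.pair PT.fst hR1) PT.snd))
      (BT.comp hS (PT.pair (PT.pair PT.fst (PT.const 0)) PT.snd))
  · refine PP.all (P := fun y : α × ℕ => ∀ l < c, l < L y → 1 ≤ E y →
      (∃ i < n y.1, U (y, l) = i ∧ S (y, i) + l ≤ G (y, l)) ∨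
        ∃ m < l, U (y, m) = U (y, l) ∧ l ≤ G (y, l) + m) hR ?_
    refine PP.all (P := fun z : (α × ℕ) × ℕ => z.2 < L z.1 → 1 ≤ E z.1 →
      (∃ i < n z.1.1, U z = i ∧ S (z.1, i) + z.2 ≤ G z) ∨
        ∃ m < z.2, U (z.1, m) = U z ∧ z.2 ≤ G z + m) hc1 ?_
    refine PP.imp (PP.lt e2 hL2) (PP.imp (PP.le h12 hE2) (PP.or ?_ ?_))
    · refine PP.ex (P := fun w : ((α × ℕ) × ℕ) × ℕ => U w.1 = w.2 ∧
        S (w.1.1, w.2) + w.1.2 ≤ G w.1) hn2 ?_
      exact PP.and (PP.eq hU3' e3) (PP.le (BT.add hS3 f3) hG3')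
    · refine PP.ex (P := fun w : ((α × ℕ) × ℕ) × ℕ => U (w.1.1, w.2) = U w.1 ∧
        w.1.2 ≤ G w.1 + w.2) PT.snd ?_
      exact PP.and (PP.eq hU3 hU3') (PP.le f3 (BT.add hG3' e3))
  · refine PP.all (P := fun y : α × ℕ => ∀ l < c, l < L y → 2 ≤ E y →
      (∃ m < l, U (y, m) = U (y, l) ∧ l ≤ H (y, l) + m) ∨
        ∃ m < c, m < L y ∧ U (y, m) = U (y, l) ∧ L y + l ≤ H (y, l) + m) hR ?_
    refine PP.all (P := fun z : (α × ℕ) × ℕ => z.2 < L z.1 → 2 ≤ E z.1 →
      (∃ m < z.2, U (z.1, m) = U z ∧ z.2 ≤ H z + m) ∨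
        ∃ m < c, m < L z.1 ∧ U (z.1, m) = U z ∧ L z.1 + z.2 ≤ H z + m) hc1 ?_
    refine PP.imp (PP.lt e2 hL2) (PP.imp (PP.le h22 hE2) (PP.or ?_ ?_))
    · refine PP.ex (P := fun w : ((α × ℕ) × ℕ) × ℕ => U (w.1.1, w.2) = U w.1 ∧
        w.1.2 ≤ H w.1 + w.2) PT.snd ?_
      exact PP.and (PP.eq hU3 hU3') (PP.le f3 (BT.add hH3' e3))
    · refine PP.ex (P := fun w : ((α × ℕ) × ℕ) × ℕ => w.2 < L w.1.1 ∧ U (w.1.1, w.2) = U w.1 ∧
        L w.1.1 + w.1.2 ≤ H w.1 + w.2) hc2 ?_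
      exact PP.and (PP.lt e3 hL3) (PP.and (PP.eq hU3 hU3')
        (PP.le (BT.add hL3 f3) (BT.add hH3' e3)))
  · have hcost : BT fun x : α => ∑ k ∈ Finset.range (R x), cstB c (fun k => L (x, k))
        (fun k => E (x, k)) (fun k l => G ((x, k), l)) (fun k l => H ((x, k), l)) k :=
      BT_sum (f := fun y : α × ℕ => cstB c (fun k => L (y.1, k)) (fun k => E (y.1, k))
        (fun k l => G ((y.1, k), l)) (fun k l => H ((y.1, k), l)) y.2) hR (PP_cstB hL hE hG hH)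
    have hinv : BT fun x : α => ∑ i ∈ Finset.range (n x),
        (∏ i ∈ Finset.range (n x), d (x, i)) / d (x, i) :=
      BT_sum (f := fun y : α × ℕ => (∏ i ∈ Finset.range (n y.1), d (y.1, i)) / d y) hn
        (BT.div (BT.comp (F := fun x : α => ∏ i ∈ Finset.range (n x), d (x, i)) hP PT.fst) hd)
    exact PP.le (BT.mul (BT.mul hb hP) hcost)
      (BT.add (BT.mul ha hP) (BT.mul (BT.mul hb (BT.mul hD hD)) hinv))
-- END PP_ChkB

/-- Field number `o` of the slot `k` (`2 + 3 c + n` fields): `0`: `L k`; `1`: `E k`; `2 + l`: `U k l`; `2 + c + l`: `G k l`;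
`2 + 2 c + l`: `H k l`; `2 + 3 c + i`: `S k i`. -/
def fdB (W c n o k : ℕ) (w : List Bool) : ℕ := num W (k * (2 + 3 * c + n) + o) w

-- BEGIN exists_certB
/-- `exists_str` with `f t =` the field `t % m` of the slot `t / m`, `m = 2 + 3 c + n`. -/
theorem exists_certB (W R c n : ℕ) (L E : ℕ → ℕ) (U S G H : ℕ → ℕ → ℕ)
    (h : ∀ k l, L k < 2 ^ W ∧ E k < 2 ^ W ∧ U k l < 2 ^ W ∧ S k l < 2 ^ W ∧ G k l < 2 ^ W ∧ H k l < 2 ^ W) :
    ∃ w : List Bool, w.length = (R + 1) * (2 + 3 * c + n) * W ∧ ∀ k ≤ R,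
      fdB W c n 0 k w = L k ∧ fdB W c n 1 k w = E k ∧ (∀ l < c, fdB W c n (2 + l) k w = U k l ∧
        fdB W c n (2 + c + l) k w = G k l ∧ fdB W c n (2 + 2 * c + l) k w = H k l) ∧
      ∀ i < n, fdB W c n (2 + 3 * c + i) k w = S k i := by
  obtain ⟨f, hf⟩ : ∃ f : ℕ → ℕ → ℕ, f = fun k o => if o = 0 then L k else if o = 1 then E k
      else if o < 2 + c then U k (o - 2) else if o < 2 + 2 * c then G k (o - 2 - c)
      else if o < 2 + 3 * c then H k (o - 2 - 2 * c) else S k (o - 2 - 3 * c) := ⟨_, rfl⟩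
  have hfb : ∀ k o, f k o < 2 ^ W := by
    intro k o
    rw [hf]
    dsimp only
    split_ifs
    · exact (h k 0).1
    · exact (h k 0).2.1
    · exact (h k _).2.2.1
    · exact (h k _).2.2.2.2.1
    · exact (h k _).2.2.2.2.2
    · exact (h k _).2.2.2.1
  have hm : 0 < 2 + 3 * c + n := by omega
  obtain ⟨w, hw, hw2⟩ := exists_str W ((R + 1) * (2 + 3 * c + n))
    (fun t => f (t / (2 + 3 * c + n)) (t % (2 + 3 * c + n))) (fun t _ => hfb _ _)
  have key : ∀ k ≤ R, ∀ o < 2 + 3 * c + n, fdB W c n o k w = f k o := by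
    intro k hk o ho
    have h1 : k * (2 + 3 * c + n) + o < (R + 1) * (2 + 3 * c + n) := by
      have h2 : (k + 1) * (2 + 3 * c + n) ≤ (R + 1) * (2 + 3 * c + n) :=
        Nat.mul_le_mul_right _ (by omega)
      have h3 : (k + 1) * (2 + 3 * c + n) = k * (2 + 3 * c + n) + (2 + 3 * c + n) := by ring
      omega
    rw [fdB, hw2 _ h1]
    have h4 : (k * (2 + 3 * c + n) + o) / (2 + 3 * c + n) = k := by
      rw [mul_comm, Nat.mul_add_div hm, Nat.div_eq_of_lt ho, add_zero]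
    have h5 : (k * (2 + 3 * c + n) + o) % (2 + 3 * c + n) = o := by
      rw [mul_comm, Nat.mul_add_mod, Nat.mod_eq_of_lt ho]
    rw [h4, h5]
  refine ⟨w, hw, fun k hk => ⟨?_, ?_, fun l hl => ⟨?_, ?_, ?_⟩, fun i hi => ?_⟩⟩
  · rw [key k hk 0 (by omega), hf]
    rfl
  · rw [key k hk 1 (by omega), hf]
    rfl
  · rw [key k hk _ (by omega), hf]
    dsimp only
    rw [if_neg (by omega), if_neg (by omega), if_pos (by omega)]
    congr 1
    omega
  · rw [key k hk _ (by omega), hf]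
    dsimp only
    rw [if_neg (by omega), if_neg (by omega), if_neg (by omega), if_pos (by omega)]
    congr 1
    omega
  · rw [key k hk _ (by omega), hf]
    dsimp only
    rw [if_neg (by omega), if_neg (by omega), if_neg (by omega), if_neg (by omega), if_pos (by omega)]
    congr 1
    omega
  · rw [key k hk _ (by omega), hf]
    dsimp only
    rw [if_neg (by omega), if_neg (by omega), if_neg (by omega), if_neg (by omega), if_neg (by omega)]
    congr 1
    omega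
-- END exists_certB

-- BEGIN chkB_congr
/-- `ChkB` depends on the values `d i`, `i < n`, `L k, E k`, `k < R`, `U k l, G k l, H k l`, `k < R`, `l < c`, and `S k i`, `k ≤ R`, `i < n`
only. (In `fst`, `snd` the `m < l < c`.) -/
theorem chkB_congr {n R c a b : ℕ} {d L E d' L' E' : ℕ → ℕ} {U S G H U' S' G' H' : ℕ → ℕ → ℕ}
    (h : ChkB n R c d L E U S G H a b) (hd : ∀ i < n, d' i = d i)
    (hk : ∀ k < R, L' k = L k ∧ E' k = E k ∧ ∀ l < c, U' k l = U k l ∧ G' k l = G k l ∧ H' k l = H k l)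
    (hS : ∀ k ≤ R, ∀ i < n, S' k i = S k i) : ChkB n R c d' L' E' U' S' G' H' a b := by
  have hsum : ∑ i ∈ Finset.range n, d' i = ∑ i ∈ Finset.range n, d i :=
    Finset.sum_congr rfl fun i hi => hd i (Finset.mem_range.1 hi)
  have hprod : ∏ i ∈ Finset.range n, d' i = ∏ i ∈ Finset.range n, d i :=
    Finset.prod_congr rfl fun i hi => hd i (Finset.mem_range.1 hi)
  refine ⟨?_, ?_, ?_, ?_, ?_, ?_, ?_⟩
  · intro k hkR
    obtain ⟨e1, e2, e3⟩ := hk k hkR
    obtain ⟨h1, h2⟩ := h.rng k hkR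
    refine ⟨by rw [e1]; exact h1, fun l hl hlL => ?_⟩
    rw [(e3 l hl).1]
    rw [e1] at hlL
    exact h2 l hl hlL
  · intro i hi
    rw [hd i hi, ← h.cnt i hi]
    refine Finset.sum_congr rfl fun k hkR => Finset.sum_congr rfl fun l hl => ?_
    obtain ⟨e1, e2, e3⟩ := hk k (Finset.mem_range.1 hkR)
    rw [e1, e2, (e3 l (Finset.mem_range.1 hl)).1]
  · intro k hkR i hi
    obtain ⟨e1, e2, e3⟩ := hk k hkR
    rw [e1, e2, hS k hkR.le i hi, hS (k + 1) hkR i hi]
    rcases h.stp k hkR i hi with h1 | ⟨h1, l, h2, h3, h4, h5⟩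
    · exact Or.inl h1
    · refine Or.inr ⟨h1, l, h2, h3, ?_, h5⟩
      rw [(e3 l h2).1]
      exact h4
  · intro i hi
    rw [hS R (le_refl R) i hi, hS 0 (Nat.zero_le R) i hi]
    exact h.cyc i hi
  · intro k hkR l hl hlL hE
    obtain ⟨e1, e2, e3⟩ := hk k hkR
    rw [e1] at hlL
    rw [e2] at hE
    obtain ⟨u1, u2, u3⟩ := e3 l hl
    rcases h.fst k hkR l hl hlL hE with ⟨i, hi, h1, h2⟩ | ⟨m, hm, h1, h2⟩
    · refine Or.inl ⟨i, hi, ?_, ?_⟩
      · rw [u1]
        exact h1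
      · rw [u2, hS k hkR.le i hi]
        exact h2
    · refine Or.inr ⟨m, hm, ?_, ?_⟩
      · rw [u1, (e3 m (hm.trans hl)).1]
        exact h1
      · rw [u2]
        exact h2
  · intro k hkR l hl hlL hE
    obtain ⟨e1, e2, e3⟩ := hk k hkR
    rw [e1] at hlL
    rw [e2] at hE
    obtain ⟨u1, u2, u3⟩ := e3 l hl
    rw [e1, u1, u3]
    rcases h.snd k hkR l hl hlL hE with ⟨m, hm, h1, h2⟩ | ⟨m, hm, h0, h1, h2⟩
    · refine Or.inl ⟨m, hm, ?_, h2⟩
      rw [(e3 m (hm.trans hl)).1]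
      exact h1
    · refine Or.inr ⟨m, hm, h0, ?_, h2⟩
      rw [(e3 m hm).1]
      exact h1
  · have e1 : ∑ k ∈ Finset.range R, cstB c L' E' G' H' k = ∑ k ∈ Finset.range R, cstB c L E G H k := by
      refine Finset.sum_congr rfl fun k hkR => ?_
      obtain ⟨e1, e2, e3⟩ := hk k (Finset.mem_range.1 hkR)
      have e4 : ∀ l ∈ Finset.range c,
          (if l < L k then G' k l * G' k l + (E k - 1) * (H' k l * H' k l) else 0) =
          (if l < L k then G k l * G k l + (E k - 1) * (H k l * H k l) else 0) := by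
        intro l hl
        obtain ⟨u1, u2, u3⟩ := e3 l (Finset.mem_range.1 hl)
        rw [u2, u3]
      rw [cstB, cstB, e1, e2, Finset.sum_congr rfl e4]
    have e2 : ∑ i ∈ Finset.range n, (∏ i ∈ Finset.range n, d i) / d' i =
        ∑ i ∈ Finset.range n, (∏ i ∈ Finset.range n, d i) / d i :=
      Finset.sum_congr rfl fun i hi => by rw [hd i (Finset.mem_range.1 hi)]
    rw [hsum, hprod, e1, e2]
    exact h.cst
-- END chkB_congr

/-- the number of models of an input -/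
def nB (x : List Bool) : ℕ := (x.length - (lead x + 1)) / lead x - 2

/-- the number of slots -/
def RB (c : ℕ) (q : ℕ[X]) (x : List Bool) : ℕ := c * (q.eval x.length + 1)

/-- the width of the numbers in a certificate -/
def WB (c : ℕ) (x : List Bool) : ℕ := x.length + c + 1

/-- the verifier -/
def VpB (R c : ℕ) (q : ℕ[X]) (x w : List Bool) : Prop :=
  1 ≤ lead x ∧ x.length = lead x + 1 + (nB x + 2) * lead x ∧ 1 ≤ nB x ∧
  num (lead x) 1 (x.drop (lead x + 1)) ≠ 0 ∧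
  (∀ i < nB x, num (lead x) (i + 2) (x.drop (lead x + 1)) ≠ 0) ∧
  ∑ i ∈ Finset.range (nB x), (if R * num (lead x) (i + 2) (x.drop (lead x + 1)) <
      ∑ j ∈ Finset.range (nB x), num (lead x) (j + 2) (x.drop (lead x + 1)) then
      num (lead x) (i + 2) (x.drop (lead x + 1)) else 0) ≤ q.eval x.length ∧
  ChkB (nB x) (RB c q x) c (fun i => num (lead x) (i + 2) (x.drop (lead x + 1)))
    (fun k => fdB (WB c x) c (nB x) 0 k w) (fun k => fdB (WB c x) c (nB x) 1 k w)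
    (fun k l => fdB (WB c x) c (nB x) (2 + l) k w) (fun k i => fdB (WB c x) c (nB x) (2 + 3 * c + i) k w)
    (fun k l => fdB (WB c x) c (nB x) (2 + c + l) k w) (fun k l => fdB (WB c x) c (nB x) (2 + 2 * c + l) k w)
    (num (lead x) 0 (x.drop (lead x + 1))) (num (lead x) 1 (x.drop (lead x + 1)))

-- BEGIN PP_VpB
/-- As `PP_Vp` of `Rtv/Fin.lean`. (`PP_ChkB`, `BT_num`, `BT_sum`, `BT_ite`, `PT_lead`, `PT.drop`, `PT.length`, `PT.polyEval`, `PT.div`,
`BT.ofUnary`.) -/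
theorem PP_VpB (R c : ℕ) (q : ℕ[X]) : PP fun p : List Bool × List Bool => VpB R c q p.1 p.2 := by
  have hx : PT fun p : List Bool × List Bool => p.1 := PT.fst
  have hw : PT fun p : List Bool × List Bool => p.2 := PT.snd
  have hlen : PT fun p : List Bool × List Bool => p.1.length := PT.length hx
  have hle : PT fun p : List Bool × List Bool => lead p.1 := PT_lead hx
  have hdr : PT fun p : List Bool × List Bool => p.1.drop (lead p.1 + 1) :=
    PT.drop hx (PT.succ hle)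
  have h2 : PT fun _ : List Bool × List Bool => 2 := PT.const 2
  have hnn : PT fun p : List Bool × List Bool => nB p.1 :=
    PT.sub (PT.div (PT.sub hlen (PT.succ hle)) hle) h2
  have hq : PT fun p : List Bool × List Bool => q.eval p.1.length := PT.polyEval q hlen
  have hRR : PT fun p : List Bool × List Bool => RB c q p.1 :=
    PT.mul (PT.const c) (PT.succ hq)
  have hWW : PT fun p : List Bool × List Bool => WB c p.1 :=
    PT.succ (PT.add hlen (PT.const c))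
  have ha : BT fun p : List Bool × List Bool => num (lead p.1) 0 (p.1.drop (lead p.1 + 1)) :=
    BT_num hle (PT.const 0) hdr
  have hb : BT fun p : List Bool × List Bool => num (lead p.1) 1 (p.1.drop (lead p.1 + 1)) :=
    BT_num hle (PT.const 1) hdr
  have hd : BT fun y : (List Bool × List Bool) × ℕ =>
      num (lead y.1.1) (y.2 + 2) (y.1.1.drop (lead y.1.1 + 1)) :=
    BT_num (PT.comp (g := fun p : List Bool × List Bool => lead p.1) hle PT.fst)
      (PT.add PT.snd (PT.const 2))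
      (PT.comp (g := fun p : List Bool × List Bool => p.1.drop (lead p.1 + 1)) hdr PT.fst)
  have hm1 : PT fun y : (List Bool × List Bool) × ℕ => 2 + 3 * c + nB y.1.1 :=
    PT.add (PT.const (2 + 3 * c)) (PT.comp (g := fun p : List Bool × List Bool => nB p.1) hnn PT.fst)
  have hm2 : PT fun z : ((List Bool × List Bool) × ℕ) × ℕ => 2 + 3 * c + nB z.1.1.1 :=
    PT.add (PT.const (2 + 3 * c))
      (PT.comp (g := fun p : List Bool × List Bool => nB p.1) hnn (PT.fst' PT.fst))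
  have hf1 : ∀ o : ℕ, BT fun y : (List Bool × List Bool) × ℕ =>
      fdB (WB c y.1.1) c (nB y.1.1) o y.2 y.1.2 := fun o =>
    BT_num (PT.comp (g := fun p : List Bool × List Bool => WB c p.1) hWW PT.fst)
      (PT.add (PT.mul PT.snd hm1) (PT.const o))
      (PT.comp (g := fun p : List Bool × List Bool => p.2) hw PT.fst)
  have hf2 : ∀ o : ℕ, BT fun z : ((List Bool × List Bool) × ℕ) × ℕ =>
      fdB (WB c z.1.1.1) c (nB z.1.1.1) (o + z.2) z.1.2 z.1.1.2 := fun o =>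
    BT_num (PT.comp (g := fun p : List Bool × List Bool => WB c p.1) hWW (PT.fst' PT.fst))
      (PT.add (PT.mul (PT.snd' PT.fst) hm2) (PT.add (PT.const o) PT.snd))
      (PT.comp (g := fun p : List Bool × List Bool => p.2) hw (PT.fst' PT.fst))
  have h0 : BT fun _ : List Bool × List Bool => 0 := BT.const 0
  have h1 : BT fun _ : List Bool × List Bool => 1 := BT.const 1
  unfold VpB
  refine PP.and (PP.le h1 (BT.ofUnary hle)) (PP.and (PP.eq (BT.ofUnary hlen)
    (BT.ofUnary (PT.add (PT.succ hle) (PT.mul (PT.add hnn h2) hle)))) (PP.and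
    (PP.le h1 (BT.ofUnary hnn)) (PP.and (PP.ne hb h0) (PP.and ?_ (PP.and ?_ ?_)))))
  · exact PP.all (P := fun y : (List Bool × List Bool) × ℕ =>
      num (lead y.1.1) (y.2 + 2) (y.1.1.drop (lead y.1.1 + 1)) ≠ 0) hnn (PP.ne hd (BT.const 0))
  · have hS : BT fun p : List Bool × List Bool => ∑ j ∈ Finset.range (nB p.1),
        num (lead p.1) (j + 2) (p.1.drop (lead p.1 + 1)) := BT_sum (n := fun p : List Bool × List Bool => nB p.1)
          (f := fun y : (List Bool × List Bool) × ℕ => num (lead y.1.1) (y.2 + 2) (y.1.1.drop (lead y.1.1 + 1)))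
          hnn hd
    have hS1 : BT fun y : (List Bool × List Bool) × ℕ => ∑ j ∈ Finset.range (nB y.1.1),
        num (lead y.1.1) (j + 2) (y.1.1.drop (lead y.1.1 + 1)) :=
      BT.comp (F := fun p : List Bool × List Bool => ∑ j ∈ Finset.range (nB p.1),
        num (lead p.1) (j + 2) (p.1.drop (lead p.1 + 1))) hS PT.fst
    refine PP.le (BT_sum (n := fun p : List Bool × List Bool => nB p.1)
      (f := fun y : (List Bool × List Bool) × ℕ => if R * num (lead y.1.1) (y.2 + 2)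
        (y.1.1.drop (lead y.1.1 + 1)) < ∑ j ∈ Finset.range (nB y.1.1),
        num (lead y.1.1) (j + 2) (y.1.1.drop (lead y.1.1 + 1)) then
        num (lead y.1.1) (y.2 + 2) (y.1.1.drop (lead y.1.1 + 1)) else 0) hnn ?_) (BT.ofUnary hq)
    exact BT_ite (P := fun y : (List Bool × List Bool) × ℕ => R * num (lead y.1.1) (y.2 + 2)
        (y.1.1.drop (lead y.1.1 + 1)) < ∑ j ∈ Finset.range (nB y.1.1),
        num (lead y.1.1) (j + 2) (y.1.1.drop (lead y.1.1 + 1)))
      (PP.lt (BT.mul (BT.const R) hd) hS1) hd (BT.const 0)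
  · exact PP_ChkB (c := c) (n := fun p : List Bool × List Bool => nB p.1)
      (R := fun p : List Bool × List Bool => RB c q p.1) hnn hRR ha hb hd
      (hf1 0) (hf1 1) (hf2 2) (hf2 (2 + 3 * c)) (hf2 (2 + c)) (hf2 (2 + 2 * c))
-- END PP_VpB

-- BEGIN rare_eq
private theorem rare_eq_len {n : ℕ} (w : List (Fin n)) : w.length = ∑ i, w.count i := by
  induction w with
  | nil => simp
  | cons x w ih =>
    simp only [List.length_cons, List.count_cons, sum_add_distrib, ← ih]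
    congr 1
    rw [Finset.sum_eq_single x]
    · simp
    · intro b _ hb
      have h1 : ¬ x = b := fun h => hb h.symm
      simp [h1]
    · intro h
      exact absurd (mem_univ x) h

/-- The number of the copies of the rare models in a word with `d i` copies of `i` (fiberwise sum; `w.length = ∑ d i`). -/
theorem rare_eq (R : ℕ) {n : ℕ} (d : Fin n → ℕ) (w : List (Fin n)) (hw : ∀ i, w.count i = d i) :
    rare R w = (∑ i with R * d i < ∑ j, d j, d i) ∧ w.length = ∑ i, d i := by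
  have hlen : w.length = ∑ i, d i := by
    rw [rare_eq_len]
    exact sum_congr rfl fun i _ => hw i
  refine ⟨?_, hlen⟩
  unfold rare
  rw [rare_eq_len, sum_filter]
  refine sum_congr rfl fun i _ => ?_
  by_cases h : R * d i < ∑ j, d j
  · rw [if_pos h, List.count_filter (by simpa only [hw, hlen, decide_eq_true_eq] using h), hw]
  · rw [if_neg h, List.count_eq_zero]
    intro hmem
    rw [List.mem_filter] at hmem
    exact h (by simpa only [hw, hlen, decide_eq_true_eq] using hmem.2)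
-- END rare_eq

-- BEGIN VpB_of_mem
/-- `parse_code`; `to_list`, `main_a` (`c` is its constant), `rare_eq`, `completeB` with `R = RB c q x`; sizes: `∑ d i < 2 ^ N` by `tot_lt`
(`B + n < N`), `c, n < 2 ^ W`; `exists_certB`, `chkB_congr`. -/
theorem VpB_of_mem (R : ℕ) : ∃ c : ℕ, ∀ (q : ℕ[X]) (x : List Bool), x ∈ sparseRTV R q →
    ∃ w : List Bool, w.length = (RB c q x + 1) * (2 + 3 * c + nB x) * WB c x ∧ VpB R c q x w := by
  obtain ⟨c, hc⟩ := main_a R
  refine ⟨c, fun q x hx => ?_⟩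
  obtain ⟨B, a, b, n, d, hxc, ha, hb, hd, hb0, hn0, hd0, hK, s, hs, hr⟩ := hx
  obtain ⟨hl, hlen, p0, p1, p2⟩ := parse_code B a b d x hxc ha hb hd
  have hB : 1 ≤ B := by
    by_contra hcc
    have h0 : B = 0 := by omega
    subst h0
    omega
  have hnn : nB x = n := by
    rw [nB, hl, hlen, Nat.add_sub_cancel_left, Nat.mul_div_cancel _ (by omega)]
    omega
  have h2B : (n + 2) * B = n * B + 2 * B := by ring
  have hnB : n ≤ n * B := Nat.le_mul_of_pos_right n hB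
  have hnN : n ≤ x.length := by omega
  have hD : ∑ i, d i < 2 ^ x.length := tot_lt B d hd x.length (by omega)
  obtain ⟨v, hv, hvr⟩ := to_list d s hs
  obtain ⟨Bs, hp, hRT, hBl, hBc⟩ := hc (Fin n) inferInstance v
  obtain ⟨hra, -⟩ := rare_eq R d v hv
  have hw : ∀ i, (expand Bs).count i = d i := fun i => by rw [hp.count_eq, hv]
  have hle : Bs.length ≤ RB c q x := by
    refine hBl.trans ?_
    rw [RB, hra]
    exact Nat.mul_le_mul_left _ (Nat.add_le_add_right hK 1)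
  obtain ⟨L, E, U, S, G, H, hC, hbd⟩ := completeB d hd0 Bs hle hBc hw a b hb0
    ((hRT.trans (le_of_eq hvr)).trans hr)
  have hW : 2 ^ x.length ≤ 2 ^ WB c x := Nat.pow_le_pow_right (by norm_num) (by rw [WB]; omega)
  have hW1 : ∀ t, t ≤ ∑ i, d i → t < 2 ^ WB c x := fun t ht => by omega
  have hWc : ∀ t, t ≤ c → t < 2 ^ WB c x := fun t ht => by
    have h1 : WB c x < 2 ^ WB c x := Nat.lt_two_pow_self
    have h2 : c ≤ WB c x := by rw [WB]; omega
    omega
  have hWn : ∀ t, t ≤ n → t < 2 ^ WB c x := fun t ht => by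
    have h1 : WB c x < 2 ^ WB c x := Nat.lt_two_pow_self
    have h2 : x.length ≤ WB c x := by rw [WB]; omega
    omega
  obtain ⟨w, hwl, hww⟩ := exists_certB (WB c x) (RB c q x) c n L E U S G H
    (fun k l => ⟨hWc _ (hbd k l).1.1, hW1 _ (hbd k l).1.2.1, hWn _ (hbd k l).1.2.2,
      hW1 _ (hbd k l).2.1, hW1 _ (hbd k l).2.2.1, hW1 _ (hbd k l).2.2.2⟩)
  refine ⟨w, by rw [hnn]; exact hwl, ?_⟩
  rw [VpB, hnn, hl, p0, p1]
  refine ⟨hB, hlen, hn0, by omega, fun i hi => ?_, ?_, ?_⟩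
  · rw [p2 i hi, dN, dif_pos hi]
    exact (hd0 _).ne'
  · have e1 : ∀ i ∈ Finset.range n, num B (i + 2) (x.drop (B + 1)) = dN d i :=
      fun i hi => p2 i (Finset.mem_range.1 hi)
    have e2 : ∑ j ∈ Finset.range n, num B (j + 2) (x.drop (B + 1)) = ∑ i, d i := by
      rw [Finset.sum_congr rfl e1, sum_dN]
    rw [e2]
    have e3 : ∑ i ∈ Finset.range n, (if R * num B (i + 2) (x.drop (B + 1)) < ∑ i, d i then
        num B (i + 2) (x.drop (B + 1)) else 0) = ∑ i with R * d i < ∑ j, d j, d i := by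
      rw [Finset.sum_filter, Finset.sum_range]
      refine Finset.sum_congr rfl fun i _ => ?_
      rw [p2 i i.2, dN, dif_pos i.2]
    rw [e3]
    exact hK
  · exact chkB_congr hC p2 (fun k hk => ⟨(hww k hk.le).1, (hww k hk.le).2.1, fun l hl2 =>
      (hww k hk.le).2.2.1 l hl2⟩) (fun k hk i hi => (hww k hk).2.2.2 i hi)
-- END VpB_of_mem

-- BEGIN mem_of_VpB
/-- `code_parse`, `num_lt`, `soundB`, `of_list`, `chkB_congr`. -/
theorem mem_of_VpB (R c : ℕ) (q : ℕ[X]) (x w : List Bool) (h : VpB R c q x w) : x ∈ sparseRTV R q := by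
  obtain ⟨_, h2, h3, h4, h5, h6, h7⟩ := h
  have hd0 : ∀ i : Fin (nB x), 0 < num (lead x) (i + 2) (x.drop (lead x + 1)) := fun i =>
    Nat.pos_of_ne_zero (h5 i i.2)
  have h8 := chkB_congr (d' := dN fun i : Fin (nB x) => num (lead x) (i + 2) (x.drop (lead x + 1)))
    h7 (fun i hi => by rw [dN, dif_pos hi])
    (fun k _ => ⟨rfl, rfl, fun l _ => ⟨rfl, rfl, rfl⟩⟩) (fun k _ i _ => rfl)
  obtain ⟨v, hv1, hv2⟩ := soundB h3 _ hd0 (Nat.pos_of_ne_zero h4) h8
  obtain ⟨s, hs1, hs2⟩ := of_list _ v hv1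
  refine ⟨lead x, num (lead x) 0 (x.drop (lead x + 1)), num (lead x) 1 (x.drop (lead x + 1)), nB x,
    fun i => num (lead x) (i + 2) (x.drop (lead x + 1)), code_parse (nB x) x h2, num_lt _ _ _,
    num_lt _ _ _, fun i => num_lt _ _ _, Nat.pos_of_ne_zero h4, h3, hd0, ?_, s, hs1, ?_⟩
  · rw [Finset.sum_range, Finset.sum_range] at h6
    rw [Finset.sum_filter]
    exact h6
  · rw [hs2]
    exact hv2
-- END mem_of_VpB

/-- **Theorem.** -/
theorem mainNP (R : ℕ) (q : ℕ[X]) : InNP (sparseRTV R q) := by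
  classical
  obtain ⟨c, hc⟩ := VpB_of_mem R
  refine ⟨fun p => @decide (VpB R c q p.1 p.2) (Classical.dec _),
    (C c * (q + 1) + 1) * (2 + 3 * C c + X) * (X + C c + 1),
    PT.verifier (PP_VpB R c q), fun x => ⟨fun hx => ?_, fun hx => ?_⟩⟩
  · obtain ⟨w, hw, hv⟩ := hc q x hx
    refine ⟨w, ?_, by simpa using hv⟩
    rw [hw]
    have h1 : nB x ≤ x.length := le_trans (Nat.sub_le _ _) (le_trans (Nat.div_le_self _ _) (Nat.sub_le _ _))
    simp only [RB, WB, eval_mul, eval_add, eval_C, eval_X, eval_one, eval_ofNat]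
    exact Nat.mul_le_mul_right _ (Nat.mul_le_mul_left _ (by omega))
  · obtain ⟨w, -, hv⟩ := hx
    exact mem_of_VpB R c q x w (by simpa using hv)

end Rtw
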