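import Pool.Agent.Rtw.Lst
import Pool.Agent.Rtw.Aut

/-!
# Rtw SEG: the ages along a word, factors without rare letters
-/

set_option autoImplicit false

namespace Rtw

open Finset

open scoped Classical

variable {α : Type} [DecidableEq α]

/-- One letter: its age becomes `1`, the other ages increase by `1`. -/
def stp (a : α → ℕ) (i : α) : α → ℕ := fun j => if j = i then 1 else a j + 1

/-- The sum of the squares of the ages of the letters read. -/
def sqc : (α → ℕ) → List α → ℕ
  | _, [] => 0
  | a, i :: w => a i ^ 2 + sqc (stp a i) w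

-- BEGIN sqc_append
/-- Induction on `x`. -/
theorem sqc_append (a : α → ℕ) (x y : List α) : sqc a (x ++ y) = sqc a x + sqc (x.foldl stp a) y := by
  induction x generalizing a with
  | nil => simp [sqc]
  | cons i x ih => simp only [List.cons_append, sqc, List.foldl_cons, ih, add_assoc]
-- END sqc_append

-- BEGIN indep
/-- The age of a letter after a word which contains it is at most the length and does not depend on the ages before; the age
of another letter increases by the length. Induction on `w` (generalize the ages). -/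
theorem indep (w : List α) (i : α) : (i ∈ w → ∀ a b : α → ℕ, (w.foldl stp a) i = (w.foldl stp b) i ∧
    (w.foldl stp a) i ≤ w.length) ∧ (i ∉ w → ∀ a : α → ℕ, (w.foldl stp a) i = a i + w.length) := by
  induction w with
  | nil => exact ⟨fun h => absurd h List.not_mem_nil, fun _ a => rfl⟩
  | cons x w ih =>
    constructor
    · intro h a b
      rw [List.foldl_cons, List.foldl_cons, List.length_cons]
      by_cases hw : i ∈ w
      · obtain ⟨h1, h2⟩ := ih.1 hw (stp a x) (stp b x)
        exact ⟨h1, by omega⟩
      · have hx : i = x := by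
          rcases List.mem_cons.1 h with h3 | h3
          · exact h3
          · exact absurd h3 hw
        have h1 : ∀ c : α → ℕ, stp c x i = 1 := fun c => by
          unfold stp
          rw [if_pos hx]
        rw [ih.2 hw, ih.2 hw, h1, h1]
        exact ⟨rfl, by omega⟩
    · intro h a
      have hx : i ≠ x := fun h1 => h (h1 ▸ List.mem_cons_self)
      have hw : i ∉ w := fun h1 => h (List.mem_cons_of_mem x h1)
      have h1 : stp a x i = a i + 1 := by
        unfold stp
        rw [if_neg hx]
      rw [List.foldl_cons, List.length_cons, ih.2 hw, h1]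
      omega
-- END indep

-- BEGIN run_age
/-- Induction on `t`: `List.take_succ`-like lemma (`w.take (t + 1) = w.take t ++ [w[t]]`), `age_succ` for `pos w i`,
`ltr_nat`. -/
theorem run_age (w : List α) (a : α → ℕ) (ha : ∀ i ∈ w, a i = age (pos w i) 0) (t : ℕ) (ht : t ≤ w.length)
    (i : α) (hi : i ∈ w) : ((w.take t).foldl stp a) i = age (pos w i) t := by
  induction t with
  | zero => simpa using ha i hi
  | succ t ih =>
    have ht' : t < w.length := by omega
    have h1 : w.take (t + 1) = w.take t ++ [w[t]] := by
      rw [List.take_succ_eq_append_getElem ht']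
    have h2 : (((t + 1 : ℕ) : ℕ) : ℤ) = (t : ℤ) + 1 := by push_cast; rfl
    have h3 : pos w i (t : ℤ) ↔ i = w[t] := by
      unfold pos
      rw [ltr_nat w t ht', Option.some.injEq]
      exact eq_comm
    rw [h1, List.foldl_append, List.foldl_cons, List.foldl_nil, h2,
      age_succ w.length (pos w i) (pos_per w i hi)]
    unfold stp
    by_cases h4 : i = w[t]
    · rw [if_pos h4, if_pos (h3.2 h4)]
    · rw [if_neg h4, if_neg (fun h5 => h4 (h3.1 h5))]
      rw [← ih ht'.le]
      rfl
-- END run_age

-- BEGIN fix_age
/-- The ages at time `0` are fixed by `w` (`run_age` with `t = D`, `age_per`), and `indep`. -/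
theorem fix_age (w : List α) (a : α → ℕ) (ha : ∀ i ∈ w, (w.foldl stp a) i = a i) :
    ∀ i ∈ w, a i = age (pos w i) 0 := by
  intro i hi
  have h1 := run_age w (fun j => age (pos w j) 0) (fun j _ => rfl) w.length le_rfl i hi
  rw [List.take_length] at h1
  have h2 := age_per w.length (pos w i) (pos_per w i hi) 0
  rw [zero_add] at h2
  have h3 := (((indep w i).1 hi) a (fun j => age (pos w j) 0)).1
  rw [← ha i hi, h3, h1, h2]
-- END fix_age

-- BEGIN sqc_sum
/-- For every word: `sqc a w = ∑ t, (age of w[t] before it is read) ^ 2`; induction on `w` (`Fin.sum_univ_succ`) or from the end. -/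
theorem sqc_sum (a : α → ℕ) (w : List α) :
    sqc a w = ∑ t : Fin w.length, (((w.take t).foldl stp a) w[t]) ^ 2 := by
  induction w generalizing a with
  | nil => simp [sqc]
  | cons i w ih =>
    rw [sqc, ih]
    simp only [List.length_cons]
    rw [Fin.sum_univ_succ]
    simp
-- END sqc_sum

-- BEGIN sqc_dist
/-- `sqc_sum`, `run_age`, `dist_age`, `ltr_nat`. -/
theorem sqc_dist (w : List α) (a : α → ℕ) (ha : ∀ i ∈ w, a i = age (pos w i) 0) :
    ∑ t : Fin w.length, dist w (t : ℕ) ^ 2 = sqc a w := by
  rw [sqc_sum]
  refine Finset.sum_congr rfl fun t _ => ?_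
  rw [run_age w a ha t t.2.le w[t] (List.getElem_mem _)]
  rw [dist_age w w[t] ((t : ℕ) : ℤ) (ltr_nat w t t.2)]
-- END sqc_dist

/-- The ages cut at `L`, for the letters in `G`. -/
def cut (G : Finset α) (L : ℕ) (a : α → ℕ) : {i // i ∈ G} → Fin (L + 1) :=
  fun j => ⟨min (a j) L, by omega⟩

/-- The automaton of the ages cut at `L`. -/
def cap (G : Finset α) (L : ℕ) (s : {i // i ∈ G} → Fin (L + 1)) (i : {i // i ∈ G}) : {i // i ∈ G} → Fin (L + 1) :=
  fun j => if j = i then ⟨min 1 L, by omega⟩ else ⟨min ((s j : ℕ) + 1) L, by omega⟩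

/-- `1` for a step at which an age becomes larger than `L`. -/
noncomputable def bad (G : Finset α) (L : ℕ) (s : {i // i ∈ G} → Fin (L + 1)) (i : {i // i ∈ G}) : ℕ :=
  if ∃ j, j ≠ i ∧ L < (s j : ℕ) + 1 then 1 else 0

/-- The square of the age of the letter. -/
def sqf (G : Finset α) (L : ℕ) (s : {i // i ∈ G} → Fin (L + 1)) (i : {i // i ∈ G}) : ℕ := (s i : ℕ) ^ 2

/-- `1` for the letter `l`. -/
def cnt (G : Finset α) (L : ℕ) (l : {i // i ∈ G}) (_ : {i // i ∈ G} → Fin (L + 1)) (i : {i // i ∈ G}) : ℕ :=
  if i = l then 1 else 0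

-- BEGIN cap_run
private theorem cap_run_step (G : Finset α) (L : ℕ) (a : α → ℕ) (i : {i // i ∈ G}) :
    cap G L (cut G L a) i = cut G L (stp a i) := by
  funext j
  unfold cap cut stp
  by_cases h : j = i
  · subst h
    simp
  · have h' : (j : α) ≠ (i : α) := fun hh => h (Subtype.ext hh)
    simp only [if_neg h, if_neg h', Fin.mk.injEq]
    omega

private theorem cap_run_bad (G : Finset α) (L : ℕ) (hL : 1 ≤ L) (a : α → ℕ) (ha : ∀ j ∈ G, a j ≤ L)
    (i : {i // i ∈ G}) :
    bad G L (cut G L a) i = 0 ↔ ∀ j ∈ G, stp a i j ≤ L := by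
  unfold bad
  constructor
  · intro h j hj
    split_ifs at h with hc
    push Not at hc
    unfold stp
    by_cases hji : j = (i : α)
    · rw [if_pos hji]; exact hL
    · rw [if_neg hji]
      have h1 := hc ⟨j, hj⟩ (fun hh => hji (congrArg Subtype.val hh))
      have h2 := ha j hj
      simp only [cut] at h1
      omega
  · intro h
    rw [if_neg]
    rintro ⟨j, hj, hlt⟩
    have h1 := h j.1 j.2
    have h2 := ha j.1 j.2
    unfold stp at h1
    rw [if_neg (fun hh => hj (Subtype.ext hh))] at h1
    simp only [cut] at hlt
    omega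

/-- If all ages of the letters in `G` are at most `L` at the start, then: no bad step iff they stay at most `L`, and in this
case the automaton gives the ages. Induction on `m` (generalize `a`). -/
theorem cap_run (G : Finset α) (L : ℕ) (hL : 1 ≤ L) (a : α → ℕ) (ha : ∀ j ∈ G, a j ≤ L) (m : List {i // i ∈ G}) :
    (cst (cap G L) (bad G L) (cut G L a) m = 0 ↔
      ∀ t ≤ m.length, ∀ j ∈ G, (((m.map Subtype.val).take t).foldl stp a) j ≤ L) ∧
    (cst (cap G L) (bad G L) (cut G L a) m = 0 →
      m.foldl (cap G L) (cut G L a) = cut G L ((m.map Subtype.val).foldl stp a) ∧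
      cst (cap G L) (sqf G L) (cut G L a) m = sqc a (m.map Subtype.val)) := by
  induction m generalizing a with
  | nil =>
    refine ⟨⟨fun _ t _ j hj => ?_, fun _ => rfl⟩, fun _ => ⟨rfl, rfl⟩⟩
    simp only [List.map_nil, List.take_nil, List.foldl_nil]
    exact ha j hj
  | cons i m ih =>
    have hcst : cst (cap G L) (bad G L) (cut G L a) (i :: m) =
        bad G L (cut G L a) i + cst (cap G L) (bad G L) (cut G L (stp a i)) m := by
      rw [← cap_run_step]; rfl
    have hbad := cap_run_bad G L hL a ha i
    refine ⟨⟨fun h t ht j hj => ?_, fun h => ?_⟩, fun h => ?_⟩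
    · rw [hcst] at h
      have h1 := hbad.1 (by omega)
      have h2 := (ih (stp a i) h1).1.1 (by omega)
      rcases t with _ | t
      · simp only [List.take_zero, List.foldl_nil]
        exact ha j hj
      · simp only [List.map_cons, List.take_succ_cons, List.foldl_cons]
        exact h2 t (by simpa using ht) j hj
    · rw [hcst]
      have h1 : ∀ j ∈ G, stp a i j ≤ L := by
        intro j hj
        have := h 1 (by simp) j hj
        simpa using this
      rw [hbad.2 h1, (ih (stp a i) h1).1.2 (fun t ht j hj => ?_)]
      have := h (t + 1) (by simpa using ht) j hj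
      simpa using this
    · rw [hcst] at h
      have h1 := hbad.1 (by omega)
      have h2 := (ih (stp a i) h1).2 (by omega)
      constructor
      · simp only [List.map_cons, List.foldl_cons]
        rw [cap_run_step]
        exact h2.1
      · simp only [List.map_cons, cst, sqc]
        rw [cap_run_step, h2.2]
        congr 1
        unfold sqf cut
        have := ha i.1 i.2
        simp only
        rw [min_eq_left this]
-- END cap_run

-- BEGIN cap_cnt
/-- Induction on `m` (generalize `s`). -/
theorem cap_cnt (G : Finset α) (L : ℕ) (l : {i // i ∈ G}) (s : {i // i ∈ G} → Fin (L + 1)) (m : List {i // i ∈ G}) :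
    cst (cap G L) (cnt G L l) s m = m.count l := by
  induction m generalizing s with
  | nil => rfl
  | cons a m ih =>
    show cnt G L l s a + cst (cap G L) (cnt G L l) (cap G L s a) m = (a :: m).count l
    rw [ih, List.count_cons]
    unfold cnt
    by_cases h : a = l
    · subst h
      simp [Nat.add_comm]
    · have h2 : (a == l) = false := by simpa using h
      simp [h, h2]
-- END cap_cnt

-- BEGIN mid
omit [DecidableEq α] in
private theorem mid_expand {γ : Type} (φ : γ → α) (B : List (List γ × ℕ)) :
    expand (B.map fun b => (b.1.map φ, b.2)) = (expand B).map φ := by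
  unfold expand
  rw [List.map_map, List.map_flatten, List.map_map]
  congr 1
  refine List.map_congr_left fun b _ => ?_
  show (List.replicate b.2 (b.1.map φ)).flatten = ((List.replicate b.2 b.1).flatten).map φ
  rw [List.map_flatten, List.map_replicate]

/-- `rearr` for `N = (L + 1) ^ R`, `K = R`, the automaton `cap G L`, the state `cut G L a` and the word `m.attach`-like word
(`m = m₀.map Subtype.val`). The new word `m₁ = expand B₀` has the same `cst` for `bad` (so `0`), `sqf`, `cnt`; by `cap_run`, `cap_cnt`
it is a permutation (`List.perm_iff_count`), `sqc` is the same, and the ages of the letters in `G` at the end are the same (both are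
`≤ L`, and their cuts are equal); the others increase by the length (`indep`). `B` = `B₀` with `Subtype.val` applied to all words. -/
theorem mid (R L : ℕ) (hL : 1 ≤ L) : ∃ c : ℕ, ∀ (α : Type) (_ : DecidableEq α) (G : Finset α), G.card ≤ R →
    ∀ (a : α → ℕ) (m : List α), (∀ i ∈ m, i ∈ G) → (∀ t ≤ m.length, ∀ j ∈ G, ((m.take t).foldl stp a) j ≤ L) →
    ∃ B : List (List α × ℕ), B.length ≤ c ∧ (∀ b ∈ B, b.1.length ≤ c) ∧ (expand B).Perm m ∧
      (expand B).foldl stp a = m.foldl stp a ∧ sqc a (expand B) = sqc a m := by
  obtain ⟨c, hc⟩ := rearr ((L + 1) ^ R) R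
  refine ⟨c, ?_⟩
  intro α _ G hG a m hm hL2
  lift m to List {i // i ∈ G} using hm
  have ha : ∀ j ∈ G, a j ≤ L := fun j hj => hL2 0 (Nat.zero_le _) j hj
  have hσ : Fintype.card ({i // i ∈ G} → Fin (L + 1)) ≤ (L + 1) ^ R := by
    rw [Fintype.card_fun, Fintype.card_fin, Fintype.card_coe]
    exact Nat.pow_le_pow_right (Nat.succ_pos L) hG
  have hβ : Fintype.card {i // i ∈ G} ≤ R := by
    rw [Fintype.card_coe]
    exact hG
  obtain ⟨B, hB1, hB2, hB3, hB4⟩ := hc ({i // i ∈ G} → Fin (L + 1)) {i // i ∈ G} inferInstance
    inferInstance (cap G L) hσ hβ (cut G L a) m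
  have h0 : cst (cap G L) (bad G L) (cut G L a) m = 0 := by
    refine (cap_run G L hL a ha m).1.2 fun t ht j hj => ?_
    refine hL2 t ?_ j hj
    rw [List.length_map]
    exact ht
  have h1 : cst (cap G L) (bad G L) (cut G L a) (expand B) = 0 := by
    rw [hB4]
    exact h0
  have h2 := (cap_run G L hL a ha m).2 h0
  have h3 := (cap_run G L hL a ha (expand B)).2 h1
  have hperm : (expand B).Perm m := by
    rw [List.perm_iff_count]
    intro l
    rw [← cap_cnt G L l (cut G L a) (expand B), ← cap_cnt G L l (cut G L a) m]
    exact hB4 _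
  have hpm : ((expand B).map Subtype.val).Perm (m.map Subtype.val) := hperm.map _
  have hle1 := (cap_run G L hL a ha m).1.1 h0 m.length le_rfl
  have hle2 := (cap_run G L hL a ha (expand B)).1.1 h1 (expand B).length le_rfl
  rw [List.take_of_length_le (by rw [List.length_map])] at hle1 hle2
  refine ⟨B.map fun b => (b.1.map Subtype.val, b.2), ?_, ?_, ?_, ?_, ?_⟩
  · rw [List.length_map]
    exact hB1
  · intro b hb
    rw [List.mem_map] at hb
    obtain ⟨b', hb', rfl⟩ := hb
    rw [List.length_map]
    exact hB2 b' hb'
  · rw [mid_expand]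
    exact hpm
  · rw [mid_expand]
    funext j
    by_cases hj : j ∈ G
    · have h4 : cut G L (((expand B).map Subtype.val).foldl stp a) =
          cut G L ((m.map Subtype.val).foldl stp a) := by
        rw [← h3.1, ← h2.1]
        exact hB3
      have h5 := congrArg (fun s : {i // i ∈ G} → Fin (L + 1) => (s ⟨j, hj⟩ : ℕ)) h4
      have h6 : min ((((expand B).map Subtype.val).foldl stp a) j) L =
          min (((m.map Subtype.val).foldl stp a) j) L := h5
      rw [min_eq_left (hle2 j hj), min_eq_left (hle1 j hj)] at h6
      exact h6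
    · have h4 : ∀ m' : List {i // i ∈ G}, j ∉ m'.map Subtype.val := by
        intro m' h5
        rw [List.mem_map] at h5
        obtain ⟨x, _, rfl⟩ := h5
        exact hj x.2
      rw [(indep _ j).2 (h4 _) a, (indep _ j).2 (h4 _) a, hpm.length_eq]
  · rw [mid_expand, ← h3.2, ← h2.2]
    exact hB4 _
-- END mid

-- BEGIN win_seg
/-- In a factor `s` of `w` with frequent letters only (`w = p ++ s ++ r`), after `L = 12 R + 3` letters the ages of the frequent
letters are at most `L`: the last `L` letters of `p ++ s.take t` are a window as in `Win` (`pos w j y ↔ w[y]? = some j` for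
`0 ≤ y < D`), so they contain `j`; `indep` for the last `L` letters of `s.take t`. -/
theorem win_seg (R : ℕ) (w p s r : List α) (hW : Win R w) (hw : w = p ++ s ++ r) (hs : ∀ i ∈ s, i ∈ Fr R w)
    (t : ℕ) (ht : 12 * R + 3 ≤ t) (ht2 : t ≤ s.length) (a : α → ℕ) (j : α) (hj : j ∈ Fr R w) :
    ((s.take t).foldl stp a) j ≤ 12 * R + 3 := by
  have hlen : w.length = p.length + s.length + r.length := by
    rw [hw]; simp only [List.length_append]
  have hget : ∀ n : ℕ, n < s.length → ltr w ((p.length + n : ℕ) : ℤ) = s[n]? := by
    intro n hn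
    rw [ltr_nat w (p.length + n) (by omega)]
    have h1 : w[p.length + n]? = s[n]? := by
      rw [hw, List.append_assoc, List.getElem?_append_right (by omega),
        List.getElem?_append_left (by omega)]
      congr 1
      omega
    rw [← h1, List.getElem?_eq_getElem (by omega)]
  obtain ⟨y, hy1, hy2, hy3⟩ := hW ((p.length + t : ℕ) - (12 * R + 3)) (by
    intro y h1 h2
    obtain ⟨n, rfl⟩ : ∃ n : ℕ, y = ((p.length + n : ℕ) : ℤ) := ⟨(y - p.length).toNat, by omega⟩
    have hn : n < s.length := by omega
    refine ⟨s[n], hs _ (List.getElem_mem hn), ?_⟩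
    unfold pos
    rw [hget n hn, List.getElem?_eq_getElem hn]) j hj
  obtain ⟨n, rfl⟩ : ∃ n : ℕ, y = ((p.length + n : ℕ) : ℤ) := ⟨(y - p.length).toNat, by omega⟩
  have hn : n < s.length := by omega
  unfold pos at hy3
  rw [hget n hn] at hy3
  have hsplit : s.take t = (s.take t).take (t - (12 * R + 3)) ++ (s.take t).drop (t - (12 * R + 3)) :=
    (List.take_append_drop _ _).symm
  have hmem : j ∈ (s.take t).drop (t - (12 * R + 3)) := by
    rw [List.mem_iff_getElem?]
    refine ⟨n - (t - (12 * R + 3)), ?_⟩
    rw [List.getElem?_drop, List.getElem?_take]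
    have e : t - (12 * R + 3) + (n - (t - (12 * R + 3))) = n := by omega
    rw [e, if_pos (by omega)]
    exact hy3
  rw [hsplit, List.foldl_append]
  have h1 := ((indep ((s.take t).drop (t - (12 * R + 3))) j).1 hmem
    (((s.take t).take (t - (12 * R + 3))).foldl stp a) a).2
  refine h1.trans ?_
  rw [List.length_drop, List.length_take]
  omega
-- END win_seg

-- BEGIN seg
/-- `s` short: `B = [(s, 1)]`. Otherwise `s = s.take L ++ m`, `L = 12 R + 3`; `mid` for `G = Fr R w` (`Fr_card`), the ages after
`s.take L` and `m = s.drop L` (`win_seg` for the bounds), `B = (s.take L, 1) :: B₀`; `expand_append`, `sqc_append`, `List.foldl_append`. -/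
theorem seg (R : ℕ) : ∃ c : ℕ, 1 ≤ c ∧ ∀ (α : Type) (_ : DecidableEq α) (w p s r : List α), Win R w → w = p ++ s ++ r →
    (∀ i ∈ s, i ∈ Fr R w) → ∀ a : α → ℕ, ∃ B : List (List α × ℕ), B.length ≤ c ∧ (∀ b ∈ B, b.1.length ≤ c) ∧
      (expand B).Perm s ∧ (expand B).foldl stp a = s.foldl stp a ∧ sqc a (expand B) = sqc a s := by
  obtain ⟨c, hc⟩ := mid R (12 * R + 3) (by omega)
  refine ⟨c + (12 * R + 3) + 1, by omega, ?_⟩
  intro α _ w p s r hW hw hs a
  by_cases hlen : s.length ≤ 12 * R + 3
  · refine ⟨[(s, 1)], by simp, ?_, ?_, ?_, ?_⟩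
    · intro b hb
      rw [List.mem_singleton] at hb
      subst hb
      simp only
      omega
    · rw [(expand_append [] []).2 s]
    · rw [(expand_append [] []).2 s]
    · rw [(expand_append [] []).2 s]
  · push Not at hlen
    have hsd : s.take (12 * R + 3) ++ s.drop (12 * R + 3) = s := List.take_append_drop _ _
    obtain ⟨B, h1, h2, h3, h4, h5⟩ := hc α _ (Fr R w) (Fr_card R w)
      ((s.take (12 * R + 3)).foldl stp a) (s.drop (12 * R + 3))
      (fun i hi => hs i (List.mem_of_mem_drop hi)) (by
        intro t ht j hj
        rw [← List.foldl_append]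
        have e : s.take (12 * R + 3) ++ (s.drop (12 * R + 3)).take t = s.take (12 * R + 3 + t) :=
          List.take_add.symm
        rw [e]
        rw [List.length_drop] at ht
        exact win_seg R w p s r hW hw hs (12 * R + 3 + t) (by omega) (by omega) a j hj)
    have hexp : expand ((s.take (12 * R + 3), 1) :: B) = s.take (12 * R + 3) ++ expand B := by
      have h6 := (expand_append [(s.take (12 * R + 3), 1)] B).1
      rw [(expand_append ([] : List (List α × ℕ)) []).2 (s.take (12 * R + 3))] at h6
      exact h6
    refine ⟨(s.take (12 * R + 3), 1) :: B, ?_, ?_, ?_, ?_, ?_⟩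
    · rw [List.length_cons]
      omega
    · intro b hb
      rcases List.mem_cons.1 hb with rfl | hb
      · simp only [List.length_take]
        omega
      · have := h2 b hb
        omega
    · rw [hexp]
      have h7 := h3.append_left (s.take (12 * R + 3))
      rw [hsd] at h7
      exact h7
    · rw [hexp, List.foldl_append, h4, ← List.foldl_append, hsd]
    · rw [hexp, sqc_append, h5, ← sqc_append, hsd]
-- END seg

-- BEGIN segs
private theorem segs_aux (R c : ℕ) (hc1 : 1 ≤ c) (hc : ∀ (α : Type) (_ : DecidableEq α) (w p s r : List α), Win R w → w = p ++ s ++ r →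
    (∀ i ∈ s, i ∈ Fr R w) → ∀ a : α → ℕ, ∃ B : List (List α × ℕ), B.length ≤ c ∧ (∀ b ∈ B, b.1.length ≤ c) ∧
      (expand B).Perm s ∧ (expand B).foldl stp a = s.foldl stp a ∧ sqc a (expand B) = sqc a s)
    (α : Type) (_ : DecidableEq α) (w : List α) (hW : Win R w) : ∀ (n : ℕ) (p v : List α), v.length ≤ n → w = p ++ v →
    ∀ a : α → ℕ, ∃ B : List (List α × ℕ), B.length ≤ (c + 1) * ((v.filter (fun i => i ∉ Fr R w)).length + 1) ∧
      (∀ b ∈ B, b.1.length ≤ c + 1) ∧ (expand B).Perm v ∧ (expand B).foldl stp a = v.foldl stp a ∧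
      sqc a (expand B) = sqc a v := by
  intro n
  induction n with
  | zero =>
    intro p v hv hw a
    have hv0 : v = [] := List.length_eq_zero_iff.1 (by omega)
    subst hv0
    refine ⟨[], by simp, by simp, ?_, ?_, ?_⟩
    · exact List.Perm.refl _
    · rfl
    · rfl
  | succ n ih =>
    intro p v hv hw a
    have hsplit : v.takeWhile (fun i => decide (i ∈ Fr R w)) ++ v.dropWhile (fun i => decide (i ∈ Fr R w)) = v :=
      List.takeWhile_append_dropWhile
    have hsF : ∀ i ∈ v.takeWhile (fun i => decide (i ∈ Fr R w)), i ∈ Fr R w := by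
      intro i hi
      have := List.mem_takeWhile_imp hi
      simpa using this
    rcases hd : v.dropWhile (fun i => decide (i ∈ Fr R w)) with _ | ⟨x, v''⟩
    · rw [hd, List.append_nil] at hsplit
      rw [hsplit] at hsF
      obtain ⟨B, h1, h2, h3, h4, h5⟩ := hc α _ w p v [] hW (by rw [List.append_nil]; exact hw) hsF a
      refine ⟨B, ?_, fun b hb => (h2 b hb).trans (by omega), h3, h4, h5⟩
      calc B.length ≤ c := h1
        _ ≤ (c + 1) * 1 := by omega
        _ ≤ _ := Nat.mul_le_mul_left _ (by omega)
    · have hx : x ∉ Fr R w := by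
        have h1 : v.dropWhile (fun i => decide (i ∈ Fr R w)) ≠ [] := by rw [hd]; simp
        have h2 := List.head_dropWhile_not (fun i => decide (i ∈ Fr R w)) h1
        simp only [hd, List.head_cons, decide_eq_false_iff_not] at h2
        exact h2
      rw [hd] at hsplit
      generalize hsdef : v.takeWhile (fun i => decide (i ∈ Fr R w)) = s at hsplit hsF
      have hvlen : v.length = s.length + (v''.length + 1) := by
        rw [← hsplit, List.length_append, List.length_cons]
      obtain ⟨B1, h1, h2, h3, h4, h5⟩ := hc α _ w p s (x :: v'') hW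
        (by rw [hw, ← hsplit, List.append_assoc]) hsF a
      obtain ⟨B2, g1, g2, g3, g4, g5⟩ := ih (p ++ s ++ [x]) v'' (by omega)
        (by rw [hw, ← hsplit]; simp) ((s ++ [x]).foldl stp a)
      have hexp : expand (B1 ++ ([([x], 1)] ++ B2)) = expand B1 ++ ([x] ++ expand B2) := by
        rw [(expand_append B1 ([([x], 1)] ++ B2)).1, (expand_append [([x], 1)] B2).1,
          (expand_append ([] : List (List α × ℕ)) []).2 [x]]
      have hvv : v = s ++ ([x] ++ v'') := by rw [← hsplit]; simp
      refine ⟨B1 ++ ([([x], 1)] ++ B2), ?_, ?_, ?_, ?_, ?_⟩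
      · rw [List.length_append, List.length_append, List.length_singleton]
        have hfil : (v''.filter (fun i => i ∉ Fr R w)).length + 1 ≤ (v.filter (fun i => i ∉ Fr R w)).length := by
          rw [hvv, List.filter_append, List.filter_append, List.length_append, List.length_append]
          have : (([x] : List α).filter (fun i => i ∉ Fr R w)).length = 1 := by
            rw [List.filter_cons_of_pos (by simpa using hx)]
            simp
          omega
        calc B1.length + (1 + B2.length) ≤ c + (1 + (c + 1) * ((v''.filter (fun i => i ∉ Fr R w)).length + 1)) := by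
              omega
          _ = (c + 1) * ((v''.filter (fun i => i ∉ Fr R w)).length + 1 + 1) := by ring
          _ ≤ _ := Nat.mul_le_mul_left _ (by omega)
      · intro b hb
        rcases List.mem_append.1 hb with hb | hb
        · exact (h2 b hb).trans (by omega)
        rcases List.mem_append.1 hb with hb | hb
        · rw [List.mem_singleton] at hb
          subst hb
          simp
        · exact g2 b hb
      · rw [hexp, hvv]
        exact h3.append (g3.append_left [x])
      · rw [hexp, hvv, List.foldl_append, h4, List.foldl_append, List.foldl_append, List.foldl_append]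
        rw [List.foldl_append] at g4
        exact g4
      · rw [hexp, hvv, sqc_append, sqc_append, sqc_append, sqc_append, h5, h4]
        rw [List.foldl_append] at g5
        rw [g5]
/-- Induction on the length of `v`: `v = s ++ v'` with `s = v.takeWhile (· ∈ Fr R w)`; `v' = []` or `v' = x :: v''` with `x` rare.
`seg` for `s`, the block `([x], 1)`, and the induction hypothesis for `v''` with the prefix `p ++ s ++ [x]` and the ages
after `s ++ [x]`. The constant is `c + 1`, with the `c` of `seg`. -/
theorem segs (R : ℕ) : ∃ c : ℕ, ∀ (α : Type) (_ : DecidableEq α) (w p v : List α), Win R w → w = p ++ v →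
    ∀ a : α → ℕ, ∃ B : List (List α × ℕ), B.length ≤ c * ((v.filter (fun i => i ∉ Fr R w)).length + 1) ∧
      (∀ b ∈ B, b.1.length ≤ c) ∧ (expand B).Perm v ∧ (expand B).foldl stp a = v.foldl stp a ∧
      sqc a (expand B) = sqc a v := by
  obtain ⟨c, hc1, hc⟩ := seg R
  refine ⟨c + 1, ?_⟩
  intro α _ w p v hW hw a
  exact segs_aux R c hc1 hc α _ w hW v.length p v le_rfl hw a
-- END segs

/-- The number of the copies of the letters with `R d < D`. -/
def rare (R : ℕ) (w : List α) : ℕ := (w.filter (fun i => R * w.count i < w.length)).length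

-- BEGIN main_a
/-- `descent` gives `v`; `segs` for `p = []`, `a i = age (pos v i) 0` gives `B`, `u = expand B`. Then `u.Perm v`, the ages at the end
are those of `v`, which are `a` on the letters (`run_age` with `t = D`, `age_per`); `fix_age` for `u`, `sqc_dist` for `u` and `v`,
`RTV_sq`. A letter of `w` is not in `Fr R v` iff `R d < D`; the filters of permuted lists have the same length. -/
theorem main_a (R : ℕ) : ∃ c : ℕ, ∀ (α : Type) (_ : DecidableEq α) (w : List α), ∃ B : List (List α × ℕ),
    (expand B).Perm w ∧ RTV (expand B) ≤ RTV w ∧ B.length ≤ c * (rare R w + 1) ∧ ∀ b ∈ B, b.1.length ≤ c := by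
  obtain ⟨c, hc⟩ := segs R
  refine ⟨c, ?_⟩
  intro α _ w
  obtain ⟨v, hvw, hRTV, hW⟩ := descent R w
  obtain ⟨B, h1, h2, h3, h4, h5⟩ := hc α _ v [] v hW (by simp) (fun i => age (pos v i) 0)
  refine ⟨B, h3.trans hvw, ?_, ?_, h2⟩
  · refine le_trans (RTV_sq v (expand B) h3 ?_) hRTV
    have hv := sqc_dist v (fun i => age (pos v i) 0) (fun i _ => rfl)
    have hfix : ∀ i ∈ expand B, ((expand B).foldl stp (fun i => age (pos v i) 0)) i = age (pos v i) 0 := by
      intro i hi
      have hiv : i ∈ v := h3.mem_iff.1 hi
      rw [h4]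
      have h6 := run_age v (fun i => age (pos v i) 0) (fun i _ => rfl) v.length le_rfl i hiv
      rw [List.take_length] at h6
      rw [h6]
      have h7 := age_per v.length (pos v i) (pos_per v i hiv) 0
      rw [zero_add] at h7
      exact h7
    have hu := sqc_dist (expand B) (fun i => age (pos v i) 0) (fix_age (expand B) _ hfix)
    rw [hu, hv, h5]
  · have hfil : (v.filter (fun i => i ∉ Fr R v)).length = rare R w := by
      unfold rare
      have e : v.filter (fun i => i ∉ Fr R v) = v.filter (fun i => R * w.count i < w.length) := by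
        apply List.filter_congr
        intro i hi
        have hcount : v.count i = w.count i := hvw.count_eq i
        have hlen : v.length = w.length := hvw.length_eq
        unfold Fr
        simp only [Finset.mem_filter, List.mem_toFinset, hi, true_and, hcount, hlen, not_le]
      rw [e]
      exact (hvw.filter _).length_eq
    rw [← hfil]
    exact h1
-- END main_a

end Rtw
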